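import Pool.Agent.Work.MP_54723a_co.K2.Star

/-!
# One-step reductions of the statement of the problem, for any length function  (helper53)

* `main_of_step` : for any `s c D v ≤ rank`, the averaged step for `s` implies the statement.
* `tt` : the two-anchored through-length (helper93, helper69, helper86): the largest number of edges
  of a rainbow path through `v` which starts at `min D` or ends at `max D`.
* `main_of_anch` : the averaged step for `tt` implies the statement.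
-/

set_option autoImplicit false

namespace FlashRainbow.K2

open Classical

/-- the averaged step for a length function `s` -/
def StepG (s : (ℕ → ℕ → ℕ) → Finset ℕ → ℕ → ℕ) (c : ℕ → ℕ → ℕ) (D : Finset ℕ) : Prop :=
  ∃ (n : ℕ) (W : ℕ → Finset ℕ) (lam : ℕ → ℝ), (∀ i < n, 0 ≤ lam i) ∧
    ∑ i ∈ Finset.range n, lam i = 1 ∧ (∀ i < n, W i ⊂ D) ∧
    ∀ v ∈ D, (1 / 3 : ℝ) ^ s c D v ≤
      ∑ i ∈ Finset.range n, if v ∈ W i then lam i * (1 / 3 : ℝ) ^ s c (W i) v else 0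

theorem lym_of_step (s : (ℕ → ℕ → ℕ) → Finset ℕ → ℕ → ℕ)
    (h : ∀ (c lev : ℕ → ℕ → ℕ) (D : Finset ℕ), Lev c D 3 lev → 2 ≤ D.card → StepG s c D) :
    ∀ (c lev : ℕ → ℕ → ℕ) (D : Finset ℕ), Lev c D 3 lev →
      ∑ v ∈ D, (1 / 3 : ℝ) ^ s c D v ≤ 1 := by
  intro c lev D
  induction D using Finset.strongInduction with
  | _ D ih =>
  intro hL
  rcases Nat.lt_or_ge D.card 2 with hD | hD
  · calc ∑ v ∈ D, (1 / 3 : ℝ) ^ s c D v ≤ ∑ _v ∈ D, (1 : ℝ) :=
          Finset.sum_le_sum fun v _ => pow_le_one₀ (by norm_num) (by norm_num)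
      _ = D.card := by simp
      _ ≤ 1 := by
        have : D.card ≤ 1 := by omega
        exact_mod_cast this
  · obtain ⟨n, W, lam, h0, h1, hW, hv⟩ := h c lev D hL hD
    calc ∑ v ∈ D, (1 / 3 : ℝ) ^ s c D v
        ≤ ∑ v ∈ D, ∑ i ∈ Finset.range n,
            (if v ∈ W i then lam i * (1 / 3 : ℝ) ^ s c (W i) v else 0) :=
          Finset.sum_le_sum hv
      _ = ∑ i ∈ Finset.range n, ∑ v ∈ D,
            (if v ∈ W i then lam i * (1 / 3 : ℝ) ^ s c (W i) v else 0) := Finset.sum_comm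
      _ = ∑ i ∈ Finset.range n, lam i * ∑ v ∈ W i, (1 / 3 : ℝ) ^ s c (W i) v := by
          refine Finset.sum_congr rfl fun i hi => ?_
          rw [← Finset.sum_filter, Finset.mul_sum]
          refine Finset.sum_congr ?_ fun _ _ => rfl
          ext v
          rw [Finset.mem_filter]
          exact ⟨fun h => h.2, fun h => ⟨(hW i (Finset.mem_range.mp hi)).subset h, h⟩⟩
      _ ≤ ∑ i ∈ Finset.range n, lam i * 1 := by
          refine Finset.sum_le_sum fun i hi => ?_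
          have hi' := Finset.mem_range.mp hi
          exact mul_le_mul_of_nonneg_left
            (ih (W i) (hW i hi') (hL.mono (hW i hi').subset)) (h0 i hi')
      _ = 1 := by rw [← Finset.sum_mul, h1, one_mul]

/-- **the statement of the problem from one step**, for any length function bounded by the rank -/
theorem main_of_step (s : (ℕ → ℕ → ℕ) → Finset ℕ → ℕ → ℕ)
    (hs : ∀ (c : ℕ → ℕ → ℕ) (D : Finset ℕ) (R v : ℕ), Rk c D R → v ∈ D → s c D v ≤ R)
    (h : ∀ (c lev : ℕ → ℕ → ℕ) (D : Finset ℕ), Lev c D 3 lev → 2 ≤ D.card → StepG s c D) :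
    ∀ k : ℕ, 1 ≤ k →
      (∃ c : Fin (3 ^ (k - 1)) → Fin (3 ^ (k - 1)) → ℕ,
          (¬ ∃ x : Fin (3 + 1) → Fin (3 ^ (k - 1)), StrictMono x ∧
              ∃ col : ℕ, ∀ i : Fin 3, c (x i.castSucc) (x i.succ) = col) ∧
          (¬ ∃ y : Fin (k + 1) → Fin (3 ^ (k - 1)), StrictMono y ∧
              Function.Injective (fun i : Fin k => c (y i.castSucc) (y i.succ)))) ∧
      (∀ c : Fin (3 ^ (k - 1) + 1) → Fin (3 ^ (k - 1) + 1) → ℕ,
          (∃ x : Fin (3 + 1) → Fin (3 ^ (k - 1) + 1), StrictMono x ∧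
              ∃ col : ℕ, ∀ i : Fin 3, c (x i.castSucc) (x i.succ) = col) ∨
          (∃ y : Fin (k + 1) → Fin (3 ^ (k - 1) + 1), StrictMono y ∧
              Function.Injective (fun i : Fin k => c (y i.castSucc) (y i.succ)))) := by
  refine main_of_card fun c lev D R hL hR => ?_
  have h1 := lym_of_step s h c lev D hL
  have h2 : (D.card : ℝ) * (1 / 3 : ℝ) ^ R ≤ 1 := by
    calc (D.card : ℝ) * (1 / 3 : ℝ) ^ R = ∑ _v ∈ D, (1 / 3 : ℝ) ^ R := by
          rw [Finset.sum_const, nsmul_eq_mul]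
      _ ≤ ∑ v ∈ D, (1 / 3 : ℝ) ^ s c D v := Finset.sum_le_sum fun v hv =>
          pow_le_pow_of_le_one (by norm_num) (by norm_num) (hs c D R v hR hv)
      _ ≤ 1 := h1
  have h3 : (D.card : ℝ) ≤ 3 ^ R := by
    have h4 : (0 : ℝ) < 3 ^ R := by positivity
    rw [one_div, inv_pow, ← div_eq_mul_inv, div_le_one h4] at h2
    exact h2
  exact_mod_cast h3

/-- the largest number of edges of a rainbow path through `v` which starts at `min D` or ends at
`max D` -/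
noncomputable def tt (c : ℕ → ℕ → ℕ) (D : Finset ℕ) (v : ℕ) : ℕ :=
  (((cols c D).powerset ×ˢ (cols c D).powerset).filter fun p => Disjoint p.1 p.2 ∧
    ((∃ x ∈ D, (∀ u ∈ D, x ≤ u) ∧ RQ c D x v p.1 ∧ RS c D v p.2) ∨
     (∃ z ∈ D, (∀ u ∈ D, u ≤ z) ∧ RP c D v p.1 ∧ RQ c D v z p.2))).sup
    fun p => p.1.card + p.2.card

theorem rq_cols {D : Finset ℕ} {c : ℕ → ℕ → ℕ} {x y : ℕ} {A : Finset ℕ} (h : RQ c D x y A) :
    A ⊆ cols c D := rp_cols h.toRP

theorem le_tt_left {c : ℕ → ℕ → ℕ} {D A B : Finset ℕ} {v x : ℕ} (hx : x ∈ D)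
    (hmin : ∀ u ∈ D, x ≤ u) (hA : RQ c D x v A) (hB : RS c D v B) (hAB : Disjoint A B) :
    A.card + B.card ≤ tt c D v := by
  have hmem : (A, B) ∈ ((cols c D).powerset ×ˢ (cols c D).powerset).filter fun p =>
      Disjoint p.1 p.2 ∧ ((∃ x ∈ D, (∀ u ∈ D, x ≤ u) ∧ RQ c D x v p.1 ∧ RS c D v p.2) ∨
        (∃ z ∈ D, (∀ u ∈ D, u ≤ z) ∧ RP c D v p.1 ∧ RQ c D v z p.2)) :=
    Finset.mem_filter.mpr ⟨Finset.mem_product.mpr ⟨Finset.mem_powerset.mpr (rq_cols hA),
      Finset.mem_powerset.mpr (rs_cols hB)⟩, hAB, Or.inl ⟨x, hx, hmin, hA, hB⟩⟩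
  exact Finset.le_sup (f := fun p : Finset ℕ × Finset ℕ => p.1.card + p.2.card) hmem

theorem le_tt_right {c : ℕ → ℕ → ℕ} {D A B : Finset ℕ} {v z : ℕ} (hz : z ∈ D)
    (hmax : ∀ u ∈ D, u ≤ z) (hA : RP c D v A) (hB : RQ c D v z B) (hAB : Disjoint A B) :
    A.card + B.card ≤ tt c D v := by
  have hmem : (A, B) ∈ ((cols c D).powerset ×ˢ (cols c D).powerset).filter fun p =>
      Disjoint p.1 p.2 ∧ ((∃ x ∈ D, (∀ u ∈ D, x ≤ u) ∧ RQ c D x v p.1 ∧ RS c D v p.2) ∨
        (∃ z ∈ D, (∀ u ∈ D, u ≤ z) ∧ RP c D v p.1 ∧ RQ c D v z p.2)) :=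
    Finset.mem_filter.mpr ⟨Finset.mem_product.mpr ⟨Finset.mem_powerset.mpr (rp_cols hA),
      Finset.mem_powerset.mpr (rq_cols hB)⟩, hAB, Or.inr ⟨z, hz, hmax, hA, hB⟩⟩
  exact Finset.le_sup (f := fun p : Finset ℕ × Finset ℕ => p.1.card + p.2.card) hmem

theorem rp_trans {c : ℕ → ℕ → ℕ} {D A B : Finset ℕ} {x y : ℕ} (h : RP c D x A)
    (h' : RQ c D x y B) (hd : Disjoint B A) : RP c D y (A ∪ B) := by
  induction h' with
  | single _ => simpa using h
  | @step y z B h1 hz hlt hc ih =>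
    rw [Finset.disjoint_insert_left] at hd
    rw [Finset.union_insert]
    refine RP.step (ih hd.2) hz hlt ?_
    rw [Finset.mem_union, not_or]
    exact ⟨hd.1, hc⟩

theorem tt_le_rank {c : ℕ → ℕ → ℕ} {D : Finset ℕ} {R v : ℕ} (hR : Rk c D R) : tt c D v ≤ R := by
  refine Finset.sup_le fun p hp => ?_
  obtain ⟨-, hd, h⟩ := Finset.mem_filter.mp hp
  rcases h with ⟨x, -, -, hA, hB⟩ | ⟨z, -, -, hA, hB⟩
  · exact (le_thr hA.toRP hB hd).trans (thr_le_rank hR)
  · have h1 := hR _ _ (rp_trans hA hB hd.symm)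
    rwa [Finset.card_union_of_disjoint hd] at h1

/-- the two-anchored averaged step implies the statement of the problem -/
theorem main_of_anch (h : ∀ (c lev : ℕ → ℕ → ℕ) (D : Finset ℕ), Lev c D 3 lev → 2 ≤ D.card →
    StepG tt c D) :
    ∀ k : ℕ, 1 ≤ k →
      (∃ c : Fin (3 ^ (k - 1)) → Fin (3 ^ (k - 1)) → ℕ,
          (¬ ∃ x : Fin (3 + 1) → Fin (3 ^ (k - 1)), StrictMono x ∧
              ∃ col : ℕ, ∀ i : Fin 3, c (x i.castSucc) (x i.succ) = col) ∧
          (¬ ∃ y : Fin (k + 1) → Fin (3 ^ (k - 1)), StrictMono y ∧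
              Function.Injective (fun i : Fin k => c (y i.castSucc) (y i.succ)))) ∧
      (∀ c : Fin (3 ^ (k - 1) + 1) → Fin (3 ^ (k - 1) + 1) → ℕ,
          (∃ x : Fin (3 + 1) → Fin (3 ^ (k - 1) + 1), StrictMono x ∧
              ∃ col : ℕ, ∀ i : Fin 3, c (x i.castSucc) (x i.succ) = col) ∨
          (∃ y : Fin (k + 1) → Fin (3 ^ (k - 1) + 1), StrictMono y ∧
              Function.Injective (fun i : Fin k => c (y i.castSucc) (y i.succ)))) :=
  main_of_step tt (fun _ _ _ _ hR _ => tt_le_rank hR) h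

end FlashRainbow.K2
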