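import Pool.Agent.Work.MP_54723a_co.K2.LISat
import Pool.Agent.Work.MP_54723a_co.K2.Anch

/-!
# (CH3), (ZZ), three sets of smaller rank => S08791  (paper: helper19, helper60, helper69; Lean: helper12)

* `ThreeRk` : a minimal counterexample is a union of three sets of rank at most `R`.
* `ZZ` : some colour `k` has no full `k`-free path between two `k`-isolated vertices which both end and
  start full `k`-free paths, inside the middle vertices and such vertices.
* `Ch3` : some colour `k` has no chain of three full `k`-free paths.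
* `ColK` : for some `k` the graph of `k`-arcs and full `k`-free paths is 3-colourable.
-/

set_option autoImplicit false

namespace FlashRainbow.K2

open Classical FlashRainbow FlashRainbow.K

variable {c : ℕ → ℕ → ℕ} {V U T : Finset ℕ} {r R k x y : ℕ} {lev : ℕ → ℕ → ℕ}

/-- a minimal counterexample is covered by three sets of smaller rank -/
def ThreeRk : Prop :=
  ∀ (c : ℕ → ℕ → ℕ) (lev : ℕ → ℕ → ℕ) (V : Finset ℕ) (R : ℕ), Lev c V 3 lev → Rk c V (R + 1) →
    BoundTo R → V.card = 3 ^ (R + 1) + 1 →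
    ∃ W0 W1 W2 : Finset ℕ, W0 ⊆ V ∧ W1 ⊆ V ∧ W2 ⊆ V ∧ Rk c W0 R ∧ Rk c W1 R ∧ Rk c W2 R ∧
      V ⊆ W0 ∪ (W1 ∪ W2)

theorem card_le_of_ThreeRk (hH : ThreeRk) : ∀ R : ℕ, BoundTo R := by
  intro R
  induction R with
  | zero =>
    intro c lev V r hr _ hR
    obtain rfl : r = 0 := by omega
    simpa using card_le_one_of_anch_zero (anch_of_rk hR)
  | succ R ih =>
    intro c lev V r hr hL hR
    rcases Nat.lt_or_ge r (R + 1) with h | h
    · exact ih c lev V r (by omega) hL hR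
    obtain rfl : r = R + 1 := by omega
    by_contra hcon
    obtain ⟨W, hWV, hW⟩ := Finset.exists_subset_card_eq (s := V) (n := 3 ^ (R + 1) + 1) (by omega)
    have hLW := hL.mono hWV
    have hRW : Rk c W (R + 1) := fun y D hD => hR y D (hD.mono hWV)
    obtain ⟨W0, W1, W2, s0, s1, s2, r0, r1, r2, hc⟩ := hH c lev W R hLW hRW ih hW
    have c0 := ih c lev W0 R (le_refl R) (hLW.mono s0) r0
    have c1 := ih c lev W1 R (le_refl R) (hLW.mono s1) r1
    have c2 := ih c lev W2 R (le_refl R) (hLW.mono s2) r2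
    have h1 := Finset.card_le_card hc
    have h2 := Finset.card_union_le W0 (W1 ∪ W2)
    have h3 := Finset.card_union_le W1 W2
    rw [pow_succ] at hW
    omega

/-- **three sets of smaller rank imply S08791** -/
theorem s08791_of_ThreeRk (hH : ThreeRk) :
    ∀ k : ℕ, 1 ≤ k →
      (∃ c : Fin (3 ^ (k - 1)) → Fin (3 ^ (k - 1)) → ℕ,
          (¬ ∃ x : Fin (3 + 1) → Fin (3 ^ (k - 1)), StrictMono x ∧
              ∃ col : ℕ, ∀ i : Fin 3, c (x i.castSucc) (x i.succ) = col) ∧
          (¬ ∃ y : Fin (k + 1) → Fin (3 ^ (k - 1)), StrictMono y ∧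
              Function.Injective (fun i : Fin k => c (y i.castSucc) (y i.succ)))) ∧
      (∀ c : Fin (3 ^ (k - 1) + 1) → Fin (3 ^ (k - 1) + 1) → ℕ,
          (∃ x : Fin (3 + 1) → Fin (3 ^ (k - 1) + 1), StrictMono x ∧
              ∃ col : ℕ, ∀ i : Fin 3, c (x i.castSucc) (x i.succ) = col) ∨
          (∃ y : Fin (k + 1) → Fin (3 ^ (k - 1) + 1), StrictMono y ∧
              Function.Injective (fun i : Fin k => c (y i.castSucc) (y i.succ)))) :=
  K.s08791_of_card fun c lev V R hL hR => card_le_of_ThreeRk hH R c lev V R (le_refl R) hL hR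

/-- a full path from `u` to `v` without the colour `k` -/
def Full1 (c : ℕ → ℕ → ℕ) (V : Finset ℕ) (R k u v : ℕ) : Prop :=
  ∃ P, RQ c V u v P ∧ k ∉ P ∧ P.card = R + 1

theorem not_in_of_full1 (hR : Rk c V (R + 1)) {u v : ℕ} (h : Full1 c V R k u v) :
    ¬ InCol c V u k := by
  rintro ⟨w, hw, hwu, hcw⟩
  obtain ⟨P, hP, hk, hc⟩ := h
  have h1 := K.RS.card_le hR (RS.step hP.toRS hw hwu (by rw [hcw]; exact hk))
  rw [hcw, Finset.card_insert_of_notMem hk] at h1
  omega

theorem not_out_of_full1 (hR : Rk c V (R + 1)) {u v : ℕ} (h : Full1 c V R k u v) :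
    ¬ OutCol c V v k := by
  rintro ⟨w, hw, hvw, hcw⟩
  obtain ⟨P, hP, hk, hc⟩ := h
  have h1 := hR w _ (RP.step hP.toRP hw hvw (by rw [hcw]; exact hk))
  rw [hcw, Finset.card_insert_of_notMem hk] at h1
  omega

theorem rq_le {u v : ℕ} {P : Finset ℕ} (h : RQ c T u v P) : u ≤ v := by
  induction h with
  | single _ => exact le_refl _
  | step _ _ hlt _ ih => exact ih.trans hlt.le

/-- a set without `k`-arcs and full `k`-free paths has smaller rank -/
theorem rk_of_noarc (hR : Rk c V (R + 1)) (hT : T ⊆ V)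
    (hfree : ∀ u ∈ T, ∀ v ∈ T, u < v → c u v ≠ k)
    (hno : ∀ u ∈ T, ∀ v ∈ T, ∀ P, RQ c T u v P → k ∉ P → P.card ≠ R + 1) : Rk c T R := by
  intro y D hD
  have hk := hD.notMem_of_free hfree
  obtain ⟨x, hx⟩ := hD.exists_RQ
  have h1 := hR y D (hD.mono hT)
  have h2 := hno x hx.toRS.mem y hD.mem D hx hk
  omega

/-- the graph of a colour -/
def Dk (c : ℕ → ℕ → ℕ) (V : Finset ℕ) (R k u v : ℕ) : Prop :=
  u ∈ V ∧ v ∈ V ∧ u < v ∧ (c u v = k ∨ Full1 c V R k u v)

/-- some graph of a colour is 3-colourable -/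
def ColK : Prop :=
  ∀ (c : ℕ → ℕ → ℕ) (lev : ℕ → ℕ → ℕ) (V : Finset ℕ) (R : ℕ), Lev c V 3 lev → Rk c V (R + 1) →
    BoundTo R → V.card = 3 ^ (R + 1) + 1 →
    ∃ k, ∃ f : ℕ → ℕ, (∀ v ∈ V, f v < 3) ∧ ∀ u v, Dk c V R k u v → f u ≠ f v

theorem threeRk_of_ColK (hH : ColK) : ThreeRk := by
  intro c lev V R hL hR hB hV
  obtain ⟨k, f, hf, hE⟩ := hH c lev V R hL hR hB hV
  have key : ∀ i, Rk c (V.filter (fun v => f v = i)) R := by
    intro i
    have s : V.filter (fun v => f v = i) ⊆ V := Finset.filter_subset _ _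
    refine rk_of_noarc (k := k) hR s ?_ ?_
    · intro u hu v hv huv hc
      exact hE u v ⟨s hu, s hv, huv, Or.inl hc⟩
        ((Finset.mem_filter.mp hu).2.trans (Finset.mem_filter.mp hv).2.symm)
    · intro u hu v hv P hP hk hc
      have huv : u < v := by
        cases hP with
        | single _ => simp at hc
        | @step b z D h _ hlt _ =>
          have h1 : u ≤ b := rq_le h
          omega
      exact hE u v ⟨s hu, s hv, huv, Or.inr ⟨P, hP.mono s, hk, hc⟩⟩
        ((Finset.mem_filter.mp hu).2.trans (Finset.mem_filter.mp hv).2.symm)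
  refine ⟨_, _, _, Finset.filter_subset _ _, Finset.filter_subset _ _, Finset.filter_subset _ _,
    key 0, key 1, key 2, ?_⟩
  intro v hv
  have h1 := hf v hv
  simp only [Finset.mem_union, Finset.mem_filter]
  have : f v = 0 ∨ f v = 1 ∨ f v = 2 := by omega
  tauto

/-- **(CH3)**: some colour has no chain of three full `k`-free paths -/
def Ch3 : Prop :=
  ∀ (c : ℕ → ℕ → ℕ) (lev : ℕ → ℕ → ℕ) (V : Finset ℕ) (R : ℕ), Lev c V 3 lev → Rk c V (R + 1) →
    BoundTo R → V.card = 3 ^ (R + 1) + 1 →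
    ∃ k, ∀ a w w' b, Full1 c V R k a w → Full1 c V R k w w' → Full1 c V R k w' b → False

theorem colK_of_Ch3 (hH : Ch3) : ColK := by
  intro c lev V R hL hR hB hV
  have hN := nf_of_lev hL
  obtain ⟨k, hk⟩ := hH c lev V R hL hR hB hV
  have hchain : ∀ a b d e, Dk c V R k a b → Dk c V R k b d → Dk c V R k d e → False := by
    rintro a b d e ⟨ha, hb, hab, h1⟩ ⟨_, hd, hbd, h2⟩ ⟨_, he, hde, h3⟩
    rcases h1 with h1 | h1
    · rcases h2 with h2 | h2
      · rcases h3 with h3 | h3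
        · exact hN a ha b hb d hd e he hab hbd hde (h1.trans h2.symm) (h2.trans h3.symm)
        · exact not_in_of_full1 hR h3 ⟨b, hb, hbd, h2⟩
      · exact not_in_of_full1 hR h2 ⟨a, ha, hab, h1⟩
    · rcases h2 with h2 | h2
      · exact not_out_of_full1 hR h1 ⟨d, hd, hbd, h2⟩
      · rcases h3 with h3 | h3
        · exact not_out_of_full1 hR h2 ⟨e, he, hde, h3⟩
        · exact hk a b d e h1 h2 h3
  refine ⟨k, fun v => if ∃ a b, Dk c V R k a b ∧ Dk c V R k b v then 2 else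
    if ∃ b, Dk c V R k b v then 1 else 0, ?_, ?_⟩
  · intro v _
    dsimp only
    split_ifs <;> omega
  · intro u v huv
    dsimp only
    have h1 : ∃ b, Dk c V R k b v := ⟨u, huv⟩
    have h2 : ¬ ∃ a b, Dk c V R k a b ∧ Dk c V R k b u := by
      rintro ⟨a, b, h3, h4⟩
      exact hchain a b u v h3 h4 huv
    rw [if_neg h2]
    by_cases h3 : ∃ b, Dk c V R k b u
    · obtain ⟨b, hb⟩ := h3
      rw [if_pos ⟨b, hb⟩, if_pos ⟨b, u, hb, huv⟩]
      omega
    · rw [if_neg h3, if_pos h1]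
      split_ifs <;> omega

/-- a vertex which ends and starts full `k`-free paths -/
def BiFull (c : ℕ → ℕ → ℕ) (V : Finset ℕ) (R k v : ℕ) : Prop :=
  (∃ a, Full1 c V R k a v) ∧ ∃ b, Full1 c V R k v b

/-- the middle vertices of `k` and the bi-full vertices -/
noncomputable def MZ (c : ℕ → ℕ → ℕ) (V : Finset ℕ) (R k : ℕ) : Finset ℕ :=
  V.filter (fun v => (InCol c V v k ∧ OutCol c V v k) ∨ BiFull c V R k v)

/-- **(ZZ)** of helper60 -/
def ZZ : Prop :=
  ∀ (c : ℕ → ℕ → ℕ) (lev : ℕ → ℕ → ℕ) (V : Finset ℕ) (R : ℕ), Lev c V 3 lev → Rk c V (R + 1) →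
    BoundTo R → V.card = 3 ^ (R + 1) + 1 →
    ∃ k, ∀ u ∈ V, ∀ v ∈ V, BiFull c V R k u → BiFull c V R k v → ∀ P, RQ c (MZ c V R k) u v P →
      k ∉ P → P.card ≠ R + 1

theorem threeRk_of_ZZ (hH : ZZ) : ThreeRk := by
  intro c lev V R hL hR hB hV
  have hN := nf_of_lev hL
  obtain ⟨k, hk⟩ := hH c lev V R hL hR hB hV
  set W0 := V.filter (fun v => ¬ InCol c V v k ∧ (OutCol c V v k ∨ ¬ ∃ a, Full1 c V R k a v)) with hW0
  set W1 := V.filter (fun v => ¬ OutCol c V v k ∧ (InCol c V v k ∨ ¬ ∃ b, Full1 c V R k v b)) with hW1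
  have s0 : W0 ⊆ V := Finset.filter_subset _ _
  have s1 : W1 ⊆ V := Finset.filter_subset _ _
  have s2 : MZ c V R k ⊆ V := Finset.filter_subset _ _
  have htail : ∀ (T : Finset ℕ), T ⊆ V → ∀ u v P, RQ c T u v P → k ∉ P → P.card = R + 1 →
      Full1 c V R k u v := fun T hT u v P hP h1 h2 => ⟨P, hP.mono hT, h1, h2⟩
  refine ⟨W0, W1, MZ c V R k, s0, s1, s2, ?_, ?_, ?_, ?_⟩
  · refine rk_of_noarc (k := k) hR s0 ?_ ?_
    · intro u hu v hv huv hc
      exact (Finset.mem_filter.mp hv).2.1 ⟨u, s0 hu, huv, hc⟩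
    · intro u hu v hv P hP hkP hc
      have h1 := htail W0 s0 u v P hP hkP hc
      rcases (Finset.mem_filter.mp hv).2.2 with h2 | h2
      · exact not_out_of_full1 hR h1 h2
      · exact h2 ⟨u, h1⟩
  · refine rk_of_noarc (k := k) hR s1 ?_ ?_
    · intro u hu v hv huv hc
      exact (Finset.mem_filter.mp hu).2.1 ⟨v, s1 hv, huv, hc⟩
    · intro u hu v hv P hP hkP hc
      have h1 := htail W1 s1 u v P hP hkP hc
      rcases (Finset.mem_filter.mp hu).2.2 with h2 | h2
      · exact not_in_of_full1 hR h1 h2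
      · exact h2 ⟨v, h1⟩
  · refine rk_of_noarc (k := k) hR s2 ?_ ?_
    · intro u hu v hv huv hc
      rcases (Finset.mem_filter.mp hu).2 with ⟨⟨a, ha, hau, hca⟩, _⟩ | h1
      · rcases (Finset.mem_filter.mp hv).2 with ⟨_, b, hb, hvb, hcb⟩ | h2
        · exact hN a ha u (s2 hu) v (s2 hv) b hb hau huv hvb (hca.trans hc.symm) (hc.trans hcb.symm)
        · obtain ⟨b, hb⟩ := h2.2
          exact not_in_of_full1 hR hb ⟨u, s2 hu, huv, hc⟩
      · obtain ⟨a, ha⟩ := h1.1
        exact not_out_of_full1 hR ha ⟨v, s2 hv, huv, hc⟩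
    · intro u hu v hv P hP hkP hc
      have h1 := htail _ s2 u v P hP hkP hc
      have hu' : BiFull c V R k u := by
        rcases (Finset.mem_filter.mp hu).2 with h2 | h2
        · exact absurd h2.1 (not_in_of_full1 hR h1)
        · exact h2
      have hv' : BiFull c V R k v := by
        rcases (Finset.mem_filter.mp hv).2 with h2 | h2
        · exact absurd h2.2 (not_out_of_full1 hR h1)
        · exact h2
      exact hk u (s2 hu) v (s2 hv) hu' hv' P hP hkP hc
  · intro v hv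
    by_cases h1 : InCol c V v k
    · by_cases h2 : OutCol c V v k
      · exact Finset.mem_union_right _ (Finset.mem_union_right _
          (Finset.mem_filter.mpr ⟨hv, Or.inl ⟨h1, h2⟩⟩))
      · exact Finset.mem_union_right _ (Finset.mem_union_left _
          (Finset.mem_filter.mpr ⟨hv, h2, Or.inl h1⟩))
    · by_cases h2 : OutCol c V v k
      · exact Finset.mem_union_left _ (Finset.mem_filter.mpr ⟨hv, h1, Or.inl h2⟩)
      · by_cases h3 : ∃ a, Full1 c V R k a v
        · by_cases h4 : ∃ b, Full1 c V R k v b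
          · exact Finset.mem_union_right _ (Finset.mem_union_right _
              (Finset.mem_filter.mpr ⟨hv, Or.inr ⟨h3, h4⟩⟩))
          · exact Finset.mem_union_right _ (Finset.mem_union_left _
              (Finset.mem_filter.mpr ⟨hv, h2, Or.inr h4⟩))
        · exact Finset.mem_union_left _ (Finset.mem_filter.mpr ⟨hv, h1, Or.inr h3⟩)

/-- the vertices incident with the colour `k` -/
noncomputable def Sk (c : ℕ → ℕ → ℕ) (V : Finset ℕ) (k : ℕ) : Finset ℕ :=
  V.filter (fun v => InCol c V v k ∨ OutCol c V v k)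

/-- **(SUPP)** of helper84: a colour with a bi-full isolated vertex is not popular -/
def Supp : Prop :=
  ∀ (c : ℕ → ℕ → ℕ) (lev : ℕ → ℕ → ℕ) (V : Finset ℕ) (R k v : ℕ), Lev c V 3 lev →
    Rk c V (R + 1) → BoundTo R → v ∈ V → BiFull c V R k v → (Sk c V k).card ≤ 2 * 3 ^ R

/-- **(POP)** of helper84: sets without popular colours are small -/
def Pop : Prop :=
  ∀ (c : ℕ → ℕ → ℕ) (lev : ℕ → ℕ → ℕ) (V : Finset ℕ) (R : ℕ), Lev c V 3 lev → Rk c V (R + 1) →
    BoundTo R → (∀ k, (Sk c V k).card ≤ 2 * 3 ^ R) → V.card ≤ 3 ^ (R + 1)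

theorem zz_of_supp_pop (h1 : Supp) (h2 : Pop) : ZZ := by
  intro c lev V R hL hR hB hV
  by_contra hcon
  push Not at hcon
  have h3 := h2 c lev V R hL hR hB (by
    intro k
    obtain ⟨u, hu, v, hv, hbu, hbv, _⟩ := hcon k
    exact h1 c lev V R k u hL hR hB hu hbu)
  omega

theorem card_le_of_supp_pop (h1 : Supp) (h2 : Pop) : ∀ R : ℕ, BoundTo R :=
  card_le_of_ThreeRk (threeRk_of_ZZ (zz_of_supp_pop h1 h2))

theorem card_le_of_Ch3 (hH : Ch3) : ∀ R : ℕ, BoundTo R :=
  card_le_of_ThreeRk (threeRk_of_ColK (colK_of_Ch3 hH))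

theorem card_le_of_ZZ (hH : ZZ) : ∀ R : ℕ, BoundTo R := card_le_of_ThreeRk (threeRk_of_ZZ hH)

end FlashRainbow.K2
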