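import Pool.Agent.Work.MP_54723a_co.K.Reduce

/-!
# Skeleton of the two-anchor route to `S08791`  (helper87)

`Anch c V R`: the rainbow paths of `V` which start at the first vertex and those which end at the
last vertex have at most `R` edges.  If every such `3`-flash-free `V` with at least two vertices has
three subsets `W i` with `Anch c (W i) (R - 1)` and `|V| ≤ |W 0| + |W 1| + |W 2|`, then `|V| ≤ 3 ^ R`,
which is the frozen statement.
-/

set_option autoImplicit false

namespace FlashRainbow.K2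

open Classical FlashRainbow

variable {c : ℕ → ℕ → ℕ} {V : Finset ℕ} {R : ℕ} {lev : ℕ → ℕ → ℕ}

/-- both anchored ranks are at most `R` -/
def Anch (c : ℕ → ℕ → ℕ) (V : Finset ℕ) (R : ℕ) : Prop :=
  (∀ x ∈ V, (∀ v ∈ V, x ≤ v) → ∀ D, RS c V x D → D.card ≤ R) ∧
    ∀ z ∈ V, (∀ v ∈ V, v ≤ z) → ∀ D, RP c V z D → D.card ≤ R

theorem anch_of_rk (h : Rk c V R) : Anch c V R :=
  ⟨fun _ _ _ _ hD => K.RS.card_le h hD, fun _ _ _ _ hD => h _ _ hD⟩

theorem card_le_one_of_anch_zero (h : Anch c V 0) : V.card ≤ 1 := by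
  rcases V.eq_empty_or_nonempty with rfl | hne
  · simp
  rw [Finset.card_le_one]
  have hx : V.min' hne ∈ V := V.min'_mem hne
  have hall : ∀ v ∈ V, v = V.min' hne := by
    intro v hv
    by_contra hvx
    have hlt : V.min' hne < v := lt_of_le_of_ne (V.min'_le v hv) fun h => hvx h.symm
    have h1 := h.1 _ hx (fun w hw => V.min'_le w hw) _
      (RS.step (RS.single (c := c) hv) hx hlt (Finset.notMem_empty _))
    simp at h1
  intro a ha b hb
  rw [hall a ha, hall b hb]

/-- the combinatorial claim: three sets with smaller anchored ranks -/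
def Three : Prop :=
  ∀ (c : ℕ → ℕ → ℕ) (lev : ℕ → ℕ → ℕ) (V : Finset ℕ) (R : ℕ), Lev c V 3 lev → 2 ≤ V.card →
    Anch c V (R + 1) → ∃ W : Fin 3 → Finset ℕ, (∀ i, W i ⊆ V ∧ Anch c (W i) R) ∧
      V.card ≤ ∑ i, (W i).card

theorem card_le (h3 : Three) : ∀ (R : ℕ) (c : ℕ → ℕ → ℕ) (lev : ℕ → ℕ → ℕ) (V : Finset ℕ),
    Lev c V 3 lev → Anch c V R → V.card ≤ 3 ^ R := by
  intro R
  induction R with
  | zero =>
    intro c lev V _ hA
    simpa using card_le_one_of_anch_zero hA
  | succ R ih =>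
    intro c lev V hL hA
    by_cases h2 : 2 ≤ V.card
    · obtain ⟨W, hW, hc⟩ := h3 c lev V R hL h2 hA
      calc V.card ≤ ∑ i, (W i).card := hc
        _ ≤ ∑ i : Fin 3, 3 ^ R := Finset.sum_le_sum fun i _ =>
            ih c lev (W i) (hL.mono (hW i).1) (hW i).2
        _ = 3 ^ (R + 1) := by
            rw [Finset.sum_const, Finset.card_univ, Fintype.card_fin, smul_eq_mul, pow_succ]
            ring
    · have : 1 ≤ 3 ^ (R + 1) := Nat.one_le_pow _ _ (by norm_num)
      omega

/-- **Three implies S08791** -/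
theorem s08791_of_three (h3 : Three) :
    ∀ k : ℕ, 1 ≤ k →
      (∃ c : Fin (3 ^ (k - 1)) → Fin (3 ^ (k - 1)) → ℕ,
          (¬ ∃ x : Fin (3 + 1) → Fin (3 ^ (k - 1)), StrictMono x ∧
              ∃ col : ℕ, ∀ i : Fin 3, c (x i.castSucc) (x i.succ) = col) ∧
          (¬ ∃ y : Fin (k + 1) → Fin (3 ^ (k - 1)), StrictMono y ∧
              Function.Injective (fun i : Fin k => c (y i.castSucc) (y i.succ)))) ∧
      (∀ c : Fin (3 ^ (k - 1) + 1) → Fin (3 ^ (k - 1) + 1) → ℕ,
          (∃ x : Fin (3 + 1) → Fin (3 ^ (k - 1) + 1), StrictMono x ∧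
              ∃ col : ℕ, ∀ i : Fin 3, c (x i.castSucc) (x i.succ) = col) ∨
          (∃ y : Fin (k + 1) → Fin (3 ^ (k - 1) + 1), StrictMono y ∧
              Function.Injective (fun i : Fin k => c (y i.castSucc) (y i.succ)))) :=
  K.s08791_of_card fun c lev V R hL hR => card_le h3 R c lev V hL (anch_of_rk hR)

end FlashRainbow.K2
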