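import Pool.Agent.Work.MP_54723a_co.K2.Diag0

/-!
# The front lemma and the reduction (H) => S08791  (paper proof: helper33; Lean: helper12)

`HTwo`: a `3`-flash-free set of rank at most `R + 1` whose first two points `x < y` are twins joined by
a colour `k` which has no `2`-flash has at most `2 * 3 ^ R` points.  `HTwo` implies the frozen
statement: replace the first two points (and the first `k`-neighbour of `y`) by `k`-twins; the tails of
`k` of height `0` have rank at most `R`, the other vertices satisfy the hypothesis of `HTwo`.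
-/

set_option autoImplicit false

namespace FlashRainbow.K2

open Classical FlashRainbow

variable {c : ℕ → ℕ → ℕ} {V U : Finset ℕ} {R k x y w : ℕ} {lev : ℕ → ℕ → ℕ} {γ : ℕ → ℕ}

/-- no monotone path with three edges of one colour -/
def NF (c : ℕ → ℕ → ℕ) (V : Finset ℕ) : Prop :=
  ∀ a ∈ V, ∀ b ∈ V, ∀ d ∈ V, ∀ e ∈ V, a < b → b < d → d < e → c a b = c b d → c b d = c d e → False

theorem nf_of_lev (h : Lev c V 3 lev) : NF c V := by
  intro a ha b hb d hd e he hab hbd hde h1 h2
  have e1 := h.up a ha b hb hab
  have e2 := h.up b hb d hd hbd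
  have e3 := h.up d hd e he hde
  have e4 := h.lt (c d e) e he
  rw [h1, h2] at e1
  rw [h2] at e2
  omega

theorem exists_lev (h : NF c V) : ∃ lev, Lev c V 3 lev := by
  refine ⟨fun q v => if ∃ a ∈ V, a < v ∧ c a v = q ∧ ∃ e ∈ V, e < a ∧ c e a = q then 2 else
    if ∃ a ∈ V, a < v ∧ c a v = q then 1 else 0, ?_, ?_⟩
  · intro q v _
    split_ifs <;> omega
  · intro u hu v hv huv
    have h0 : ¬ ∃ a ∈ V, a < u ∧ c a u = c u v ∧ ∃ e ∈ V, e < a ∧ c e a = c u v := by
      rintro ⟨a, ha, hau, h1, e, he, hea, h2⟩
      exact h e he a ha u hu v hv hea hau huv (h2.trans h1.symm) h1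
    have h1 : ∃ a ∈ V, a < v ∧ c a v = c u v := ⟨u, hu, huv, rfl⟩
    rw [if_neg h0]
    by_cases h2 : ∃ a ∈ V, a < u ∧ c a u = c u v
    · rw [if_pos h2]
      obtain ⟨a, ha, hau, h3⟩ := h2
      rw [if_pos ⟨u, hu, huv, rfl, a, ha, hau, h3⟩]
      omega
    · rw [if_neg h2, if_pos h1]
      split_ifs <;> omega

/-- from the end to the start of a path -/
theorem RP.toRS {D : Finset ℕ} {z : ℕ} (h : RP c V z D) :
    ∀ E, RS c V z E → Disjoint D E → ∃ s, RS c V s (D ∪ E) := by
  induction h with
  | @single z hz =>
    intro E hE _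
    exact ⟨z, by simpa using hE⟩
  | @step a b D h hb hlt hc ih =>
    intro E hE hdis
    rw [Finset.disjoint_insert_left] at hdis
    obtain ⟨s, hs⟩ := ih _ (RS.step hE h.mem hlt hdis.1) (by
      rw [Finset.disjoint_insert_right]
      exact ⟨hc, hdis.2⟩)
    refine ⟨s, ?_⟩
    rw [Finset.union_insert] at hs
    rw [Finset.insert_union]
    exact hs

theorem rk_of_rs (h : ∀ s D, RS c V s D → D.card ≤ R) : Rk c V R := by
  intro z D hD
  obtain ⟨s, hs⟩ := RP.toRS hD ∅ (RS.single hD.mem) (Finset.disjoint_empty_right _)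
  rw [Finset.union_empty] at hs
  exact h s D hs

/-- the new colouring: `x`, `y` are twins joined by `k`, with the labels `γ` -/
def twin (c : ℕ → ℕ → ℕ) (x y k : ℕ) (γ : ℕ → ℕ) : ℕ → ℕ → ℕ := fun a b =>
  if a = x ∨ a = y then (if b = y then k else γ b) else c a b

/-- the two-level claim (H): the first two points are twins joined by a colour without 2-flash -/
def HTwo : Prop :=
  ∀ (c : ℕ → ℕ → ℕ) (lev : ℕ → ℕ → ℕ) (V : Finset ℕ) (R x y : ℕ), Lev c V 3 lev → Rk c V (R + 1) →
    x ∈ V → y ∈ V → x < y → (∀ v ∈ V, v ≠ x → v ≠ y → y < v) →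
    (∀ v ∈ V, y < v → c x v = c y v ∧ c y v ≠ c x y) →
    (∀ a ∈ V, ∀ b ∈ V, ∀ d ∈ V, a < b → b < d → c a b = c x y → c b d ≠ c x y) →
    (∀ (c' : ℕ → ℕ → ℕ) (lev' : ℕ → ℕ → ℕ) (V' : Finset ℕ), ∀ r ≤ R, Lev c' V' 3 lev' → Rk c' V' r →
      V'.card ≤ 3 ^ r) → V.card ≤ 2 * 3 ^ R

/-- data of the front lemma -/
structure Front (c : ℕ → ℕ → ℕ) (V U : Finset ℕ) (x y k w : ℕ) : Prop where
  hx : x ∈ V
  hy : y ∈ V
  hxy : x < y
  hk : c x y = k
  sub : U ⊆ V
  lt : ∀ v ∈ U, y < v
  hw : ∀ v ∈ U, c y v = k → w ∈ V ∧ y < w ∧ c y w = k ∧ w < v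

/-- the labels -/
def lab (c : ℕ → ℕ → ℕ) (y k w : ℕ) : ℕ → ℕ := fun v => if c y v = k then c w v else c y v

section

variable (hF : Front c V U x y k w) (hN : NF c V)

include hF hN in
theorem lab_ne {v : ℕ} (hv : v ∈ U) : lab c y k w v ≠ k := by
  unfold lab
  split_ifs with h
  · obtain ⟨h1, h2, h3, h4⟩ := hF.hw v hv h
    intro h5
    exact hN x hF.hx y hF.hy w h1 v (hF.sub hv) hF.hxy h2 h4 (hF.hk.trans h3.symm)
      (h3.trans h5.symm)
  · exact h

include hF hN in
theorem key {v : ℕ} (hR : Rk c V R) (hv : v ∈ U) {D : Finset ℕ} (hD : RS c V v D)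
    (hl : lab c y k w v ∉ D) : (insert k (insert (lab c y k w v) D)).card ≤ R := by
  have hne := lab_ne hF hN hv
  by_cases hkD : k ∈ D
  · rw [Finset.insert_eq_of_mem (Finset.mem_insert_of_mem hkD)]
    unfold lab at hl ⊢
    split_ifs at hl ⊢ with h
    · obtain ⟨h1, h2, h3, h4⟩ := hF.hw v hv h
      exact K.RS.card_le hR (RS.step hD h1 h4 hl)
    · exact K.RS.card_le hR (RS.step hD hF.hy (hF.lt v hv) hl)
  · unfold lab at hl hne ⊢
    split_ifs at hl hne ⊢ with h
    · obtain ⟨h1, h2, h3, h4⟩ := hF.hw v hv h
      have e1 := RS.step hD h1 h4 hl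
      have e2 := RS.step e1 hF.hy h2 (by
        rw [h3, Finset.mem_insert, not_or]
        exact ⟨fun h => hne h.symm, hkD⟩)
      rw [h3] at e2
      exact K.RS.card_le hR e2
    · have e1 := RS.step hD hF.hy (hF.lt v hv) hl
      have e2 := RS.step e1 hF.hx hF.hxy (by
        rw [hF.hk, Finset.mem_insert, not_or]
        exact ⟨fun h => hne h.symm, hkD⟩)
      rw [hF.hk] at e2
      exact K.RS.card_le hR e2

include hF in
theorem twin_eq {a b : ℕ} (ha : a ∈ U) : twin c x y k γ a b = c a b := by
  have := hF.lt a ha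
  have := hF.hxy
  unfold twin
  rw [if_neg]
  rintro (h | h) <;> omega

include hF in
theorem twin_x {b : ℕ} (hb : b ∈ U) : twin c x y k γ x b = γ b := by
  have := hF.lt b hb
  unfold twin
  rw [if_pos (Or.inl rfl), if_neg (by omega)]

include hF in
theorem twin_y {b : ℕ} (hb : b ∈ U) : twin c x y k γ y b = γ b := by
  have := hF.lt b hb
  unfold twin
  rw [if_pos (Or.inr rfl), if_neg (by omega)]

theorem twin_xy : twin c x y k γ x y = k := by
  unfold twin
  rw [if_pos (Or.inl rfl), if_pos rfl]

include hF in
/-- paths of the new set which start in `U` are old paths of `U` -/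
theorem rs_old {T : Finset ℕ} (hT : T ⊆ insert x (insert y U)) {v : ℕ} {D : Finset ℕ}
    (h : RS (twin c x y k γ) T v D) : v ∈ U → RS c (T ∩ U) v D := by
  induction h with
  | @single v hv =>
    intro hvU
    exact RS.single (Finset.mem_inter.mpr ⟨hv, hvU⟩)
  | @step a b D h ha hlt hc ih =>
    intro haU
    have h1 := hF.lt a haU
    have h2 := hF.hxy
    have hbU : b ∈ U := by
      rcases Finset.mem_insert.mp (hT h.mem) with rfl | h3
      · omega
      · rcases Finset.mem_insert.mp h3 with rfl | h3
        · omega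
        · exact h3
    rw [twin_eq hF haU] at hc ⊢
    exact RS.step (ih hbU) (Finset.mem_inter.mpr ⟨ha, haU⟩) hlt hc

include hF hN in
theorem nf_twin : NF (twin c x y k (lab c y k w)) (insert x (insert y U)) := by
  have hmem : ∀ v ∈ insert x (insert y U), v = x ∨ v = y ∨ v ∈ U := by
    intro v hv
    simpa using hv
  have hxy := hF.hxy
  -- a path from the block into `U`
  have hblock : ∀ b ∈ U, ∀ d ∈ U, ∀ e ∈ U, b < d → d < e → lab c y k w b = c b d → c b d = c d e →
      False := by
    intro b hb d hd e he hbd hde h1 h2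
    unfold lab at h1
    split_ifs at h1 with h
    · obtain ⟨h3, h4, h5, h6⟩ := hF.hw b hb h
      exact hN w h3 b (hF.sub hb) d (hF.sub hd) e (hF.sub he) h6 hbd hde h1 h2
    · exact hN y hF.hy b (hF.sub hb) d (hF.sub hd) e (hF.sub he) (hF.lt b hb) hbd hde h1 h2
  intro a ha b hb d hd e he hab hbd hde h1 h2
  have hdU : d ∈ U := by
    rcases hmem d hd with rfl | rfl | h
    · rcases hmem b hb with rfl | rfl | h
      · omega
      · omega
      · have := hF.lt b h; omega
    · rcases hmem b hb with rfl | rfl | h
      · rcases hmem a ha with rfl | rfl | h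
        · omega
        · omega
        · have := hF.lt a h; omega
      · omega
      · have := hF.lt b h; omega
    · exact h
  have heU : e ∈ U := by
    have := hF.lt d hdU
    rcases hmem e he with rfl | rfl | h
    · omega
    · omega
    · exact h
  rcases hmem b hb with rfl | rfl | hbU
  · rcases hmem a ha with rfl | rfl | h
    · omega
    · omega
    · have := hF.lt a h; omega
  · -- `b = y`, so `a = x`
    rcases hmem a ha with rfl | rfl | h
    · rw [twin_xy, twin_y hF hdU] at h1
      exact lab_ne hF hN hdU h1.symm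
    · omega
    · have := hF.lt a h; omega
  · rw [twin_eq hF hbU] at h1 h2
    rw [twin_eq hF hdU] at h2
    rcases hmem a ha with rfl | rfl | haU
    · rw [twin_x hF hbU] at h1
      exact hblock b hbU d hdU e heU hbd hde h1 h2
    · rw [twin_y hF hbU] at h1
      exact hblock b hbU d hdU e heU hbd hde h1 h2
    · rw [twin_eq hF haU] at h1
      exact hN a (hF.sub haU) b (hF.sub hbU) d (hF.sub hdU) e (hF.sub heU) hab hbd hde h1 h2

include hF hN in
/-- the new set has rank at most `R` -/
theorem rk_twin (hR : Rk c V R) (hR1 : 1 ≤ R) :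
    Rk (twin c x y k (lab c y k w)) (insert x (insert y U)) R := by
  set C := twin c x y k (lab c y k w) with hC
  have hxy := hF.hxy
  have hU : ∀ v ∈ U, ∀ D, RS C (insert x (insert y U)) v D → RS c V v D := by
    intro v hv D hD
    exact RS.mono (rs_old hF (Finset.Subset.refl _) hD hv)
      (Finset.inter_subset_right.trans hF.sub)
  -- paths which start at `y`
  have hyy : ∀ D, RS C (insert x (insert y U)) y D → (insert k D).card ≤ R := by
    intro D hD
    cases hD with
    | single _ => simpa using hR1
    | @step _ b D hD _ hlt hc =>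
      have hbU : b ∈ U := by
        rcases Finset.mem_insert.mp hD.mem with h | h
        · omega
        · rcases Finset.mem_insert.mp h with h | h
          · omega
          · exact h
      rw [hC, twin_y hF hbU] at hc ⊢
      exact key hF hN hR hbU (hU b hbU D hD) hc
  apply rk_of_rs
  intro s D hD
  rcases Finset.mem_insert.mp hD.mem with h | h
  · -- start `x`
    cases hD with
    | single _ => simp
    | @step _ b D hD _ hlt hc =>
      rcases Finset.mem_insert.mp hD.mem with h' | h'
      · omega
      · rcases Finset.mem_insert.mp h' with h' | hbU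
        · rw [h, h'] at hc ⊢
          rw [hC, twin_xy]
          rw [h'] at hD
          exact hyy D hD
        · rw [h, hC, twin_x hF hbU] at hc ⊢
          exact (Finset.card_le_card (Finset.subset_insert _ _)).trans
            (key hF hN hR hbU (hU b hbU D hD) hc)
  · rcases Finset.mem_insert.mp h with h | h
    · rw [h] at hD
      exact (Finset.card_le_card (Finset.subset_insert _ _)).trans (hyy D hD)
    · exact K.RS.card_le hR (hU s h D hD)

include hF hN in
/-- the block with one point and `k`-free tails has rank at most `R` -/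
theorem rk_tails (hR : Rk c V (R + 1)) {T : Finset ℕ} (hTU : T ⊆ U)
    (hfree : ∀ u ∈ T, ∀ v ∈ T, u < v → c u v ≠ k)
    (hout : ∀ u ∈ T, ∃ v ∈ V, u < v ∧ c u v = k) :
    Rk (twin c x y k (lab c y k w)) (insert y T) R := by
  set C := twin c x y k (lab c y k w) with hC
  have hsub : insert y T ⊆ insert x (insert y U) := by
    intro v hv
    rcases Finset.mem_insert.mp hv with rfl | h
    · simp
    · simp [hTU h]
  have hxy := hF.hxy
  have hinter : insert y T ∩ U ⊆ T := by
    intro v hv
    obtain ⟨h1, h2⟩ := Finset.mem_inter.mp hv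
    rcases Finset.mem_insert.mp h1 with rfl | h
    · exact absurd (hF.lt _ h2) (lt_irrefl _)
    · exact h
  have hT : ∀ v ∈ T, ∀ D, RS C (insert y T) v D → RS c T v D := by
    intro v hv D hD
    exact RS.mono (rs_old hF hsub hD (hTU hv)) hinter
  have hkD : ∀ v D, RS c T v D → k ∉ D := by
    intro v D hD
    obtain ⟨z, hz⟩ := hD.join (Finset.Subset.refl T) ∅ (RP.single hD.mem)
      (Finset.disjoint_empty_right _)
    rw [Finset.empty_union] at hz
    exact hz.notMem_of_free hfree
  apply rk_of_rs
  intro s D hD
  rcases Finset.mem_insert.mp hD.mem with h | h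
  · cases hD with
    | single _ => simp
    | @step _ b D hD _ hlt hc =>
      have hbT : b ∈ T := by
        rcases Finset.mem_insert.mp hD.mem with h' | h'
        · omega
        · exact h'
      have hbU := hTU hbT
      have h1 := hT b hbT D hD
      have h2 := hkD b D h1
      rw [h, hC, twin_y hF hbU] at hc ⊢
      have h3 := key hF hN hR hbU (RS.mono h1 (hTU.trans hF.sub)) hc
      rw [Finset.card_insert_of_notMem] at h3
      · omega
      · rw [Finset.mem_insert, not_or]
        exact ⟨fun h => lab_ne hF hN hbU h.symm, h2⟩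
  · have h1 := hT s h D hD
    have h2 := hkD s D h1
    obtain ⟨z, hz⟩ := h1.join (Finset.Subset.refl T) ∅ (RP.single h1.mem)
      (Finset.disjoint_empty_right _)
    rw [Finset.empty_union] at hz
    obtain ⟨v, hv, hzv, hcv⟩ := hout z hz.mem
    have h3 := hR v _ (RP.step (hz.mono (hTU.trans hF.sub)) hv hzv (by rw [hcv]; exact h2))
    rw [hcv, Finset.card_insert_of_notMem h2] at h3
    omega

end

/-- the induction step -/
theorem step_of_HTwo (hH : HTwo)
    (ih : ∀ (c' : ℕ → ℕ → ℕ) (lev' : ℕ → ℕ → ℕ) (V' : Finset ℕ), ∀ r ≤ R, Lev c' V' 3 lev' →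
      Rk c' V' r → V'.card ≤ 3 ^ r)
    (hF : Front c V U x y k w) (hN : NF c V) (hR : Rk c V (R + 1)) :
    U.card + 3 ≤ 3 ^ (R + 1) := by
  set C := twin c x y k (lab c y k w) with hC
  set T := U.filter (fun v => (∃ u ∈ U, v < u ∧ c v u = k) ∧ ¬ ∃ u ∈ U, u < v ∧ c u v = k) with hT
  have hTU : T ⊆ U := Finset.filter_subset _ _
  have hxy := hF.hxy
  -- the tails
  have h1 : T.card + 1 ≤ 3 ^ R := by
    have hrk := rk_tails hF hN hR hTU (by
      intro u hu v hv huv hc
      exact (Finset.mem_filter.mp hv).2.2 ⟨u, hTU hu, huv, hc⟩) (by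
      intro u hu
      obtain ⟨v, hv, h2, h3⟩ := (Finset.mem_filter.mp hu).2.1
      exact ⟨v, hF.sub hv, h2, h3⟩)
    have hnf : NF C (insert y T) := by
      have h := nf_twin hF hN
      intro a ha b hb d hd e he
      have hs : insert y T ⊆ insert x (insert y U) := by
        intro v hv
        rcases Finset.mem_insert.mp hv with rfl | h
        · simp
        · simp [hTU h]
      exact h a (hs ha) b (hs hb) d (hs hd) e (hs he)
    obtain ⟨lev', hlev'⟩ := exists_lev hnf
    have h := ih C lev' (insert y T) R (le_refl R) hlev' hrk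
    rw [Finset.card_insert_of_notMem (fun h => absurd (hF.lt _ (hTU h)) (lt_irrefl _))] at h
    exact h
  -- the rest
  have h2 : (U \ T).card + 2 ≤ 2 * 3 ^ R := by
    have hs : insert x (insert y (U \ T)) ⊆ insert x (insert y U) :=
      Finset.insert_subset_insert _ (Finset.insert_subset_insert _ Finset.sdiff_subset)
    have hnf : NF C (insert x (insert y (U \ T))) := by
      have h := nf_twin hF hN
      intro a ha b hb d hd e he
      exact h a (hs ha) b (hs hb) d (hs hd) e (hs he)
    have hrk : Rk C (insert x (insert y (U \ T))) (R + 1) := by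
      intro z D hD
      exact rk_twin hF hN hR (by omega) z D (hD.mono hs)
    obtain ⟨lev', hlev'⟩ := exists_lev hnf
    have hmem : ∀ v ∈ insert x (insert y (U \ T)), v = x ∨ v = y ∨ v ∈ U \ T := by
      intro v hv
      simpa only [Finset.mem_insert] using hv
    have h := hH C lev' (insert x (insert y (U \ T))) R x y hlev' hrk (by simp) (by simp) hxy
      (by
        intro v hv h1 h2
        rcases hmem v hv with h | h | h
        · exact absurd h h1
        · exact absurd h h2
        · exact hF.lt v (Finset.mem_sdiff.mp h).1)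
      (by
        intro v hv hyv
        rcases hmem v hv with h | h | h
        · omega
        · omega
        · have hvU := (Finset.mem_sdiff.mp h).1
          rw [hC, twin_x hF hvU, twin_y hF hvU, twin_xy]
          exact ⟨rfl, lab_ne hF hN hvU⟩)
      (by
        rw [hC, twin_xy]
        intro a ha b hb d hd hab hbd h1 h2
        rcases hmem b hb with hb' | hb' | hb'
        · rcases hmem a ha with h | h | h
          · omega
          · omega
          · have := hF.lt a (Finset.mem_sdiff.mp h).1; omega
        · rcases hmem d hd with h | h | h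
          · omega
          · omega
          · rw [hb', twin_y hF (Finset.mem_sdiff.mp h).1] at h2
            exact lab_ne hF hN (Finset.mem_sdiff.mp h).1 h2
        · have hbU := (Finset.mem_sdiff.mp hb').1
          rcases hmem a ha with h | h | h
          · rw [h, twin_x hF hbU] at h1
            exact lab_ne hF hN hbU h1
          · rw [h, twin_y hF hbU] at h1
            exact lab_ne hF hN hbU h1
          · obtain ⟨haU, haT⟩ := Finset.mem_sdiff.mp h
            have hdU : d ∈ U := by
              have := hF.lt b hbU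
              rcases hmem d hd with h | h | h
              · omega
              · omega
              · exact (Finset.mem_sdiff.mp h).1
            rw [twin_eq hF haU] at h1
            rw [twin_eq hF hbU] at h2
            have h3 : ∃ u ∈ U, u < a ∧ c u a = k := by
              by_contra hcon
              exact haT (Finset.mem_filter.mpr ⟨haU, ⟨b, hbU, hab, h1⟩, hcon⟩)
            obtain ⟨u, hu, hua, hcu⟩ := h3
            exact hN u (hF.sub hu) a (hF.sub haU) b (hF.sub hbU) d (hF.sub hdU) hua hab hbd
              (hcu.trans h1.symm) (h1.trans h2.symm))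
      ih
    rw [Finset.card_insert_of_notMem, Finset.card_insert_of_notMem] at h
    · exact h
    · intro h
      exact absurd (hF.lt _ (Finset.mem_sdiff.mp h).1) (lt_irrefl _)
    · intro h
      rcases Finset.mem_insert.mp h with h | h
      · omega
      · have := hF.lt _ (Finset.mem_sdiff.mp h).1
        omega
  have h3 := Finset.card_sdiff_add_card_eq_card hTU
  rw [pow_succ]
  omega

/-- (H) implies the bound -/
theorem card_le_of_HTwo (hH : HTwo) : ∀ (R r : ℕ), r ≤ R → ∀ (c : ℕ → ℕ → ℕ) (lev : ℕ → ℕ → ℕ)
    (V : Finset ℕ), Lev c V 3 lev → Rk c V r → V.card ≤ 3 ^ r := by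
  intro R
  induction R with
  | zero =>
    intro r hr c lev V _ hR
    obtain rfl : r = 0 := by omega
    simpa using card_le_one_of_anch_zero (anch_of_rk hR)
  | succ R ih =>
    intro r hr c lev V hL hR
    rcases Nat.lt_or_ge r (R + 1) with h | h
    · exact ih r (by omega) c lev V hL hR
    obtain rfl : r = R + 1 := by omega
    have hN := nf_of_lev hL
    by_cases h2 : 2 ≤ V.card
    · -- the first two points
      have hne : V.Nonempty := Finset.card_pos.mp (by omega)
      set x := V.min' hne with hx
      have hxV : x ∈ V := V.min'_mem hne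
      have hne2 : (V.erase x).Nonempty := by
        apply Finset.card_pos.mp
        rw [Finset.card_erase_of_mem hxV]
        omega
      set y := (V.erase x).min' hne2 with hy
      have hyE : y ∈ V.erase x := (V.erase x).min'_mem hne2
      have hyV : y ∈ V := Finset.mem_of_mem_erase hyE
      have hxy : x < y := lt_of_le_of_ne (V.min'_le y hyV) (Finset.ne_of_mem_erase hyE).symm
      have hmin : ∀ v ∈ V, v ≠ x → v ≠ y → y < v := fun v hv h1 h2 =>
        lt_of_le_of_ne ((V.erase x).min'_le v (Finset.mem_erase.mpr ⟨h1, hv⟩)) (Ne.symm h2)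
      by_cases hY : (V.filter (fun v => y < v ∧ c y v = c x y)).Nonempty
      · set w := (V.filter (fun v => y < v ∧ c y v = c x y)).min' hY with hw
        have hwm := (V.filter (fun v => y < v ∧ c y v = c x y)).min'_mem hY
        rw [← hw] at hwm
        obtain ⟨hwV, hyw, hcw⟩ := Finset.mem_filter.mp hwm
        have hF : Front c V (((V.erase x).erase y).erase w) x y (c x y) w := by
          refine ⟨hxV, hyV, hxy, rfl, ?_, ?_, ?_⟩
          · intro v hv
            exact Finset.mem_of_mem_erase (Finset.mem_of_mem_erase (Finset.mem_of_mem_erase hv))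
          · intro v hv
            obtain ⟨_, hv⟩ := Finset.mem_erase.mp hv
            obtain ⟨h1, hv⟩ := Finset.mem_erase.mp hv
            obtain ⟨h2, hv⟩ := Finset.mem_erase.mp hv
            exact hmin v hv h2 h1
          · intro v hv hc
            obtain ⟨h0, hv⟩ := Finset.mem_erase.mp hv
            obtain ⟨h1, hv⟩ := Finset.mem_erase.mp hv
            obtain ⟨h2, hv⟩ := Finset.mem_erase.mp hv
            refine ⟨hwV, hyw, hcw, ?_⟩
            exact lt_of_le_of_ne ((V.filter (fun v => y < v ∧ c y v = c x y)).min'_le v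
              (Finset.mem_filter.mpr ⟨hv, hmin v hv h2 h1, hc⟩)) (Ne.symm h0)
        have h := step_of_HTwo hH (fun c' lev' V' r hr h1 h2 => ih r hr c' lev' V' h1 h2) hF hN hR
        have e1 : (((V.erase x).erase y).erase w).card + 3 = V.card := by
          have hwy : w ∈ (V.erase x).erase y := by
            refine Finset.mem_erase.mpr ⟨by omega, Finset.mem_erase.mpr ⟨by omega, hwV⟩⟩
          have a1 := Finset.card_erase_add_one hwy
          have a2 := Finset.card_erase_add_one hyE
          have a3 := Finset.card_erase_add_one hxV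
          omega
        omega
      · have hF : Front c V ((V.erase x).erase y) x y (c x y) y := by
          refine ⟨hxV, hyV, hxy, rfl, ?_, ?_, ?_⟩
          · intro v hv
            exact Finset.mem_of_mem_erase (Finset.mem_of_mem_erase hv)
          · intro v hv
            obtain ⟨h1, hv⟩ := Finset.mem_erase.mp hv
            obtain ⟨h2, hv⟩ := Finset.mem_erase.mp hv
            exact hmin v hv h2 h1
          · intro v hv hc
            obtain ⟨h1, hv⟩ := Finset.mem_erase.mp hv
            obtain ⟨h2, hv⟩ := Finset.mem_erase.mp hv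
            exact absurd ⟨v, Finset.mem_filter.mpr ⟨hv, hmin v hv h2 h1, hc⟩⟩ hY
        have h := step_of_HTwo hH (fun c' lev' V' r hr h1 h2 => ih r hr c' lev' V' h1 h2) hF hN hR
        have a2 := Finset.card_erase_add_one hyE
        have a3 := Finset.card_erase_add_one hxV
        omega
    · have : 1 ≤ 3 ^ (R + 1) := Nat.one_le_pow _ _ (by norm_num)
      omega

/-- **(H) implies S08791** -/
theorem s08791_of_HTwo (hH : HTwo) :
    ∀ k : ℕ, 1 ≤ k →
      (∃ c : Fin (3 ^ (k - 1)) → Fin (3 ^ (k - 1)) → ℕ,
          (¬ ∃ x : Fin (3 + 1) → Fin (3 ^ (k - 1)), StrictMono x ∧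
              ∃ col : ℕ, ∀ i : Fin 3, c (x i.castSucc) (x i.succ) = col) ∧
          (¬ ∃ y : Fin (k + 1) → Fin (3 ^ (k - 1)), StrictMono y ∧
              Function.Injective (fun i : Fin k => c (y i.castSucc) (y i.succ)))) ∧
      (∀ c : Fin (3 ^ (k - 1) + 1) → Fin (3 ^ (k - 1) + 1) → ℕ,
          (∃ x : Fin (3 + 1) → Fin (3 ^ (k - 1) + 1), StrictMono x ∧
              ∃ col : ℕ, ∀ i : Fin 3, c (x i.castSucc) (x i.succ) = col) ∨
          (∃ y : Fin (k + 1) → Fin (3 ^ (k - 1) + 1), StrictMono y ∧
              Function.Injective (fun i : Fin k => c (y i.castSucc) (y i.succ)))) :=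
  K.s08791_of_card fun c lev V R hL hR => card_le_of_HTwo hH R R (le_refl R) c lev V hL hR

end FlashRainbow.K2
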