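import Pool.Agent.Work.MP_54723a_co.K2.Lab2

/-!
# (FULLCOL) => S08791  (paper proof: helper53, helper41; Lean: helper12)

`FullCol`: a `3`-flash-free set of rank at most `R + 1` with exactly `3 ^ (R + 1)` points has a colour
which touches every vertex.  It implies the frozen statement by deleting points.
-/

set_option autoImplicit false

namespace FlashRainbow.K2

open Classical FlashRainbow FlashRainbow.K

variable {c : ℕ → ℕ → ℕ} {V U T : Finset ℕ} {r R k : ℕ} {lev : ℕ → ℕ → ℕ}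

/-- the colour `k` touches every vertex of `V` -/
def Full (c : ℕ → ℕ → ℕ) (V : Finset ℕ) (k : ℕ) : Prop :=
  ∀ v ∈ V, ∃ w ∈ V, (v < w ∧ c v w = k) ∨ (w < v ∧ c w v = k)

/-- the colour of the pair `{a, b}` -/
def col (c : ℕ → ℕ → ℕ) (a b : ℕ) : ℕ := if a < b then c a b else c b a

/-- the bound for the ranks up to `R` -/
def BoundTo (R : ℕ) : Prop :=
  ∀ (c' : ℕ → ℕ → ℕ) (lev' : ℕ → ℕ → ℕ) (V' : Finset ℕ), ∀ r ≤ R, Lev c' V' 3 lev' → Rk c' V' r →
    V'.card ≤ 3 ^ r

/-- every tight set has a full colour -/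
def FullCol : Prop :=
  ∀ (c : ℕ → ℕ → ℕ) (lev : ℕ → ℕ → ℕ) (V : Finset ℕ) (R : ℕ), Lev c V 3 lev → Rk c V (R + 1) →
    V.card = 3 ^ (R + 1) → BoundTo R → ∃ k, Full c V k

/-- the three out-levels of a colour -/
noncomputable def L2 (c : ℕ → ℕ → ℕ) (V : Finset ℕ) (k : ℕ) : Finset ℕ :=
  V.filter (fun v => ∃ w ∈ V, v < w ∧ c v w = k ∧ OutCol c V w k)

noncomputable def L1 (c : ℕ → ℕ → ℕ) (V : Finset ℕ) (k : ℕ) : Finset ℕ :=
  V.filter (fun v => OutCol c V v k ∧ ¬ ∃ w ∈ V, v < w ∧ c v w = k ∧ OutCol c V w k)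

noncomputable def L0 (c : ℕ → ℕ → ℕ) (V : Finset ℕ) (k : ℕ) : Finset ℕ :=
  V.filter (fun v => ¬ OutCol c V v k)

theorem card_levels : (L2 c V k).card + (L1 c V k).card + (L0 c V k).card = V.card := by
  have h1 := Finset.card_filter_add_card_filter_not (s := V) (fun v => OutCol c V v k)
  have h2 := Finset.card_filter_add_card_filter_not (s := V.filter (fun v => OutCol c V v k))
    (fun v => ∃ w ∈ V, v < w ∧ c v w = k ∧ OutCol c V w k)
  have h3 : (V.filter (fun v => OutCol c V v k)).filter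
      (fun v => ∃ w ∈ V, v < w ∧ c v w = k ∧ OutCol c V w k) = L2 c V k := by
    ext v
    simp only [L2, Finset.mem_filter]
    constructor
    · rintro ⟨⟨h, _⟩, h'⟩
      exact ⟨h, h'⟩
    · rintro ⟨h, w, hw, h1, h2, h3⟩
      exact ⟨⟨h, w, hw, h1, h2⟩, w, hw, h1, h2, h3⟩
  have h4 : (V.filter (fun v => OutCol c V v k)).filter
      (fun v => ¬ ∃ w ∈ V, v < w ∧ c v w = k ∧ OutCol c V w k) = L1 c V k := by
    ext v
    simp only [L1, Finset.mem_filter, and_assoc]
  rw [h3, h4] at h2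
  have h5 : (V.filter (fun v => ¬ OutCol c V v k)).card = (L0 c V k).card := rfl
  omega

theorem free_L2 (hN : NF c V) : ∀ u ∈ L2 c V k, ∀ v ∈ L2 c V k, u < v → c u v ≠ k := by
  intro u hu v hv huv hc
  obtain ⟨hvV, w, hw, hvw, hcw, w', hw', hww', hcw'⟩ := Finset.mem_filter.mp hv
  exact hN u (Finset.mem_filter.mp hu).1 v hvV w hw w' hw' huv hvw hww' (hc.trans hcw.symm)
    (hcw.trans hcw'.symm)

theorem free_L1 : ∀ u ∈ L1 c V k, ∀ v ∈ L1 c V k, u < v → c u v ≠ k := by
  intro u hu v hv huv hc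
  exact (Finset.mem_filter.mp hu).2.2
    ⟨v, (Finset.mem_filter.mp hv).1, huv, hc, (Finset.mem_filter.mp hv).2.1⟩

theorem free_L0 : ∀ u ∈ L0 c V k, ∀ v ∈ L0 c V k, u < v → c u v ≠ k := by
  intro u hu v hv huv hc
  exact (Finset.mem_filter.mp hu).2 ⟨v, (Finset.mem_filter.mp hv).1, huv, hc⟩

/-- `k`-free sets of tails have smaller rank -/
theorem rk_of_tails (hR : Rk c V (R + 1)) (hT : T ⊆ V) (hout : ∀ t ∈ T, OutCol c V t k)
    (hfree : ∀ u ∈ T, ∀ v ∈ T, u < v → c u v ≠ k) : Rk c T R := by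
  intro y D hD
  have hk := hD.notMem_of_free hfree
  obtain ⟨w, hw, h1, h2⟩ := hout y hD.mem
  have h3 := hR w _ (RP.step (hD.mono hT) hw h1 (by rw [h2]; exact hk))
  rw [h2, Finset.card_insert_of_notMem hk] at h3
  omega

/-- `k`-free sets of heads have smaller rank -/
theorem rk_of_heads (hR : Rk c V (R + 1)) (hT : T ⊆ V)
    (hin : ∀ t ∈ T, ∃ w ∈ V, w < t ∧ c w t = k)
    (hfree : ∀ u ∈ T, ∀ v ∈ T, u < v → c u v ≠ k) : Rk c T R := by
  intro y D hD
  have hk := hD.notMem_of_free hfree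
  have h1 := hD.prepend (E := {k}) hT (by
    intro v hv
    obtain ⟨w, hw, h1, h2⟩ := hin v hv
    have h3 := RP.step (c := c) (RP.single hw) (hT hv) h1 (Finset.notMem_empty _)
    rw [h2] at h3
    exact h3) (by
    intro q hq u hu v hv huv
    rw [Finset.mem_singleton.mp hq]
    exact hfree u hu v hv huv)
  have h2 := hR y _ h1
  rw [Finset.union_comm, ← Finset.insert_eq, Finset.card_insert_of_notMem hk] at h2
  omega

theorem levels_le (hL : Lev c V 3 lev) (hR : Rk c V (R + 1)) (hB : BoundTo R) (hF : Full c V k) :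
    (L2 c V k).card ≤ 3 ^ R ∧ (L1 c V k).card ≤ 3 ^ R ∧ (L0 c V k).card ≤ 3 ^ R := by
  have hN := nf_of_lev hL
  have s2 : L2 c V k ⊆ V := Finset.filter_subset _ _
  have s1 : L1 c V k ⊆ V := Finset.filter_subset _ _
  have s0 : L0 c V k ⊆ V := Finset.filter_subset _ _
  refine ⟨hB c lev _ R (le_refl R) (hL.mono s2) (rk_of_tails hR s2 ?_ (free_L2 hN)),
    hB c lev _ R (le_refl R) (hL.mono s1) (rk_of_tails hR s1 ?_ free_L1),
    hB c lev _ R (le_refl R) (hL.mono s0) (rk_of_heads hR s0 ?_ free_L0)⟩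
  · intro t ht
    obtain ⟨_, w, hw, h1, h2, _⟩ := Finset.mem_filter.mp ht
    exact ⟨w, hw, h1, h2⟩
  · intro t ht
    exact (Finset.mem_filter.mp ht).2.1
  · intro t ht
    obtain ⟨htV, ht'⟩ := Finset.mem_filter.mp ht
    obtain ⟨w, hw, h | h⟩ := hF t htV
    · exact absurd ⟨w, hw, h.1, h.2⟩ ht'
    · exact ⟨w, hw, h⟩

theorem step_of_FullCol (hH : FullCol) (hB : BoundTo R) (hL : Lev c V 3 lev)
    (hR : Rk c V (R + 1)) : V.card ≤ 3 ^ (R + 1) := by
  by_contra hcon
  obtain ⟨W, hWV, hW⟩ := Finset.exists_subset_card_eq (s := V) (n := 3 ^ (R + 1) + 1) (by omega)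
  have hLW := hL.mono hWV
  have hRW : Rk c W (R + 1) := fun y D hD => hR y D (hD.mono hWV)
  have hex : ∀ v ∈ W, ∃ k, Full c (W.erase v) k := by
    intro v hv
    refine hH c lev (W.erase v) R (hLW.mono (Finset.erase_subset _ _))
      (fun y D hD => hRW y D (hD.mono (Finset.erase_subset _ _))) ?_ hB
    rw [Finset.card_erase_of_mem hv]
    omega
  choose! κ hκ using hex
  by_cases hinj : ∀ v ∈ W, ∀ w ∈ W, κ v = κ w → v = w
  · -- all colours different: the colouring is proper
    have hpos : 0 < 3 ^ (R + 1) := Nat.pos_of_ne_zero (by positivity)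
    obtain ⟨v, hv⟩ : W.Nonempty := Finset.card_pos.mp (by omega)
    have hsub : W.erase v ⊆ W := Finset.erase_subset _ _
    obtain ⟨l2, l1, l0⟩ := levels_le (hLW.mono hsub)
      (fun y D hD => hRW y D (hD.mono hsub)) hB (hκ v hv)
    have hsum := card_levels (c := c) (V := W.erase v) (k := κ v)
    rw [Finset.card_erase_of_mem hv, hW, pow_succ] at hsum
    have hp : 0 < 3 ^ R := Nat.pos_of_ne_zero (by positivity)
    have h2 : (L2 c (W.erase v) (κ v)).Nonempty := Finset.card_pos.mp (by omega)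
    obtain ⟨a, ha⟩ := h2
    obtain ⟨haW, b, hbW, hab, hcab, d, hdW, hbd, hcbd⟩ := Finset.mem_filter.mp ha
    have haW' := hsub haW
    have hbW' := hsub hbW
    have hdW' := hsub hdW
    -- the colours at `b`
    have h3 : ((W.erase b).image κ).card = (W.erase b).card := by
      refine Finset.card_image_of_injOn ?_
      intro u hu w hw h
      exact hinj u (Finset.mem_of_mem_erase (Finset.mem_coe.mp hu)) w
        (Finset.mem_of_mem_erase (Finset.mem_coe.mp hw)) h
    have h4 : (W.erase b).image κ ⊆ (W.erase b).image (col c b) := by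
      intro q hq
      obtain ⟨u, hu, rfl⟩ := Finset.mem_image.mp hq
      obtain ⟨hub, huW⟩ := Finset.mem_erase.mp hu
      obtain ⟨w, hw, h⟩ := hκ u huW b (Finset.mem_erase.mpr ⟨hub.symm, hbW'⟩)
      refine Finset.mem_image.mpr ⟨w, ?_, ?_⟩
      · refine Finset.mem_erase.mpr ⟨?_, Finset.mem_of_mem_erase hw⟩
        rcases h with h | h <;> omega
      · unfold col
        rcases h with h | h
        · rw [if_pos h.1, h.2]
        · rw [if_neg (by omega), h.2]
    have h5 : (W.erase b).image (col c b) ⊆ ((W.erase b).erase a).image (col c b) := by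
      intro q hq
      obtain ⟨u, hu, rfl⟩ := Finset.mem_image.mp hq
      by_cases hua : u = a
      · refine Finset.mem_image.mpr ⟨d, ?_, ?_⟩
        · exact Finset.mem_erase.mpr ⟨by omega, Finset.mem_erase.mpr ⟨by omega, hdW'⟩⟩
        · unfold col
          rw [if_pos hbd, hua, if_neg (by omega), hcbd, hcab]
      · exact Finset.mem_image.mpr ⟨u, Finset.mem_erase.mpr ⟨hua, hu⟩, rfl⟩
    have h6 := Finset.card_le_card (h4.trans h5)
    have h7 := Finset.card_image_le (s := (W.erase b).erase a) (f := col c b)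
    have h8 : a ∈ W.erase b := Finset.mem_erase.mpr ⟨by omega, haW'⟩
    have h9 := Finset.card_erase_add_one h8
    omega
  · -- a full colour of `W`
    push Not at hinj
    obtain ⟨v, hv, w, hw, hvw, hne⟩ := hinj
    have hfull : Full c W (κ v) := by
      intro u hu
      by_cases huv : u = v
      · obtain ⟨t, ht, h⟩ := hκ w hw u (Finset.mem_erase.mpr ⟨by rw [huv]; exact hne, hu⟩)
        rw [← hvw] at h
        exact ⟨t, Finset.mem_of_mem_erase ht, h⟩
      · obtain ⟨t, ht, h⟩ := hκ v hv u (Finset.mem_erase.mpr ⟨huv, hu⟩)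
        exact ⟨t, Finset.mem_of_mem_erase ht, h⟩
    obtain ⟨l2, l1, l0⟩ := levels_le hLW hRW hB hfull
    have hsum := card_levels (c := c) (V := W) (k := κ v)
    rw [hW, pow_succ] at hsum
    omega

theorem card_le_of_FullCol (hH : FullCol) : ∀ R : ℕ, BoundTo R := by
  intro R
  induction R with
  | zero =>
    intro c lev V r hr _ hR
    obtain rfl : r = 0 := by omega
    simpa using card_le_one_of_anch_zero (anch_of_rk hR)
  | succ R ih =>
    intro c lev V r hr hL hR
    rcases Nat.lt_or_ge r (R + 1) with h | h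
    · exact ih c lev V r (by omega) hL hR
    obtain rfl : r = R + 1 := by omega
    exact step_of_FullCol hH ih hL hR

/-- **(FULLCOL) implies S08791** -/
theorem s08791_of_FullCol (hH : FullCol) :
    ∀ k : ℕ, 1 ≤ k →
      (∃ c : Fin (3 ^ (k - 1)) → Fin (3 ^ (k - 1)) → ℕ,
          (¬ ∃ x : Fin (3 + 1) → Fin (3 ^ (k - 1)), StrictMono x ∧
              ∃ col : ℕ, ∀ i : Fin 3, c (x i.castSucc) (x i.succ) = col) ∧
          (¬ ∃ y : Fin (k + 1) → Fin (3 ^ (k - 1)), StrictMono y ∧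
              Function.Injective (fun i : Fin k => c (y i.castSucc) (y i.succ)))) ∧
      (∀ c : Fin (3 ^ (k - 1) + 1) → Fin (3 ^ (k - 1) + 1) → ℕ,
          (∃ x : Fin (3 + 1) → Fin (3 ^ (k - 1) + 1), StrictMono x ∧
              ∃ col : ℕ, ∀ i : Fin 3, c (x i.castSucc) (x i.succ) = col) ∨
          (∃ y : Fin (k + 1) → Fin (3 ^ (k - 1) + 1), StrictMono y ∧
              Function.Injective (fun i : Fin k => c (y i.castSucc) (y i.succ)))) :=
  K.s08791_of_card fun c lev V R hL hR => card_le_of_FullCol hH R c lev V R (le_refl R) hL hR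

end FlashRainbow.K2
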