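import Pool.Agent.Work.MP_54723a_co.K2.Lab2

/-!
# The class `G(R)` of sets with label sets and the skeleton `step ⟹ S08791`  (helper57)

`GC c V F R`: the label set `F v` of `v` contains no colour of an edge leaving `v`, and every rainbow
path out of `v` which avoids `F v` has at most `R - |F v|` edges.  The class is hereditary, the two
levels of the tails of any colour `k` are in `GC (R - 1)` with the same labels, and if always some
colour `k` has few non-tails (or the trade-off `|T| + 2 |H| ≤ 4 * 3 ^ (R - 1)` holds), then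
`|V| ≤ 3 ^ R`, which is the frozen statement (`F = ∅`).
-/

set_option autoImplicit false

namespace FlashRainbow.K2

open Classical FlashRainbow FlashRainbow.K

variable {c : ℕ → ℕ → ℕ} {V U T : Finset ℕ} {r R k : ℕ} {lev : ℕ → ℕ → ℕ} {F : ℕ → Finset ℕ}

/-- sets with label sets -/
structure GC (c : ℕ → ℕ → ℕ) (V : Finset ℕ) (F : ℕ → Finset ℕ) (R : ℕ) : Prop where
  notOut : ∀ v ∈ V, ∀ g ∈ F v, ¬ OutCol c V v g
  short : ∀ v ∈ V, ∀ D, RS c V v D → Disjoint D (F v) → D.card + (F v).card ≤ R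

/-- the tails of `k` -/
noncomputable def Tl (c : ℕ → ℕ → ℕ) (V : Finset ℕ) (k : ℕ) : Finset ℕ :=
  V.filter fun v => OutCol c V v k

/-- the non-tails of `k` -/
noncomputable def Hd (c : ℕ → ℕ → ℕ) (V : Finset ℕ) (k : ℕ) : Finset ℕ :=
  V.filter fun v => ¬ OutCol c V v k

theorem card_tl_add_hd : (Tl c V k).card + (Hd c V k).card = V.card :=
  Finset.card_filter_add_card_filter_not _

theorem GC.mono (h : GC c V F R) (hU : U ⊆ V) : GC c U F R :=
  ⟨fun v hv g hg h' => h.notOut v (hU hv) g hg (h'.mono hU),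
    fun v hv D hD hf => h.short v (hU hv) D (K.RS.mono hD hU) hf⟩

/-- the rank class: empty label sets -/
theorem gc_of_rk (h : Rk c V R) : GC c V (fun _ => ∅) R :=
  ⟨fun _ _ g hg => absurd hg (Finset.notMem_empty g),
    fun _ _ D hD _ => by simpa using K.RS.card_le h hD⟩

/-- labels with one element -/
theorem gc_of_lab {f : ℕ → ℕ} (h : LAB c V R f) : GC c V (fun v => {f v}) R :=
  ⟨fun v hv g hg h' => by
      rw [Finset.mem_singleton] at hg
      exact h.notOut v hv (hg ▸ h'),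
    fun v hv D hD hf => by
      rw [Finset.disjoint_singleton_right] at hf
      simpa using h.short v hv D hD hf⟩

theorem card_le_one_of_gc_zero (h : GC c V F 0) : V.card ≤ 1 := by
  by_contra hcon
  obtain ⟨a, ha, b, hb, hab⟩ := Finset.one_lt_card.mp (by omega : 1 < V.card)
  have key : ∀ u ∈ V, ∀ v ∈ V, u < v → False := by
    intro u hu v hv huv
    have h0 := h.short u hu ∅ (RS.single hu) (Finset.disjoint_empty_left _)
    have hF : F u = ∅ := Finset.card_eq_zero.mp (by simpa using h0)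
    have h1 := h.short u hu _ (RS.step (RS.single (c := c) hv) hu huv (Finset.notMem_empty _))
      (by rw [hF]; exact Finset.disjoint_empty_right _)
    simp at h1
  rcases lt_or_gt_of_ne hab with h | h
  · exact key a ha b hb h
  · exact key b hb a ha h

/-- a `k`-free set of tails of `k` has rank one less, with the same labels -/
theorem gc_level (hV : GC c V F (R + 1)) (hT : T ⊆ V) (hout : ∀ t ∈ T, OutCol c V t k)
    (hfree : ∀ u ∈ T, ∀ v ∈ T, u < v → c u v ≠ k) : GC c T F R := by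
  refine ⟨fun v hv g hg h => hV.notOut v (hT hv) g hg (h.mono hT), fun v hv D hD hfv => ?_⟩
  have hk : k ∉ D := by
    obtain ⟨z, hz⟩ := hD.join (Finset.Subset.refl T) ∅ (RP.single hD.mem)
      (Finset.disjoint_empty_right _)
    rw [Finset.empty_union] at hz
    exact hz.notMem_of_free hfree
  have hkF : k ∉ F v := fun h => hV.notOut v (hT hv) k h (hout v hv)
  have h1 := hV.short v (hT hv) _ (rs_append hD hT hout hk) (by
    rw [Finset.disjoint_insert_left]
    exact ⟨hkF, hfv⟩)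
  rw [Finset.card_insert_of_notMem hk] at h1
  omega

/-- the tails of `k` which have a `k`-edge into a tail of `k` -/
noncomputable def Tl2 (c : ℕ → ℕ → ℕ) (V : Finset ℕ) (k : ℕ) : Finset ℕ :=
  V.filter fun v => ∃ w ∈ V, v < w ∧ c v w = k ∧ OutCol c V w k

/-- the other tails of `k` -/
noncomputable def Tl1 (c : ℕ → ℕ → ℕ) (V : Finset ℕ) (k : ℕ) : Finset ℕ :=
  V.filter fun v => OutCol c V v k ∧ ¬ ∃ w ∈ V, v < w ∧ c v w = k ∧ OutCol c V w k

theorem tl_eq : Tl c V k = Tl2 c V k ∪ Tl1 c V k := by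
  ext v
  simp only [Tl, Tl2, Tl1, Finset.mem_union, Finset.mem_filter]
  constructor
  · rintro ⟨hv, h⟩
    by_cases h2 : ∃ w ∈ V, v < w ∧ c v w = k ∧ OutCol c V w k
    · exact Or.inl ⟨hv, h2⟩
    · exact Or.inr ⟨hv, h, h2⟩
  · rintro (⟨hv, w, hw, h1, h2, _⟩ | ⟨hv, h, _⟩)
    · exact ⟨hv, w, hw, h1, h2⟩
    · exact ⟨hv, h⟩

theorem gc_tl2 (hN : NF c V) (hV : GC c V F (R + 1)) : GC c (Tl2 c V k) F R := by
  refine gc_level (k := k) hV (Finset.filter_subset _ _) (fun t ht => ?_) ?_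
  · obtain ⟨w, hw, h1, h2, _⟩ := (Finset.mem_filter.mp ht).2
    exact ⟨w, hw, h1, h2⟩
  · intro u hu v hv huv hc
    obtain ⟨w, hw, hvw, hcw, w', hw', hww', hcw'⟩ := (Finset.mem_filter.mp hv).2
    exact hN u (Finset.mem_filter.mp hu).1 v (Finset.mem_filter.mp hv).1 w hw w' hw' huv hvw hww'
      (hc.trans hcw.symm) (hcw.trans hcw'.symm)

theorem gc_tl1 (hV : GC c V F (R + 1)) : GC c (Tl1 c V k) F R := by
  refine gc_level (k := k) hV (Finset.filter_subset _ _) (fun t ht => (Finset.mem_filter.mp ht).2.1)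
    ?_
  intro u hu v hv huv hc
  exact (Finset.mem_filter.mp hu).2.2
    ⟨v, (Finset.mem_filter.mp hv).1, huv, hc, (Finset.mem_filter.mp hv).2.1⟩

/-- **the step** still to be proved: a set of the class with more than `3 ^ (R + 1)` points (the
bounds for all smaller ranks, and for all smaller sets of the class, may be used) has a colour with
few non-tails -/
def GStep : Prop :=
  ∀ (c : ℕ → ℕ → ℕ) (lev : ℕ → ℕ → ℕ) (V : Finset ℕ) (F : ℕ → Finset ℕ) (R : ℕ),
    Lev c V 3 lev → GC c V F (R + 1) → V.card = 3 ^ (R + 1) + 1 →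
    (∀ (c' : ℕ → ℕ → ℕ) (lev' : ℕ → ℕ → ℕ) (V' : Finset ℕ) (F' : ℕ → Finset ℕ), ∀ r ≤ R,
      Lev c' V' 3 lev' → GC c' V' F' r → V'.card ≤ 3 ^ r) →
    (∀ k, (Tl c V k).card ≤ 2 * 3 ^ R) →
    ∃ k, (Hd c V k).card ≤ 3 ^ R ∨ (Tl c V k).card + 2 * (Hd c V k).card ≤ 4 * 3 ^ R ∨
      ∃ F' : ℕ → Finset ℕ, GC c (Hd c V k) F' R

theorem gc_bound (hS : GStep) : ∀ (R : ℕ), ∀ r ≤ R, ∀ (c : ℕ → ℕ → ℕ) (lev : ℕ → ℕ → ℕ)
    (V : Finset ℕ) (F : ℕ → Finset ℕ), Lev c V 3 lev → GC c V F r → V.card ≤ 3 ^ r := by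
  intro R
  induction R with
  | zero =>
    intro r hr c lev V F _ hV
    obtain rfl : r = 0 := by omega
    simpa using card_le_one_of_gc_zero hV
  | succ R ih =>
    intro r hr c lev V F hL hV
    rcases Nat.lt_or_ge r (R + 1) with h | h
    · exact ih r (by omega) c lev V F hL hV
    obtain rfl : r = R + 1 := by omega
    by_contra hcon
    obtain ⟨V₀, hV₀, hcard⟩ := Finset.exists_subset_card_eq (s := V) (n := 3 ^ (R + 1) + 1)
      (by omega)
    have hL₀ := hL.mono hV₀
    have hG₀ := hV.mono hV₀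
    have hN := nf_of_lev hL₀
    have hT : ∀ k, (Tl c V₀ k).card ≤ 2 * 3 ^ R := by
      intro k
      have h1 : (Tl2 c V₀ k).card ≤ 3 ^ R :=
        ih R le_rfl c lev _ F (hL₀.mono (Finset.filter_subset _ _)) (gc_tl2 (k := k) hN hG₀)
      have h2 : (Tl1 c V₀ k).card ≤ 3 ^ R :=
        ih R le_rfl c lev _ F (hL₀.mono (Finset.filter_subset _ _)) (gc_tl1 (k := k) hG₀)
      rw [tl_eq]
      calc (Tl2 c V₀ k ∪ Tl1 c V₀ k).card ≤ (Tl2 c V₀ k).card + (Tl1 c V₀ k).card :=
            Finset.card_union_le _ _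
        _ ≤ 2 * 3 ^ R := by omega
    obtain ⟨k, hk⟩ := hS c lev V₀ F R hL₀ hG₀ hcard
      (fun c' lev' V' F' r' hr' h1 h2 => ih r' hr' c' lev' V' F' h1 h2) hT
    have h1 := hT k
    have h2 : (Tl c V₀ k).card + (Hd c V₀ k).card = V₀.card := card_tl_add_hd
    have h3 : (3 : ℕ) ^ (R + 1) = 3 * 3 ^ R := by rw [pow_succ]; ring
    rcases hk with hk | hk | ⟨F', hk⟩
    · omega
    · omega
    · have h4 : (Hd c V₀ k).card ≤ 3 ^ R :=
        ih R le_rfl c lev _ F' (hL₀.mono (Finset.filter_subset _ _)) hk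
      omega

/-- **GStep implies S08791** -/
theorem s08791_of_GStep (hS : GStep) :
    ∀ k : ℕ, 1 ≤ k →
      (∃ c : Fin (3 ^ (k - 1)) → Fin (3 ^ (k - 1)) → ℕ,
          (¬ ∃ x : Fin (3 + 1) → Fin (3 ^ (k - 1)), StrictMono x ∧
              ∃ col : ℕ, ∀ i : Fin 3, c (x i.castSucc) (x i.succ) = col) ∧
          (¬ ∃ y : Fin (k + 1) → Fin (3 ^ (k - 1)), StrictMono y ∧
              Function.Injective (fun i : Fin k => c (y i.castSucc) (y i.succ)))) ∧
      (∀ c : Fin (3 ^ (k - 1) + 1) → Fin (3 ^ (k - 1) + 1) → ℕ,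
          (∃ x : Fin (3 + 1) → Fin (3 ^ (k - 1) + 1), StrictMono x ∧
              ∃ col : ℕ, ∀ i : Fin 3, c (x i.castSucc) (x i.succ) = col) ∨
          (∃ y : Fin (k + 1) → Fin (3 ^ (k - 1) + 1), StrictMono y ∧
              Function.Injective (fun i : Fin k => c (y i.castSucc) (y i.succ)))) :=
  K.s08791_of_card fun c lev V R hL hR => gc_bound hS R R le_rfl c lev V _ hL (gc_of_rk hR)

/-! ## transport of labels -/

/-- `v` keeps its label set if it does not contain `k` only by losing one unit: the label set of a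
non-tail which contains `k` may drop `k` -/
theorem gc_hd_erase (hV : GC c V F (R + 1)) {v : ℕ} (hv : v ∈ Hd c V k) (hk : k ∈ F v) {D : Finset ℕ}
    (hD : RS c (Hd c V k) v D) (hdis : Disjoint D ((F v).erase k)) :
    D.card + ((F v).erase k).card ≤ R := by
  have hkD : k ∉ D := by
    obtain ⟨z, hz⟩ := hD.join (Finset.Subset.refl _) ∅ (RP.single hD.mem)
      (Finset.disjoint_empty_right _)
    rw [Finset.empty_union] at hz
    refine hz.notMem_of_free ?_
    intro a ha b hb hab hc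
    exact (Finset.mem_filter.mp ha).2 ⟨b, (Finset.mem_filter.mp hb).1, hab, hc⟩
  have h1 := hV.short v (Finset.mem_filter.mp hv).1 D (K.RS.mono hD (Finset.filter_subset _ _)) (by
    rw [Finset.disjoint_left] at hdis ⊢
    intro g hg hgF
    exact hdis hg (Finset.mem_erase.mpr ⟨fun h => hkD (h ▸ hg), hgF⟩))
  have h2 := Finset.card_erase_add_one hk
  omega

/-- transport: a rainbow path from `u` to `v` adds its colours to the labels -/
theorem gc_transport (hV : GC c V F R) {u v : ℕ} (hu : u ∈ V) (huv : u < v)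
    (hg : c u v ∉ F u) {D : Finset ℕ} (hD : RS c V v D)
    (hdis : Disjoint D (insert (c u v) (F u))) : D.card + (insert (c u v) (F u)).card ≤ R := by
  rw [Finset.disjoint_insert_right] at hdis
  have h1 := hV.short u hu _ (RS.step hD hu huv hdis.1) (by
    rw [Finset.disjoint_insert_left]
    exact ⟨hg, hdis.2⟩)
  rw [Finset.card_insert_of_notMem hdis.1] at h1
  rw [Finset.card_insert_of_notMem hg]
  omega

end FlashRainbow.K2
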