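import Pool.Agent.Work.MP_54723a_co.K2.FullCol

/-!
# (KEEP) => S08791  (paper: helper49, lead; Lean: helper12)

If all but at most `3 ^ R` vertices of a set of rank at most `R + 1` carry labels outside a set `K` of
at most `R` colours such that every out-path not inside `K` contains the label, then the set has at most
`3 ^ (R + 1)` vertices.
-/

set_option autoImplicit false

namespace FlashRainbow.K2

open Classical FlashRainbow FlashRainbow.K

variable {c : ℕ → ℕ → ℕ} {V U T X K : Finset ℕ} {r R k : ℕ} {lev : ℕ → ℕ → ℕ} {a : ℕ → ℕ}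

/-- labelled sets: the labels are not in `K`, the label of `v` has no 2-flash starting at `v`, and
every rainbow path out of `v` which is not inside `K` contains the label of `v` -/
structure KU (c : ℕ → ℕ → ℕ) (U K : Finset ℕ) (a : ℕ → ℕ) : Prop where
  notK : ∀ v ∈ U, a v ∉ K
  one : ∀ v ∈ U, ∀ w ∈ U, v < w → c v w = a v → ¬ OutCol c U w (a v)
  path : ∀ v ∈ U, ∀ P, RS c U v P → ¬ P ⊆ K → a v ∈ P

theorem rp_sub {y : ℕ} {D : Finset ℕ} (hT : ∀ u ∈ T, ∀ v ∈ T, u < v → c u v ∈ K)
    (h : RP c T y D) : D ⊆ K := by
  induction h with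
  | single _ => exact Finset.empty_subset _
  | @step x y D h hy hlt hc ih => exact Finset.insert_subset (hT x h.mem y hy hlt) ih

/-- a set whose colours are in `K` -/
theorem card_le_of_col (hL : Lev c V 3 lev) (hTV : T ⊆ V)
    (hT : ∀ u ∈ T, ∀ v ∈ T, u < v → c u v ∈ K) : T.card ≤ 3 ^ K.card := by
  have h := card_le_of_levels hL.lt 1 K T hTV (by
    intro T' hT' hconst
    rw [Finset.card_le_one]
    intro p hp q hq
    by_contra hpq
    rcases Nat.lt_or_gt_of_ne hpq with h | h
    · have h1 := hL.up p (hTV (hT' hp)) q (hTV (hT' hq)) h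
      rw [hconst _ (hT p (hT' hp) q (hT' hq) h) p hp q hq] at h1
      exact lt_irrefl _ h1
    · have h1 := hL.up q (hTV (hT' hq)) p (hTV (hT' hp)) h
      rw [hconst _ (hT q (hT' hq) p (hT' hp) h) q hq p hp] at h1
      exact lt_irrefl _ h1)
  simpa using h

/-- lemma Q: OUT-cliques of `K`-coloured classes -/
theorem lemQ (hB : BoundTo R) (a : ℕ → ℕ) (K : Finset ℕ) : ∀ ρ ≤ R, ∀ X : Finset ℕ,
    Lev c X 3 lev → (∀ v ∈ X, a v ∉ K) →
    (∀ v ∈ X, ∀ u ∈ X, v < u → a u = a v → c v u ∈ K) →
    (∀ v ∈ X, ∀ u ∈ X, v < u → a u ≠ a v → c v u = a v) →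
    (∀ u P, RP c X u P → (insert (a u) P).card ≤ ρ + 1) → X.card ≤ 3 ^ ρ := by
  intro ρ
  induction ρ with
  | zero =>
    intro _ X _ h1 h2 h3 h4
    rw [pow_zero, Finset.card_le_one]
    have key : ∀ v ∈ X, ∀ u ∈ X, v < u → False := by
      intro v hv u hu hvu
      have hne : a u ≠ c v u := by
        intro h
        by_cases hau : a u = a v
        · exact h1 u hu (by rw [h]; exact h2 v hv u hu hvu hau)
        · exact hau (by rw [h]; exact h3 v hv u hu hvu hau)
      have h6 : a u ∉ insert (c v u) (∅ : Finset ℕ) := by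
        rw [Finset.mem_insert, not_or]
        exact ⟨hne, Finset.notMem_empty _⟩
      have h7 := h4 u _ (RP.step (RP.single hv) hu hvu (Finset.notMem_empty _))
      rw [Finset.card_insert_of_notMem h6, Finset.card_insert_of_notMem (Finset.notMem_empty _)] at h7
      simp at h7
    intro p hp q hq
    by_contra hpq
    rcases Nat.lt_or_gt_of_ne hpq with h | h
    · exact key p hp q hq h
    · exact key q hq p hp h
  | succ ρ ih =>
    intro hρ X hL h1 h2 h3 h4
    rcases X.eq_empty_or_nonempty with rfl | hne
    · simp
    set x := X.min' hne with hx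
    have hxX : x ∈ X := X.min'_mem hne
    have hxmin : ∀ v ∈ X, v ≠ x → x < v := fun v hv h =>
      lt_of_le_of_ne (X.min'_le v hv) (Ne.symm h)
    by_cases hY : ∃ u ∈ X, a u ≠ a x
    · obtain ⟨u₀, hu₀, hau₀⟩ := hY
      set Y := X.filter (fun v => a v ≠ a x) with hYdef
      set A := X.filter (fun v => a v = a x ∧ ∃ u ∈ Y, v < u) with hA
      set E := X.filter (fun v => a v = a x ∧ ¬ ∃ u ∈ Y, v < u) with hE
      have sY : Y ⊆ X := Finset.filter_subset _ _
      have sA : A ⊆ X := Finset.filter_subset _ _
      have sE : E ⊆ X := Finset.filter_subset _ _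
      have hYx : ∀ v ∈ Y, x < v ∧ c x v = a x := by
        intro v hv
        obtain ⟨hvX, hva⟩ := Finset.mem_filter.mp hv
        have hlt := hxmin v hvX (fun h => hva (by rw [h]))
        exact ⟨hlt, h3 x hxX v hvX hlt hva⟩
      -- the other classes
      have cY : Y.card ≤ 3 ^ ρ := by
        refine ih (by omega) Y (hL.mono sY) (fun v hv => h1 v (sY hv))
          (fun v hv u hu => h2 v (sY hv) u (sY hu)) (fun v hv u hu => h3 v (sY hv) u (sY hu)) ?_
        intro u P hP
        have hfree : ∀ p ∈ Y, ∀ q ∈ Y, p < q → c p q ≠ a x := by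
          intro p hp q hq hpq hc
          by_cases h : a q = a p
          · exact h1 x hxX (by rw [← hc]; exact h2 p (sY hp) q (sY hq) hpq h)
          · exact (Finset.mem_filter.mp hp).2 ((h3 p (sY hp) q (sY hq) hpq h).symm.trans hc)
        have hxP : a x ∉ P := hP.notMem_of_free hfree
        have h5 := hP.prepend (E := {a x}) sY (by
          intro v hv
          obtain ⟨h6, h7⟩ := hYx v hv
          have h8 := RP.step (c := c) (RP.single hxX) (sY hv) h6 (Finset.notMem_empty _)
          rw [h7] at h8
          exact h8) (by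
          intro q hq p hp p' hp' hpp
          rw [Finset.mem_singleton.mp hq]
          exact hfree p hp p' hp' hpp)
        have h6 := h4 u _ h5
        have hau : a x ≠ a u := fun h => (Finset.mem_filter.mp hP.mem).2 h.symm
        have h7 : insert (a u) (P ∪ {a x}) = insert (a x) (insert (a u) P) := by
          ext t
          simp only [Finset.mem_insert, Finset.mem_union, Finset.mem_singleton]
          tauto
        rw [h7, Finset.card_insert_of_notMem (by
          rw [Finset.mem_insert, not_or]
          exact ⟨hau, hxP⟩)] at h6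
        omega
      have hAK : ∀ p ∈ A, ∀ q ∈ A, p < q → c p q ∈ K := fun p hp q hq hpq =>
        h2 p (sA hp) q (sA hq) hpq
          ((Finset.mem_filter.mp hq).2.1.trans (Finset.mem_filter.mp hp).2.1.symm)
      have hEK : ∀ p ∈ E, ∀ q ∈ E, p < q → c p q ∈ K := fun p hp q hq hpq =>
        h2 p (sE hp) q (sE hq) hpq
          ((Finset.mem_filter.mp hq).2.1.trans (Finset.mem_filter.mp hp).2.1.symm)
      have hxK := h1 x hxX
      -- the part of the class of `x` before the other classes
      have cA : A.card ≤ 3 ^ ρ := by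
        refine hB c lev A ρ (by omega) (hL.mono sA) ?_
        intro v P hP
        have hPK := rp_sub hAK hP
        obtain ⟨hvX, hva, u, hu, hvu⟩ := Finset.mem_filter.mp hP.mem
        have huX := sY hu
        have hua := (Finset.mem_filter.mp hu).2
        have hc : c v u = a x := by
          rw [← hva]
          exact h3 v hvX u huX hvu (by rw [hva]; exact hua)
        have h5 := RP.step (hP.mono sA) huX hvu (by rw [hc]; exact fun h => hxK (hPK h))
        rw [hc] at h5
        have h6 := h4 u _ h5
        rw [Finset.card_insert_of_notMem (by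
          rw [Finset.mem_insert, not_or]
          exact ⟨hua, fun h => h1 u huX (hPK h)⟩),
          Finset.card_insert_of_notMem (fun h => hxK (hPK h))] at h6
        omega
      -- the part behind
      have cE : E.card ≤ 3 ^ ρ := by
        refine hB c lev E ρ (by omega) (hL.mono sE) ?_
        intro v P hP
        have hPK := rp_sub hEK hP
        have hu₀Y : u₀ ∈ Y := Finset.mem_filter.mpr ⟨hu₀, hau₀⟩
        obtain ⟨hxu, hcxu⟩ := hYx u₀ hu₀Y
        have huK := h1 u₀ hu₀
        have h5 := hP.prepend (E := {a u₀, a x}) sE (by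
          intro e he
          obtain ⟨heX, hea, hbeh⟩ := Finset.mem_filter.mp he
          have hue : u₀ < e := by
            have hne : u₀ ≠ e := fun h => hau₀ (by rw [h]; exact hea)
            have : ¬ e < u₀ := fun h => hbeh ⟨u₀, hu₀Y, h⟩
            omega
          have hc : c u₀ e = a u₀ := h3 u₀ hu₀ e heX hue (by rw [hea]; exact Ne.symm hau₀)
          have h8 := RP.step (c := c) (RP.single hxX) hu₀ hxu (Finset.notMem_empty _)
          rw [hcxu] at h8
          have h9 := RP.step h8 heX hue (by
            rw [hc, Finset.mem_insert, not_or]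
            exact ⟨hau₀, Finset.notMem_empty _⟩)
          rw [hc] at h9
          exact h9) (by
          intro q hq p hp p' hp' hpp hcq
          have h10 := hEK p hp p' hp' hpp
          rw [hcq] at h10
          rcases Finset.mem_insert.mp hq with h | h
          · exact huK (by rw [← h]; exact h10)
          · exact hxK (by rw [← Finset.mem_singleton.mp h]; exact h10))
        have h6 := h4 v _ h5
        have h7 : insert (a u₀) (insert (a x) P) ⊆ insert (a v) (P ∪ {a u₀, a x}) := by
          intro t ht
          simp only [Finset.mem_insert, Finset.mem_union, Finset.mem_singleton] at ht ⊢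
          tauto
        have h8 := Finset.card_le_card h7
        rw [Finset.card_insert_of_notMem (by
          rw [Finset.mem_insert, not_or]
          exact ⟨hau₀, fun h => huK (hPK h)⟩),
          Finset.card_insert_of_notMem (fun h => hxK (hPK h))] at h8
        omega
      have hsum : X.card = Y.card + (A.card + E.card) := by
        have e1 := Finset.card_filter_add_card_filter_not (s := X) (fun v => a v ≠ a x)
        have e2 := Finset.card_filter_add_card_filter_not (s := X.filter (fun v => ¬ a v ≠ a x))
          (fun v => ∃ u ∈ Y, v < u)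
        have e3 : (X.filter (fun v => ¬ a v ≠ a x)).filter (fun v => ∃ u ∈ Y, v < u) = A := by
          ext t
          simp only [hA, Finset.mem_filter, not_not, and_assoc]
        have e4 : (X.filter (fun v => ¬ a v ≠ a x)).filter (fun v => ¬ ∃ u ∈ Y, v < u) = E := by
          ext t
          simp only [hE, Finset.mem_filter, not_not, and_assoc]
        rw [e3, e4] at e2
        have e5 : (X.filter (fun v => a v ≠ a x)).card = Y.card := rfl
        rw [e5] at e1
        rw [← e2] at e1
        exact e1.symm
      rw [pow_succ]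
      omega
    · -- one class
      push Not at hY
      refine hB c lev X (ρ + 1) hρ hL ?_
      intro v P hP
      have hPK := rp_sub (K := K) (fun p hp q hq hpq =>
        h2 p hp q hq hpq ((hY q hq).trans (hY p hp).symm)) hP
      have h6 := h4 v _ hP
      rw [Finset.card_insert_of_notMem (fun h => h1 v hP.mem (hPK h))] at h6
      omega

theorem card_KU (hL : Lev c U 3 lev) (hR : Rk c U (R + 1)) (hB : BoundTo R) (hK : K.card ≤ R)
    (h : KU c U K a) : U.card ≤ 2 * 3 ^ R := by
  have hsingle : ∀ v ∈ U, ∀ w ∈ U, v < w → c v w ∉ K → c v w = a v := by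
    intro v hv w hw hvw hc
    have h1 := h.path v hv _ (RS.step (RS.single hw) hv hvw (Finset.notMem_empty _)) (by
      intro h2
      exact hc (h2 (Finset.mem_insert_self _ _)))
    rcases Finset.mem_insert.mp h1 with h2 | h2
    · exact h2.symm
    · exact absurd h2 (Finset.notMem_empty _)
  set A := U.filter (fun v => OutCol c U v (a v)) with hA
  set B := U.filter (fun v => ¬ OutCol c U v (a v)) with hB'
  have sA : A ⊆ U := Finset.filter_subset _ _
  have sB : B ⊆ U := Finset.filter_subset _ _
  have cB : B.card ≤ 3 ^ R := by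
    refine (card_le_of_col hL sB (K := K) ?_).trans (Nat.pow_le_pow_right (by norm_num) hK)
    intro u hu v hv huv
    by_contra hc
    exact (Finset.mem_filter.mp hu).2 ⟨v, sB hv, huv, hsingle u (sB hu) v (sB hv) huv hc⟩
  have cA : A.card ≤ 3 ^ R := by
    refine lemQ hB a K R (le_refl R) A (hL.mono sA) (fun v hv => h.notK v (sA hv)) ?_ ?_ ?_
    · intro v hv u hu hvu hau
      by_contra hc
      have h1 := hsingle v (sA hv) u (sA hu) hvu hc
      exact h.one v (sA hv) u (sA hu) hvu h1 (by rw [← hau]; exact (Finset.mem_filter.mp hu).2)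
    · intro v hv u hu hvu hau
      by_contra hne
      have hcK : c v u ∈ K := by
        by_contra hc
        exact hne (hsingle v (sA hv) u (sA hu) hvu hc)
      obtain ⟨huU, w, hw, huw, hcw⟩ := Finset.mem_filter.mp hu
      have h1 := RS.step (c := c) (RS.single hw) huU huw (Finset.notMem_empty _)
      rw [hcw] at h1
      have h2 := RS.step h1 (sA hv) hvu (by
        rw [Finset.mem_insert, not_or]
        exact ⟨fun h' => h.notK u huU (by rw [← h']; exact hcK), Finset.notMem_empty _⟩)
      have h3 := h.path v (sA hv) _ h2 (by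
        intro h4
        exact h.notK u huU (h4 (Finset.mem_insert_of_mem (Finset.mem_insert_self _ _))))
      rcases Finset.mem_insert.mp h3 with h4 | h4
      · exact h.notK v (sA hv) (by rw [h4]; exact hcK)
      · rcases Finset.mem_insert.mp h4 with h5 | h5
        · exact hau h5.symm
        · exact absurd h5 (Finset.notMem_empty _)
    · intro u P hP
      by_cases hau : a u ∈ P
      · rw [Finset.insert_eq_of_mem hau]
        exact hR u P (hP.mono sA)
      · obtain ⟨huU, w, hw, huw, hcw⟩ := Finset.mem_filter.mp hP.mem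
        have h1 := RP.step (hP.mono sA) hw huw (by rw [hcw]; exact hau)
        rw [hcw] at h1
        exact hR w _ h1
  have hsum := Finset.card_filter_add_card_filter_not (s := U) (fun v => OutCol c U v (a v))
  have h5 : (U.filter (fun v => OutCol c U v (a v))).card = A.card := rfl
  have h6 : (U.filter (fun v => ¬ OutCol c U v (a v))).card = B.card := rfl
  rw [h5, h6] at hsum
  omega

/-- **(KEEP)**, in the weakest form: after deleting at most `3 ^ R` vertices the rest `U` carries labels
for a set `K` of at most `R` colours.  Free hypotheses: the bound for smaller ranks, and the size. -/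
def Keep : Prop :=
  ∀ (c : ℕ → ℕ → ℕ) (lev : ℕ → ℕ → ℕ) (V : Finset ℕ) (R : ℕ), Lev c V 3 lev → Rk c V (R + 1) →
    BoundTo R → V.card = 3 ^ (R + 1) + 1 →
    ∃ U ⊆ V, ∃ K : Finset ℕ, ∃ a : ℕ → ℕ, K.card ≤ R ∧ (V \ U).card ≤ 3 ^ R ∧ KU c U K a

theorem card_le_of_Keep (hH : Keep) : ∀ R : ℕ, BoundTo R := by
  intro R
  induction R with
  | zero =>
    intro c lev V r hr _ hR
    obtain rfl : r = 0 := by omega
    simpa using card_le_one_of_anch_zero (anch_of_rk hR)
  | succ R ih =>
    intro c lev V r hr hL hR
    rcases Nat.lt_or_ge r (R + 1) with h | h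
    · exact ih c lev V r (by omega) hL hR
    obtain rfl : r = R + 1 := by omega
    by_contra hcon
    obtain ⟨W, hWV, hW⟩ := Finset.exists_subset_card_eq (s := V) (n := 3 ^ (R + 1) + 1) (by omega)
    have hLW := hL.mono hWV
    have hRW : Rk c W (R + 1) := fun y D hD => hR y D (hD.mono hWV)
    obtain ⟨U, hUW, K, a, hK, hc, hKU⟩ := hH c lev W R hLW hRW ih hW
    have h1 := card_KU (hLW.mono hUW) (fun y D hD => hRW y D (hD.mono hUW)) ih hK hKU
    have h2 := Finset.card_sdiff_add_card_eq_card hUW
    rw [pow_succ] at hW
    omega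

/-- **(KEEP) implies S08791** -/
theorem s08791_of_Keep (hH : Keep) :
    ∀ k : ℕ, 1 ≤ k →
      (∃ c : Fin (3 ^ (k - 1)) → Fin (3 ^ (k - 1)) → ℕ,
          (¬ ∃ x : Fin (3 + 1) → Fin (3 ^ (k - 1)), StrictMono x ∧
              ∃ col : ℕ, ∀ i : Fin 3, c (x i.castSucc) (x i.succ) = col) ∧
          (¬ ∃ y : Fin (k + 1) → Fin (3 ^ (k - 1)), StrictMono y ∧
              Function.Injective (fun i : Fin k => c (y i.castSucc) (y i.succ)))) ∧
      (∀ c : Fin (3 ^ (k - 1) + 1) → Fin (3 ^ (k - 1) + 1) → ℕ,
          (∃ x : Fin (3 + 1) → Fin (3 ^ (k - 1) + 1), StrictMono x ∧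
              ∃ col : ℕ, ∀ i : Fin 3, c (x i.castSucc) (x i.succ) = col) ∨
          (∃ y : Fin (k + 1) → Fin (3 ^ (k - 1) + 1), StrictMono y ∧
              Function.Injective (fun i : Fin k => c (y i.castSucc) (y i.succ)))) :=
  K.s08791_of_card fun c lev V R hL hR => card_le_of_Keep hH R c lev V R (le_refl R) hL hR

end FlashRainbow.K2
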