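import Pool.Agent.Work.MP_54723a_co.K2.FullCol

/-!
# (LI), (LI-x), (LIY) => S08791  (paper: helper22, helper16, helper98; Lean: helper12)

`x < y` are the first two points, `k = c x y`.  After recolouring arcs into `k` as long as possible, the
vertices with a `k`-arc into them split by the in-height into two `k`-free sets of rank at most `R`; the
claim is that the other vertices are at most `3 ^ R`.
-/

set_option autoImplicit false

namespace FlashRainbow.K2

open Classical FlashRainbow FlashRainbow.K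

variable {c : ℕ → ℕ → ℕ} {V U T : Finset ℕ} {r R k x y : ℕ} {lev : ℕ → ℕ → ℕ}

/-- the colour `k` enters `v` -/
def InCol (c : ℕ → ℕ → ℕ) (V : Finset ℕ) (v k : ℕ) : Prop := ∃ u ∈ V, u < v ∧ c u v = k

/-- the number of `k`-arcs -/
noncomputable def cnt (c : ℕ → ℕ → ℕ) (V : Finset ℕ) (k : ℕ) : ℕ :=
  ((V ×ˢ V).filter (fun p => p.1 < p.2 ∧ c p.1 p.2 = k)).card

/-- the vertices without a `k`-arc into them -/
noncomputable def NonHeads (c : ℕ → ℕ → ℕ) (V : Finset ℕ) (k : ℕ) : Finset ℕ :=
  V.filter (fun v => ¬ InCol c V v k)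

/-- the other vertices split into two `k`-free sets of heads -/
theorem card_heads_le (hL : Lev c V 3 lev) (hR : Rk c V (R + 1)) (hB : BoundTo R) :
    V.card ≤ (NonHeads c V k).card + 2 * 3 ^ R := by
  have hN := nf_of_lev hL
  set A := V.filter (fun v => ∃ u ∈ V, u < v ∧ c u v = k ∧ InCol c V u k) with hA
  set B := V.filter (fun v => InCol c V v k ∧ ¬ ∃ u ∈ V, u < v ∧ c u v = k ∧ InCol c V u k) with hB'
  have sA : A ⊆ V := Finset.filter_subset _ _
  have sB : B ⊆ V := Finset.filter_subset _ _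
  have fA : ∀ u ∈ A, ∀ v ∈ A, u < v → c u v ≠ k := by
    intro u hu v hv huv hc
    obtain ⟨huV, w, hw, hwu, hcw, w', hw', hww', hcw'⟩ := Finset.mem_filter.mp hu
    exact hN w' hw' w hw u huV v (sA hv) hww' hwu huv (hcw'.trans hcw.symm) (hcw.trans hc.symm)
  have fB : ∀ u ∈ B, ∀ v ∈ B, u < v → c u v ≠ k := by
    intro u hu v hv huv hc
    exact (Finset.mem_filter.mp hv).2.2 ⟨u, sB hu, huv, hc, (Finset.mem_filter.mp hu).2.1⟩
  have cA : A.card ≤ 3 ^ R := hB c lev A R (le_refl R) (hL.mono sA) (rk_of_heads hR sA (by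
    intro t ht
    obtain ⟨_, w, hw, hwt, hcw, _⟩ := Finset.mem_filter.mp ht
    exact ⟨w, hw, hwt, hcw⟩) fA)
  have cB : B.card ≤ 3 ^ R := hB c lev B R (le_refl R) (hL.mono sB) (rk_of_heads hR sB (by
    intro t ht
    exact (Finset.mem_filter.mp ht).2.1) fB)
  have hsub : V ⊆ NonHeads c V k ∪ (A ∪ B) := by
    intro v hv
    by_cases h1 : InCol c V v k
    · refine Finset.mem_union_right _ ?_
      by_cases h2 : ∃ u ∈ V, u < v ∧ c u v = k ∧ InCol c V u k
      · exact Finset.mem_union_left _ (Finset.mem_filter.mpr ⟨hv, h2⟩)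
      · exact Finset.mem_union_right _ (Finset.mem_filter.mpr ⟨hv, h1, h2⟩)
    · exact Finset.mem_union_left _ (Finset.mem_filter.mpr ⟨hv, h1⟩)
  have h1 := Finset.card_le_card hsub
  have h2 := Finset.card_union_le (NonHeads c V k) (A ∪ B)
  have h3 := Finset.card_union_le A B
  omega

/-- a colouring with the largest number of `k`-arcs -/
theorem exists_sat (hN : NF c V) (hR : Rk c V R) (hk : c x y = k) :
    ∃ c' : ℕ → ℕ → ℕ, NF c' V ∧ Rk c' V R ∧ c' x y = k ∧
      ∀ c'' : ℕ → ℕ → ℕ, NF c'' V → Rk c'' V R → c'' x y = k → cnt c'' V k ≤ cnt c' V k := by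
  let P : ℕ → Prop := fun n => ∃ c' : ℕ → ℕ → ℕ, NF c' V ∧ Rk c' V R ∧ c' x y = k ∧ cnt c' V k = n
  have hb : ∀ c' : ℕ → ℕ → ℕ, cnt c' V k ≤ (V ×ˢ V).card := fun c' => Finset.card_filter_le _ _
  have hP : P (cnt c V k) := ⟨c, hN, hR, hk, rfl⟩
  obtain ⟨c', h1, h2, h3, h4⟩ := Nat.findGreatest_spec (P := P) (hb c) hP
  refine ⟨c', h1, h2, h3, fun c'' h5 h6 h7 => ?_⟩
  rw [h4]
  exact Nat.le_findGreatest (hb c'') ⟨c'', h5, h6, h7, rfl⟩

/-- the arc `x → v` gets the colour `k` -/
def rec1 (c : ℕ → ℕ → ℕ) (x v k : ℕ) : ℕ → ℕ → ℕ := fun a b => if a = x ∧ b = v then k else c a b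

/-- **saturation at the first vertex**: a `k`-isolated vertex starts a `k`-free full path -/
theorem full_of_sat {v : ℕ} (hN : NF c V) (hR : Rk c V (R + 1)) (hx : x ∈ V) (hmin : ∀ u ∈ V, x ≤ u)
    (hk : c x y = k)
    (hsat : ∀ c'' : ℕ → ℕ → ℕ, NF c'' V → Rk c'' V (R + 1) → c'' x y = k → cnt c'' V k ≤ cnt c V k)
    (hv : v ∈ V) (hxv : x < v) (hin : ¬ InCol c V v k) (hout : ¬ OutCol c V v k) :
    ∃ D, RS c V v D ∧ k ∉ D ∧ D.card = R + 1 := by
  by_contra hcon
  have hne : c x v ≠ k := fun h => hin ⟨x, hx, hxv, h⟩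
  set C := rec1 c x v k with hC
  have hCx : C x v = k := by rw [hC]; unfold rec1; rw [if_pos ⟨rfl, rfl⟩]
  have hCo : ∀ a b, ¬ (a = x ∧ b = v) → C a b = c a b := by
    intro a b h
    rw [hC]; unfold rec1; rw [if_neg h]
  have hnf : NF C V := by
    intro a ha b hb d hd e he hab hbd hde h1 h2
    have hxa := hmin a ha
    rw [hCo b d (by rintro ⟨h, _⟩; omega)] at h1 h2
    rw [hCo d e (by rintro ⟨h, _⟩; omega)] at h2
    by_cases h : a = x ∧ b = v
    · rw [h.1, h.2, hCx] at h1
      exact hout ⟨d, hd, by rw [← h.2]; exact hbd, h1.symm⟩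
    · rw [hCo a b h] at h1
      exact hN a ha b hb d hd e he hab hbd hde h1 h2
  have hold : ∀ s D, RS C V s D → x < s → RS c V s D := by
    intro s D hD
    induction hD with
    | single h => intro _; exact RS.single h
    | @step a b D h ha hlt hc ih =>
      intro hxa
      rw [hCo a b (by rintro ⟨h, _⟩; omega)] at hc ⊢
      exact RS.step (ih (by omega)) ha hlt hc
  have hrk : Rk C V (R + 1) := by
    apply rk_of_rs
    intro s D hD
    rcases Nat.lt_or_ge x s with h | h
    · exact K.RS.card_le hR (hold s D hD h)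
    · cases hD with
      | single _ => simp
      | @step _ b D hD ha hlt hc =>
        have hsx : s = x := by
          have := hmin s ha
          omega
        have hD' := hold b D hD (by omega)
        by_cases hb : s = x ∧ b = v
        · rw [hb.1, hb.2, hCx] at hc ⊢
          rw [Finset.card_insert_of_notMem hc]
          rw [hb.2] at hD'
          have h1 := K.RS.card_le hR hD'
          have h2 : D.card ≠ R + 1 := fun h => hcon ⟨D, hD', hc, h⟩
          omega
        · rw [hCo s b hb] at hc ⊢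
          exact K.RS.card_le hR (RS.step hD' ha hlt hc)
  have hy : C x y = k := by
    by_cases h : y = v
    · rw [h, hCx]
    · rw [hCo x y (by rintro ⟨_, h'⟩; exact h h'), hk]
  have h1 := hsat C hnf hrk hy
  have h2 : cnt c V k < cnt C V k := by
    apply Finset.card_lt_card
    rw [Finset.ssubset_iff_of_subset]
    · refine ⟨(x, v), ?_, ?_⟩
      · rw [Finset.mem_filter, Finset.mem_product]
        exact ⟨⟨hx, hv⟩, hxv, hCx⟩
      · rw [Finset.mem_filter]
        rintro ⟨_, _, h⟩
        exact hne h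
    · intro p hp
      obtain ⟨h3, h4, h5⟩ := Finset.mem_filter.mp hp
      refine Finset.mem_filter.mpr ⟨h3, h4, ?_⟩
      by_cases h : p.1 = x ∧ p.2 = v
      · rw [h.1, h.2, hCx]
      · rw [hCo _ _ h]; exact h5
  omega

/-- **(LI)** in the weakest form: `x < y` the first two points, `k = c x y`, the number of `k`-arcs is
maximal, every `k`-isolated vertex starts a full `k`-free path, the bound holds for the smaller ranks and
`V` is a minimal counterexample; then at most `3 ^ R` vertices have no `k`-arc into them -/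
def LIMax : Prop :=
  ∀ (c : ℕ → ℕ → ℕ) (lev : ℕ → ℕ → ℕ) (V : Finset ℕ) (R x y : ℕ), Lev c V 3 lev → Rk c V (R + 1) →
    x ∈ V → y ∈ V → x < y → (∀ v ∈ V, v ≠ x → v ≠ y → y < v) →
    (∀ c'' : ℕ → ℕ → ℕ, NF c'' V → Rk c'' V (R + 1) → c'' x y = c x y →
      cnt c'' V (c x y) ≤ cnt c V (c x y)) →
    (∀ v ∈ V, x < v → ¬ InCol c V v (c x y) → ¬ OutCol c V v (c x y) →
      ∃ D, RS c V v D ∧ c x y ∉ D ∧ D.card = R + 1) →
    BoundTo R → V.card = 3 ^ (R + 1) + 1 → (NonHeads c V (c x y)).card ≤ 3 ^ R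

theorem card_le_of_LIMax (hH : LIMax) : ∀ R : ℕ, BoundTo R := by
  intro R
  induction R with
  | zero =>
    intro c lev V r hr _ hR
    obtain rfl : r = 0 := by omega
    simpa using card_le_one_of_anch_zero (anch_of_rk hR)
  | succ R ih =>
    intro c lev V r hr hL hR
    rcases Nat.lt_or_ge r (R + 1) with h | h
    · exact ih c lev V r (by omega) hL hR
    obtain rfl : r = R + 1 := by omega
    by_contra hcon
    obtain ⟨W, hWV, hW⟩ := Finset.exists_subset_card_eq (s := V) (n := 3 ^ (R + 1) + 1) (by omega)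
    have hLW := hL.mono hWV
    have hRW : Rk c W (R + 1) := fun y D hD => hR y D (hD.mono hWV)
    have hpos : 0 < 3 ^ (R + 1) := Nat.pos_of_ne_zero (by positivity)
    have hne : W.Nonempty := Finset.card_pos.mp (by omega)
    set x := W.min' hne with hx
    have hxW : x ∈ W := W.min'_mem hne
    have hne2 : (W.erase x).Nonempty := Finset.card_pos.mp (by
      rw [Finset.card_erase_of_mem hxW]; omega)
    set y := (W.erase x).min' hne2 with hy
    have hyW' : y ∈ W.erase x := (W.erase x).min'_mem hne2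
    obtain ⟨hyx, hyW⟩ := Finset.mem_erase.mp hyW'
    have hmin : ∀ u ∈ W, x ≤ u := fun u hu => W.min'_le u hu
    have hxy : x < y := lt_of_le_of_ne (hmin y hyW) (Ne.symm hyx)
    have hrest : ∀ v ∈ W, v ≠ x → v ≠ y → y < v := by
      intro v hv h1 h2
      exact lt_of_le_of_ne ((W.erase x).min'_le v (Finset.mem_erase.mpr ⟨h1, hv⟩)) (Ne.symm h2)
    obtain ⟨c', h1, h2, h3, h4⟩ := exists_sat (nf_of_lev hLW) hRW (rfl : c x y = c x y)
    obtain ⟨lev', hL'⟩ := exists_lev h1
    have h5 := hH c' lev' W R x y hL' h2 hxW hyW hxy hrest (by rw [h3]; exact h4) (by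
      intro v hv hxv hin hout
      rw [h3] at hin hout ⊢
      exact full_of_sat h1 h2 hxW hmin h3 h4 hv hxv hin hout) ih hW
    have h6 := card_heads_le (k := c' x y) hL' h2 ih
    rw [pow_succ] at hW
    omega

/-- **(LI) implies S08791** -/
theorem s08791_of_LIMax (hH : LIMax) :
    ∀ k : ℕ, 1 ≤ k →
      (∃ c : Fin (3 ^ (k - 1)) → Fin (3 ^ (k - 1)) → ℕ,
          (¬ ∃ x : Fin (3 + 1) → Fin (3 ^ (k - 1)), StrictMono x ∧
              ∃ col : ℕ, ∀ i : Fin 3, c (x i.castSucc) (x i.succ) = col) ∧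
          (¬ ∃ y : Fin (k + 1) → Fin (3 ^ (k - 1)), StrictMono y ∧
              Function.Injective (fun i : Fin k => c (y i.castSucc) (y i.succ)))) ∧
      (∀ c : Fin (3 ^ (k - 1) + 1) → Fin (3 ^ (k - 1) + 1) → ℕ,
          (∃ x : Fin (3 + 1) → Fin (3 ^ (k - 1) + 1), StrictMono x ∧
              ∃ col : ℕ, ∀ i : Fin 3, c (x i.castSucc) (x i.succ) = col) ∨
          (∃ y : Fin (k + 1) → Fin (3 ^ (k - 1) + 1), StrictMono y ∧
              Function.Injective (fun i : Fin k => c (y i.castSucc) (y i.succ)))) :=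
  K.s08791_of_card fun c lev V R hL hR => card_le_of_LIMax hH R c lev V R (le_refl R) hL hR

/-- **(LIY)** (helper98): `y` is the first point, `k`-free rainbow paths from `y` have at most `R` arcs,
`k`-neighbours of `y` have no `k`-arc out; then the vertices `v ≠ y` without a `k`-arc into them which
have a `k`-arc out or start a full `k`-free path are at most `3 ^ R - 1` -/
def LIY : Prop :=
  ∀ (c : ℕ → ℕ → ℕ) (lev : ℕ → ℕ → ℕ) (V : Finset ℕ) (R y k : ℕ), Lev c V 3 lev → Rk c V (R + 1) →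
    y ∈ V → (∀ v ∈ V, v ≠ y → y < v) →
    (∀ v ∈ V, y < v → c y v = k → ¬ OutCol c V v k) →
    (∀ D, RS c V y D → k ∉ D → D.card ≤ R) → BoundTo R →
    (V.filter (fun v => v ≠ y ∧ ¬ InCol c V v k ∧
      (OutCol c V v k ∨ ∃ D, RS c V v D ∧ k ∉ D ∧ D.card = R + 1))).card + 1 ≤ 3 ^ R

theorem limax_of_liy (hH : LIY) : LIMax := by
  intro c lev V R x y hL hR hx hy hxy hrest _ hfull hB _
  set k := c x y with hk
  have hN := nf_of_lev hL
  have hsub : V.erase x ⊆ V := Finset.erase_subset _ _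
  have hmin : ∀ u ∈ V.erase x, u ≠ y → y < u := fun u hu h =>
    hrest u (Finset.mem_of_mem_erase hu) (Finset.ne_of_mem_erase hu) h
  have hyE : y ∈ V.erase x := Finset.mem_erase.mpr ⟨by omega, hy⟩
  have h1 := hH c lev (V.erase x) R y k (hL.mono hsub) (fun z D hD => hR z D (hD.mono hsub)) hyE hmin
    (by
      intro v hv hyv hc
      rintro ⟨w, hw, hvw, hcw⟩
      exact hN x hx y hy v (hsub hv) w (hsub hw) hxy hyv hvw (hk.symm.trans hc.symm)
        (hc.trans hcw.symm))
    (by
      intro D hD hkD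
      have h2 := K.RS.card_le hR (RS.step (hD.mono hsub) hx hxy (by rw [← hk]; exact hkD))
      rw [← hk, Finset.card_insert_of_notMem hkD] at h2
      omega) hB
  have hlt : ∀ v ∈ V, v ≠ x → x < v := by
    intro v hv h
    by_cases h2 : v = y
    · omega
    · have := hrest v hv h h2
      omega
  have h2 : NonHeads c V k ⊆ insert x ((V.erase x).filter (fun v => v ≠ y ∧ ¬ InCol c (V.erase x) v k ∧
      (OutCol c (V.erase x) v k ∨ ∃ D, RS c (V.erase x) v D ∧ k ∉ D ∧ D.card = R + 1))) := by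
    intro v hv
    obtain ⟨hvV, hvin⟩ := Finset.mem_filter.mp hv
    by_cases hvx : v = x
    · rw [hvx]; exact Finset.mem_insert_self _ _
    have hxv := hlt v hvV hvx
    have hvy : v ≠ y := by
      rintro rfl
      exact hvin ⟨x, hx, hxy, hk.symm⟩
    refine Finset.mem_insert_of_mem (Finset.mem_filter.mpr
      ⟨Finset.mem_erase.mpr ⟨hvx, hvV⟩, hvy, ?_, ?_⟩)
    · rintro ⟨u, hu, h⟩
      exact hvin ⟨u, hsub hu, h⟩
    · by_cases hout : OutCol c V v k
      · left
        obtain ⟨w, hw, hvw, hcw⟩ := hout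
        exact ⟨w, Finset.mem_erase.mpr ⟨by omega, hw⟩, hvw, hcw⟩
      · right
        obtain ⟨D, hD, hkD, hcard⟩ := hfull v hvV hxv hvin hout
        refine ⟨D, ?_, hkD, hcard⟩
        clear hkD hcard
        have key : ∀ s D, RS c V s D → x < s → RS c (V.erase x) s D := by
          intro s D hD
          induction hD with
          | single h =>
            intro hs
            exact RS.single (Finset.mem_erase.mpr ⟨by omega, h⟩)
          | @step a b D h ha hlt hc ih =>
            intro hxa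
            exact RS.step (ih (by omega)) (Finset.mem_erase.mpr ⟨by omega, ha⟩) hlt hc
        exact key v D hD hxv
  have h3 := Finset.card_le_card h2
  have h4 := Finset.card_insert_le x ((V.erase x).filter (fun v => v ≠ y ∧ ¬ InCol c (V.erase x) v k ∧
      (OutCol c (V.erase x) v k ∨ ∃ D, RS c (V.erase x) v D ∧ k ∉ D ∧ D.card = R + 1)))
  omega

end FlashRainbow.K2
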