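import Pool.Agent.Work.MP_54723a_co.K2.FrontH

/-!
# The labelled two-level form (LAB2) => S08791  (paper proof: helper55; Lean: helper12)
-/

set_option autoImplicit false

namespace FlashRainbow.K2

open Classical FlashRainbow FlashRainbow.K

variable {c : ℕ → ℕ → ℕ} {V U T : Finset ℕ} {r R k : ℕ} {lev : ℕ → ℕ → ℕ} {f : ℕ → ℕ}

/-- (LAB2): a labelled set in which the label of the first vertex has no 2-flash is small -/
def LabTwo : Prop :=
  ∀ (c : ℕ → ℕ → ℕ) (lev : ℕ → ℕ → ℕ) (V : Finset ℕ) (r x : ℕ) (f : ℕ → ℕ), Lev c V 3 lev →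
    LAB c V (r + 1) f → x ∈ V → (∀ v ∈ V, x ≤ v) →
    (∀ a ∈ V, ∀ b ∈ V, ∀ d ∈ V, a < b → b < d → c a b = f x → c b d ≠ f x) →
    (∀ (c' : ℕ → ℕ → ℕ) (lev' : ℕ → ℕ → ℕ) (V' : Finset ℕ) (f' : ℕ → ℕ), ∀ r' ≤ r,
      Lev c' V' 3 lev' → LAB c' V' r' f' → V'.card + 2 ^ r' ≤ 3 ^ r') →
    V.card + 2 ^ r ≤ 2 * 3 ^ r

/-- a path all of whose vertices have a `k`-edge can be prolonged by `k` -/
theorem rs_append {v : ℕ} {D : Finset ℕ} (h : RS c T v D) (hT : T ⊆ V)
    (hout : ∀ t ∈ T, OutCol c V t k) : k ∉ D → RS c V v (insert k D) := by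
  induction h with
  | @single t ht =>
    intro _
    obtain ⟨w, hw, h1, h2⟩ := hout t ht
    have := RS.step (c := c) (RS.single hw) (hT ht) h1 (Finset.notMem_empty _)
    rw [h2] at this
    exact this
  | @step a b D h ha hlt hc ih =>
    intro hk
    rw [Finset.mem_insert, not_or] at hk
    have h1 := RS.step (ih hk.2) (hT ha) hlt (by
      rw [Finset.mem_insert, not_or]
      exact ⟨fun h => hk.1 h.symm, hc⟩)
    rw [Finset.insert_comm] at h1
    exact h1

theorem lab_level (hV : LAB c V (r + 1) f) (hT : T ⊆ V) (hout : ∀ t ∈ T, OutCol c V t k)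
    (hfree : ∀ u ∈ T, ∀ v ∈ T, u < v → c u v ≠ k) : LAB c T r f := by
  refine ⟨fun v hv h => hV.notOut v (hT hv) (h.mono hT), fun v hv D hD hfv => ?_⟩
  have hk : k ∉ D := by
    obtain ⟨z, hz⟩ := hD.join (Finset.Subset.refl T) ∅ (RP.single hD.mem)
      (Finset.disjoint_empty_right _)
    rw [Finset.empty_union] at hz
    exact hz.notMem_of_free hfree
  have hne : f v ≠ k := fun h => hV.notOut v (hT hv) (by rw [h]; exact hout v hv)
  have h1 := hV.short v (hT hv) _ (rs_append hD hT hout hk) (by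
    rw [Finset.mem_insert, not_or]
    exact ⟨hne, hfv⟩)
  rw [Finset.card_insert_of_notMem hk] at h1
  omega

theorem lab_bound (hH : LabTwo) : ∀ (n r : ℕ), r ≤ n → ∀ (c : ℕ → ℕ → ℕ) (lev : ℕ → ℕ → ℕ)
    (V : Finset ℕ) (f : ℕ → ℕ), Lev c V 3 lev → LAB c V r f → V.card + 2 ^ r ≤ 3 ^ r := by
  intro n
  induction n with
  | zero =>
    intro r hr c lev V f _ hV
    obtain rfl : r = 0 := by omega
    rw [LAB.zero hV]
    simp
  | succ n ih =>
    intro r hr c lev V f hL hV
    rcases Nat.lt_or_ge r (n + 1) with h | h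
    · exact ih r (by omega) c lev V f hL hV
    obtain rfl : r = n + 1 := by omega
    have hN := nf_of_lev hL
    rcases V.eq_empty_or_nonempty with rfl | hne
    · have := Nat.pow_le_pow_left (show 2 ≤ 3 by norm_num) (n + 1)
      simpa using this
    set x := V.min' hne with hx
    have hxV : x ∈ V := V.min'_mem hne
    have hxmin : ∀ v ∈ V, x ≤ v := fun v hv => V.min'_le v hv
    set k := f x with hk
    have hxk : ¬ OutCol c V x k := hV.notOut x hxV
    set A := V.filter (fun v => ∃ w ∈ V, v < w ∧ c v w = k ∧ OutCol c V w k) with hA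
    set B := V.filter (fun v => OutCol c V v k ∧ ¬ ∃ w ∈ V, v < w ∧ c v w = k ∧ OutCol c V w k)
      with hB
    have hAV : A ⊆ V := Finset.filter_subset _ _
    have hBV : B ⊆ V := Finset.filter_subset _ _
    -- `A` and `B` are free of `k`
    have hAfree : ∀ u ∈ A, ∀ v ∈ A, u < v → c u v ≠ k := by
      intro u hu v hv huv hc
      obtain ⟨w, hw, hvw, hcw, w', hw', hww', hcw'⟩ := (Finset.mem_filter.mp hv).2
      exact hN u (hAV hu) v (hAV hv) w hw w' hw' huv hvw hww' (hc.trans hcw.symm)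
        (hcw.trans hcw'.symm)
    have hBfree : ∀ u ∈ B, ∀ v ∈ B, u < v → c u v ≠ k := by
      intro u hu v hv huv hc
      exact (Finset.mem_filter.mp hu).2.2 ⟨v, hBV hv, huv, hc, (Finset.mem_filter.mp hv).2.1⟩
    have hAl := ih n (le_refl n) c lev A f (hL.mono hAV) (lab_level hV hAV (by
      intro t ht
      obtain ⟨w, hw, h1, h2, _⟩ := (Finset.mem_filter.mp ht).2
      exact ⟨w, hw, h1, h2⟩) hAfree)
    have hBl := ih n (le_refl n) c lev B f (hL.mono hBV) (lab_level hV hBV (by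
      intro t ht
      exact (Finset.mem_filter.mp ht).2.1) hBfree)
    have hxA : x ∉ A := by
      intro h
      obtain ⟨w, hw, h1, h2, _⟩ := (Finset.mem_filter.mp h).2
      exact hxk ⟨w, hw, h1, h2⟩
    have hxB : x ∉ B := fun h => hxk (Finset.mem_filter.mp h).2.1
    have e1 := hH c lev (V \ A) n x f (hL.mono Finset.sdiff_subset)
      (hV.mono Finset.sdiff_subset) (Finset.mem_sdiff.mpr ⟨hxV, hxA⟩)
      (fun v hv => hxmin v (Finset.mem_sdiff.mp hv).1)
      (by
        intro a ha b hb d hd hab hbd h1 h2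
        obtain ⟨haV, haA⟩ := Finset.mem_sdiff.mp ha
        exact haA (Finset.mem_filter.mpr ⟨haV, b, (Finset.mem_sdiff.mp hb).1, hab, h1,
          d, (Finset.mem_sdiff.mp hd).1, hbd, h2⟩))
      (fun c' lev' V' f' r' hr' h1 h2 => ih r' hr' c' lev' V' f' h1 h2)
    have e2 := hH c lev (V \ B) n x f (hL.mono Finset.sdiff_subset)
      (hV.mono Finset.sdiff_subset) (Finset.mem_sdiff.mpr ⟨hxV, hxB⟩)
      (fun v hv => hxmin v (Finset.mem_sdiff.mp hv).1)
      (by
        intro a ha b hb d hd hab hbd h1 h2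
        obtain ⟨hbV, hbB⟩ := Finset.mem_sdiff.mp hb
        have h3 : ∃ w ∈ V, b < w ∧ c b w = k ∧ OutCol c V w k := by
          by_contra hcon
          exact hbB (Finset.mem_filter.mpr ⟨hbV, ⟨d, (Finset.mem_sdiff.mp hd).1, hbd, h2⟩, hcon⟩)
        obtain ⟨w, hw, hbw, hcw, w', hw', hww', hcw'⟩ := h3
        exact hN a (Finset.mem_sdiff.mp ha).1 b hbV w hw w' hw' hab hbw hww' (h1.trans hcw.symm)
          (hcw.trans hcw'.symm))
      (fun c' lev' V' f' r' hr' h1 h2 => ih r' hr' c' lev' V' f' h1 h2)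
    have a1 := Finset.card_sdiff_add_card_eq_card hAV
    have a2 := Finset.card_sdiff_add_card_eq_card hBV
    rw [pow_succ, pow_succ]
    omega

/-- **(LAB2) implies S08791** -/
theorem s08791_of_LabTwo (hH : LabTwo) :
    ∀ k : ℕ, 1 ≤ k →
      (∃ c : Fin (3 ^ (k - 1)) → Fin (3 ^ (k - 1)) → ℕ,
          (¬ ∃ x : Fin (3 + 1) → Fin (3 ^ (k - 1)), StrictMono x ∧
              ∃ col : ℕ, ∀ i : Fin 3, c (x i.castSucc) (x i.succ) = col) ∧
          (¬ ∃ y : Fin (k + 1) → Fin (3 ^ (k - 1)), StrictMono y ∧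
              Function.Injective (fun i : Fin k => c (y i.castSucc) (y i.succ)))) ∧
      (∀ c : Fin (3 ^ (k - 1) + 1) → Fin (3 ^ (k - 1) + 1) → ℕ,
          (∃ x : Fin (3 + 1) → Fin (3 ^ (k - 1) + 1), StrictMono x ∧
              ∃ col : ℕ, ∀ i : Fin 3, c (x i.castSucc) (x i.succ) = col) ∨
          (∃ y : Fin (k + 1) → Fin (3 ^ (k - 1) + 1), StrictMono y ∧
              Function.Injective (fun i : Fin k => c (y i.castSucc) (y i.succ)))) :=
  K.s08791_of_card fun c lev V R hL hR => by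
    obtain ⟨U, hU, f, hf, hcard⟩ := K.reduce hL hR
    have h1 := lab_bound hH R R (le_refl R) c lev U f (hL.mono hU) hf
    omega

end FlashRainbow.K2
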