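import Pool.Agent.Work.MP_54723a_co.CF.Extremal
import Pool.Agent.Work.MP_54723a_co.CF.Limit
import Pool.Agent.Work.MP_54723a_co.LemmaS

/-!
# The LYM route to `f(3, k) = 3 ^ (k - 1)`: reduction to one step  (helper53)

`thr c D v` is the largest number of edges of a rainbow path of `D` through `v`.

* `lym_of_avg` : if every `D` with at least two points has finitely many proper subsets `W i` with
  weights `lam i ≥ 0`, `∑ lam i = 1`, such that
  `(1/3) ^ thr D v ≤ ∑_{i, v ∈ W i} lam i (1/3) ^ thr (W i) v` for all `v ∈ D`,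
  then `∑_{v ∈ D} (1/3) ^ thr D v ≤ 1` for all `D`.
* `star_of` : the special case of three parts (source: helper11).
* `main_of_avg`, `main_of_star` : the statement of the problem.
-/

set_option autoImplicit false

namespace FlashRainbow.K2

open Classical

variable {c : ℕ → ℕ → ℕ} {D D' : Finset ℕ} {v r R : ℕ} {lev : ℕ → ℕ → ℕ}

/-- the colours of `D` -/
def cols (c : ℕ → ℕ → ℕ) (D : Finset ℕ) : Finset ℕ := (D ×ˢ D).image fun p => c p.1 p.2

theorem mem_cols {u w : ℕ} (hu : u ∈ D) (hw : w ∈ D) : c u w ∈ cols c D :=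
  Finset.mem_image.mpr ⟨(u, w), Finset.mem_product.mpr ⟨hu, hw⟩, rfl⟩

theorem rp_cols {x : ℕ} {A : Finset ℕ} (h : RP c D x A) : A ⊆ cols c D := by
  induction h with
  | single _ => exact Finset.empty_subset _
  | @step x y A h hy hlt hc ih => exact Finset.insert_subset (mem_cols h.mem hy) ih

theorem rs_cols {x : ℕ} {A : Finset ℕ} (h : RS c D x A) : A ⊆ cols c D := by
  induction h with
  | single _ => exact Finset.empty_subset _
  | @step x y A h hx hlt hc ih => exact Finset.insert_subset (mem_cols hx h.mem) ih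

/-- the largest number of edges of a rainbow path of `D` through `v` -/
noncomputable def thr (c : ℕ → ℕ → ℕ) (D : Finset ℕ) (v : ℕ) : ℕ :=
  (((cols c D).powerset ×ˢ (cols c D).powerset).filter fun p =>
    RP c D v p.1 ∧ RS c D v p.2 ∧ Disjoint p.1 p.2).sup fun p => p.1.card + p.2.card

theorem le_thr {A B : Finset ℕ} (hA : RP c D v A) (hB : RS c D v B) (hAB : Disjoint A B) :
    A.card + B.card ≤ thr c D v := by
  have hmem : (A, B) ∈ ((cols c D).powerset ×ˢ (cols c D).powerset).filter fun p =>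
      RP c D v p.1 ∧ RS c D v p.2 ∧ Disjoint p.1 p.2 :=
    Finset.mem_filter.mpr ⟨Finset.mem_product.mpr ⟨Finset.mem_powerset.mpr (rp_cols hA),
      Finset.mem_powerset.mpr (rs_cols hB)⟩, hA, hB, hAB⟩
  exact Finset.le_sup (f := fun p : Finset ℕ × Finset ℕ => p.1.card + p.2.card) hmem

theorem thr_le (h : ∀ A B, RP c D v A → RS c D v B → Disjoint A B → A.card + B.card ≤ r) :
    thr c D v ≤ r := by
  refine Finset.sup_le fun p hp => ?_
  obtain ⟨-, h1, h2, h3⟩ := Finset.mem_filter.mp hp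
  exact h _ _ h1 h2 h3

theorem thr_mono (h : D' ⊆ D) : thr c D' v ≤ thr c D v :=
  thr_le fun _ _ hA hB hAB => le_thr (hA.mono h) (hB.mono h) hAB

theorem thr_le_rank (hR : Rk c D R) : thr c D v ≤ R := by
  refine thr_le fun A B hA hB hAB => ?_
  obtain ⟨y, hy⟩ := hB.join (Finset.Subset.refl D) A hA hAB.symm
  have := hR _ _ hy
  rwa [Finset.card_union_of_disjoint hAB] at this

/-- the step, averaged form -/
def AvgStep (c : ℕ → ℕ → ℕ) (D : Finset ℕ) : Prop :=
  ∃ (n : ℕ) (W : ℕ → Finset ℕ) (lam : ℕ → ℝ), (∀ i < n, 0 ≤ lam i) ∧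
    ∑ i ∈ Finset.range n, lam i = 1 ∧ (∀ i < n, W i ⊂ D) ∧
    ∀ v ∈ D, (1 / 3 : ℝ) ^ thr c D v ≤
      ∑ i ∈ Finset.range n, if v ∈ W i then lam i * (1 / 3 : ℝ) ^ thr c (W i) v else 0

theorem lym_of_avg (h : ∀ (c lev : ℕ → ℕ → ℕ) (D : Finset ℕ), Lev c D 3 lev → 2 ≤ D.card →
    AvgStep c D) : ∀ (c lev : ℕ → ℕ → ℕ) (D : Finset ℕ), Lev c D 3 lev →
      ∑ v ∈ D, (1 / 3 : ℝ) ^ thr c D v ≤ 1 := by
  intro c lev D
  induction D using Finset.strongInduction with
  | _ D ih =>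
  intro hL
  rcases Nat.lt_or_ge D.card 2 with hD | hD
  · calc ∑ v ∈ D, (1 / 3 : ℝ) ^ thr c D v ≤ ∑ _v ∈ D, (1 : ℝ) :=
          Finset.sum_le_sum fun v _ => pow_le_one₀ (by norm_num) (by norm_num)
      _ = D.card := by simp
      _ ≤ 1 := by
        have : D.card ≤ 1 := by omega
        exact_mod_cast this
  · obtain ⟨n, W, lam, h0, h1, hW, hv⟩ := h c lev D hL hD
    calc ∑ v ∈ D, (1 / 3 : ℝ) ^ thr c D v
        ≤ ∑ v ∈ D, ∑ i ∈ Finset.range n,
            (if v ∈ W i then lam i * (1 / 3 : ℝ) ^ thr c (W i) v else 0) :=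
          Finset.sum_le_sum hv
      _ = ∑ i ∈ Finset.range n, ∑ v ∈ D,
            (if v ∈ W i then lam i * (1 / 3 : ℝ) ^ thr c (W i) v else 0) := Finset.sum_comm
      _ = ∑ i ∈ Finset.range n, lam i * ∑ v ∈ W i, (1 / 3 : ℝ) ^ thr c (W i) v := by
          refine Finset.sum_congr rfl fun i hi => ?_
          rw [← Finset.sum_filter, Finset.mul_sum]
          refine Finset.sum_congr ?_ fun _ _ => rfl
          ext v
          rw [Finset.mem_filter]
          exact ⟨fun h => h.2, fun h => ⟨(hW i (Finset.mem_range.mp hi)).subset h, h⟩⟩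
      _ ≤ ∑ i ∈ Finset.range n, lam i * 1 := by
          refine Finset.sum_le_sum fun i hi => ?_
          have hi' := Finset.mem_range.mp hi
          exact mul_le_mul_of_nonneg_left
            (ih (W i) (hW i hi') (hL.mono (hW i hi').subset)) (h0 i hi')
      _ = 1 := by rw [← Finset.sum_mul, h1, one_mul]

theorem card_le_of_avg (h : ∀ (c lev : ℕ → ℕ → ℕ) (D : Finset ℕ), Lev c D 3 lev → 2 ≤ D.card →
    AvgStep c D) (hL : Lev c D 3 lev) (hR : Rk c D R) : D.card ≤ 3 ^ R := by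
  have h1 := lym_of_avg h c lev D hL
  have h2 : (D.card : ℝ) * (1 / 3 : ℝ) ^ R ≤ 1 := by
    calc (D.card : ℝ) * (1 / 3 : ℝ) ^ R = ∑ _v ∈ D, (1 / 3 : ℝ) ^ R := by
          rw [Finset.sum_const, nsmul_eq_mul]
      _ ≤ ∑ v ∈ D, (1 / 3 : ℝ) ^ thr c D v := Finset.sum_le_sum fun v _ =>
          pow_le_pow_of_le_one (by norm_num) (by norm_num) (thr_le_rank hR)
      _ ≤ 1 := h1
  have h3 : (D.card : ℝ) ≤ 3 ^ R := by
    have h4 : (0 : ℝ) < 3 ^ R := by positivity
    rw [one_div, inv_pow, ← div_eq_mul_inv, div_le_one h4] at h2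
    exact h2
  exact_mod_cast h3

theorem good_pow : ∀ k : ℕ, 1 ≤ k → CF.Limit.Good (3 ^ (k - 1)) k := by
  intro k
  induction k with
  | zero => intro h; omega
  | succ k ih =>
    intro _
    rcases Nat.eq_zero_or_pos k with rfl | hk
    · exact CF.Limit.good_one (le_refl _)
    · have h1 := (ih hk).tri
      have h2 : 3 ^ (k + 1 - 1) = 3 * 3 ^ (k - 1) := by
        obtain ⟨j, rfl⟩ : ∃ j, k = j + 1 := ⟨k - 1, by omega⟩
        rw [Nat.add_sub_cancel, Nat.add_sub_cancel, pow_succ]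
        ring
      rw [h2]
      exact h1

/-- **the statement of the problem** (both halves, literally) from the upper bound for finite
sets of natural numbers -/
theorem main_of_card (h : ∀ (c lev : ℕ → ℕ → ℕ) (D : Finset ℕ) (R : ℕ), Lev c D 3 lev →
    Rk c D R → D.card ≤ 3 ^ R) :
    ∀ k : ℕ, 1 ≤ k →
      (∃ c : Fin (3 ^ (k - 1)) → Fin (3 ^ (k - 1)) → ℕ,
          (¬ ∃ x : Fin (3 + 1) → Fin (3 ^ (k - 1)), StrictMono x ∧
              ∃ col : ℕ, ∀ i : Fin 3, c (x i.castSucc) (x i.succ) = col) ∧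
          (¬ ∃ y : Fin (k + 1) → Fin (3 ^ (k - 1)), StrictMono y ∧
              Function.Injective (fun i : Fin k => c (y i.castSucc) (y i.succ)))) ∧
      (∀ c : Fin (3 ^ (k - 1) + 1) → Fin (3 ^ (k - 1) + 1) → ℕ,
          (∃ x : Fin (3 + 1) → Fin (3 ^ (k - 1) + 1), StrictMono x ∧
              ∃ col : ℕ, ∀ i : Fin 3, c (x i.castSucc) (x i.succ) = col) ∨
          (∃ y : Fin (k + 1) → Fin (3 ^ (k - 1) + 1), StrictMono y ∧
              Function.Injective (fun i : Fin k => c (y i.castSucc) (y i.succ)))) := by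
  intro k hk
  refine ⟨good_pow k hk, fun c => ?_⟩
  exact CF.three_final (K := 1) (fun c V lev R hL hR _ => by
    rw [one_mul]
    exact h c lev V R hL hR) k _ hk (by omega) c

theorem main_of_avg (h : ∀ (c lev : ℕ → ℕ → ℕ) (D : Finset ℕ), Lev c D 3 lev → 2 ≤ D.card →
    AvgStep c D) :
    ∀ k : ℕ, 1 ≤ k →
      (∃ c : Fin (3 ^ (k - 1)) → Fin (3 ^ (k - 1)) → ℕ,
          (¬ ∃ x : Fin (3 + 1) → Fin (3 ^ (k - 1)), StrictMono x ∧
              ∃ col : ℕ, ∀ i : Fin 3, c (x i.castSucc) (x i.succ) = col) ∧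
          (¬ ∃ y : Fin (k + 1) → Fin (3 ^ (k - 1)), StrictMono y ∧
              Function.Injective (fun i : Fin k => c (y i.castSucc) (y i.succ)))) ∧
      (∀ c : Fin (3 ^ (k - 1) + 1) → Fin (3 ^ (k - 1) + 1) → ℕ,
          (∃ x : Fin (3 + 1) → Fin (3 ^ (k - 1) + 1), StrictMono x ∧
              ∃ col : ℕ, ∀ i : Fin 3, c (x i.castSucc) (x i.succ) = col) ∨
          (∃ y : Fin (k + 1) → Fin (3 ^ (k - 1) + 1), StrictMono y ∧
              Function.Injective (fun i : Fin k => c (y i.castSucc) (y i.succ)))) :=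
  main_of_card fun _ _ _ _ hL hR => card_le_of_avg h hL hR

/-- the step with three parts (helper11's (STAR'), without reference to a colour): every vertex
is in all three parts, or it gains one in some part -/
def StarStep (c : ℕ → ℕ → ℕ) (D : Finset ℕ) : Prop :=
  ∃ P : ℕ → Finset ℕ, (∀ q < 3, P q ⊂ D) ∧
    ∀ v ∈ D, (∀ q < 3, v ∈ P q) ∨ ∃ q < 3, v ∈ P q ∧ thr c (P q) v + 1 ≤ thr c D v

theorem StarStep.avg (h : StarStep c D) : AvgStep c D := by
  obtain ⟨P, hP, hv⟩ := h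
  refine ⟨3, P, fun _ => 1 / 3, fun _ _ => by norm_num, by norm_num, hP, ?_⟩
  intro v hvD
  have hmono : ∀ q < 3, v ∈ P q →
      (1 / 3 : ℝ) * (1 / 3 : ℝ) ^ thr c D v ≤ if v ∈ P q then
        1 / 3 * (1 / 3 : ℝ) ^ thr c (P q) v else 0 := by
    intro q hq hvq
    rw [if_pos hvq]
    exact mul_le_mul_of_nonneg_left (pow_le_pow_of_le_one (by norm_num) (by norm_num)
      (thr_mono (hP q hq).subset)) (by norm_num)
  rcases hv v hvD with hall | ⟨q, hq, hvq, hgain⟩
  · calc (1 / 3 : ℝ) ^ thr c D v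
        = ∑ _q ∈ Finset.range 3, (1 / 3 : ℝ) * (1 / 3 : ℝ) ^ thr c D v := by
          rw [Finset.sum_const, Finset.card_range, nsmul_eq_mul]
          push_cast
          ring
      _ ≤ _ := Finset.sum_le_sum fun q hq =>
          hmono q (Finset.mem_range.mp hq) (hall q (Finset.mem_range.mp hq))
  · calc (1 / 3 : ℝ) ^ thr c D v ≤ (1 / 3 : ℝ) ^ (thr c (P q) v + 1) :=
          pow_le_pow_of_le_one (by norm_num) (by norm_num) hgain
      _ = (if v ∈ P q then 1 / 3 * (1 / 3 : ℝ) ^ thr c (P q) v else 0) := by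
          rw [if_pos hvq, pow_succ]
          ring
      _ ≤ _ := Finset.single_le_sum (f := fun q => if v ∈ P q then
          1 / 3 * (1 / 3 : ℝ) ^ thr c (P q) v else 0) (fun i _ => by
            split_ifs
            · positivity
            · exact le_refl _) (Finset.mem_range.mpr hq)

theorem main_of_star (h : ∀ (c lev : ℕ → ℕ → ℕ) (D : Finset ℕ), Lev c D 3 lev → 2 ≤ D.card →
    StarStep c D) :
    ∀ k : ℕ, 1 ≤ k →
      (∃ c : Fin (3 ^ (k - 1)) → Fin (3 ^ (k - 1)) → ℕ,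
          (¬ ∃ x : Fin (3 + 1) → Fin (3 ^ (k - 1)), StrictMono x ∧
              ∃ col : ℕ, ∀ i : Fin 3, c (x i.castSucc) (x i.succ) = col) ∧
          (¬ ∃ y : Fin (k + 1) → Fin (3 ^ (k - 1)), StrictMono y ∧
              Function.Injective (fun i : Fin k => c (y i.castSucc) (y i.succ)))) ∧
      (∀ c : Fin (3 ^ (k - 1) + 1) → Fin (3 ^ (k - 1) + 1) → ℕ,
          (∃ x : Fin (3 + 1) → Fin (3 ^ (k - 1) + 1), StrictMono x ∧
              ∃ col : ℕ, ∀ i : Fin 3, c (x i.castSucc) (x i.succ) = col) ∨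
          (∃ y : Fin (k + 1) → Fin (3 ^ (k - 1) + 1), StrictMono y ∧
              Function.Injective (fun i : Fin k => c (y i.castSucc) (y i.succ)))) :=
  main_of_avg fun c lev D hL hD => (h c lev D hL hD).avg

end FlashRainbow.K2
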