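import Pool.Agent.Work.MP_54723a_co.K2.Diag0

/-!
# General skeletons for `S08791`  (helper87)

* `s08791_of_states`: any kind of states with a size; three children, rank one less, total size at
  least the size of the parent.
* `s08791_of_threeSat`: the two-anchor step where the colouring may first be changed (saturated
  form): some colouring `c'` of (some set at least as large as) `V` in the same class has the three
  sets.
-/

set_option autoImplicit false

namespace FlashRainbow.K2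

open Classical FlashRainbow

/-- the game/decision-tree skeleton with abstract states -/
theorem size_le_of_states {σ : Type} (size : σ → ℕ) (P : ℕ → σ → Prop)
    (zero : ∀ s, P 0 s → size s ≤ 1)
    (step : ∀ R s, P (R + 1) s → 2 ≤ size s →
      ∃ t : Fin 3 → σ, (∀ i, P R (t i)) ∧ size s ≤ ∑ i, size (t i)) :
    ∀ R s, P R s → size s ≤ 3 ^ R := by
  intro R
  induction R with
  | zero => intro s hs; simpa using zero s hs
  | succ R ih =>
    intro s hs
    by_cases h2 : 2 ≤ size s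
    · obtain ⟨t, ht, hc⟩ := step R s hs h2
      calc size s ≤ ∑ i, size (t i) := hc
        _ ≤ ∑ i : Fin 3, 3 ^ R := Finset.sum_le_sum fun i _ => ih (t i) (ht i)
        _ = 3 ^ (R + 1) := by
            rw [Finset.sum_const, Finset.card_univ, Fintype.card_fin, smul_eq_mul, pow_succ]
            ring
    · have : 1 ≤ 3 ^ (R + 1) := Nat.one_le_pow _ _ (by norm_num)
      omega

/-- **states imply S08791** -/
theorem s08791_of_states {σ : Type} (size : σ → ℕ) (P : ℕ → σ → Prop)
    (root : ∀ (c : ℕ → ℕ → ℕ) (lev : ℕ → ℕ → ℕ) (V : Finset ℕ) (R : ℕ),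
      Lev c V 3 lev → Rk c V R → ∃ s, P R s ∧ V.card ≤ size s)
    (zero : ∀ s, P 0 s → size s ≤ 1)
    (step : ∀ R s, P (R + 1) s → 2 ≤ size s →
      ∃ t : Fin 3 → σ, (∀ i, P R (t i)) ∧ size s ≤ ∑ i, size (t i)) :
    ∀ k : ℕ, 1 ≤ k →
      (∃ c : Fin (3 ^ (k - 1)) → Fin (3 ^ (k - 1)) → ℕ,
          (¬ ∃ x : Fin (3 + 1) → Fin (3 ^ (k - 1)), StrictMono x ∧
              ∃ col : ℕ, ∀ i : Fin 3, c (x i.castSucc) (x i.succ) = col) ∧
          (¬ ∃ y : Fin (k + 1) → Fin (3 ^ (k - 1)), StrictMono y ∧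
              Function.Injective (fun i : Fin k => c (y i.castSucc) (y i.succ)))) ∧
      (∀ c : Fin (3 ^ (k - 1) + 1) → Fin (3 ^ (k - 1) + 1) → ℕ,
          (∃ x : Fin (3 + 1) → Fin (3 ^ (k - 1) + 1), StrictMono x ∧
              ∃ col : ℕ, ∀ i : Fin 3, c (x i.castSucc) (x i.succ) = col) ∨
          (∃ y : Fin (k + 1) → Fin (3 ^ (k - 1) + 1), StrictMono y ∧
              Function.Injective (fun i : Fin k => c (y i.castSucc) (y i.succ)))) :=
  K.s08791_of_card fun c lev V R hL hR => by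
    obtain ⟨s, hs, hc⟩ := root c lev V R hL hR
    exact hc.trans (size_le_of_states size P zero step R s hs)

/-- the two-anchor step with a change of the colouring: `V'` is at least as large as `V`, in the same
class for the colouring `c'`, and has the three sets (each with its own colouring and levels) -/
def ThreeSat : Prop :=
  ∀ (c : ℕ → ℕ → ℕ) (lev : ℕ → ℕ → ℕ) (V : Finset ℕ) (R : ℕ), Lev c V 3 lev → 2 ≤ V.card →
    Anch c V (R + 1) → ∃ (c' lev' : Fin 3 → ℕ → ℕ → ℕ) (W : Fin 3 → Finset ℕ),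
      (∀ i, Lev (c' i) (W i) 3 (lev' i) ∧ Anch (c' i) (W i) R) ∧ V.card ≤ ∑ i, (W i).card

/-- **the saturated form implies S08791** -/
theorem s08791_of_threeSat (h3 : ThreeSat) :
    ∀ k : ℕ, 1 ≤ k →
      (∃ c : Fin (3 ^ (k - 1)) → Fin (3 ^ (k - 1)) → ℕ,
          (¬ ∃ x : Fin (3 + 1) → Fin (3 ^ (k - 1)), StrictMono x ∧
              ∃ col : ℕ, ∀ i : Fin 3, c (x i.castSucc) (x i.succ) = col) ∧
          (¬ ∃ y : Fin (k + 1) → Fin (3 ^ (k - 1)), StrictMono y ∧
              Function.Injective (fun i : Fin k => c (y i.castSucc) (y i.succ)))) ∧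
      (∀ c : Fin (3 ^ (k - 1) + 1) → Fin (3 ^ (k - 1) + 1) → ℕ,
          (∃ x : Fin (3 + 1) → Fin (3 ^ (k - 1) + 1), StrictMono x ∧
              ∃ col : ℕ, ∀ i : Fin 3, c (x i.castSucc) (x i.succ) = col) ∨
          (∃ y : Fin (k + 1) → Fin (3 ^ (k - 1) + 1), StrictMono y ∧
              Function.Injective (fun i : Fin k => c (y i.castSucc) (y i.succ)))) :=
  s08791_of_states (σ := (ℕ → ℕ → ℕ) × (ℕ → ℕ → ℕ) × Finset ℕ) (fun s => s.2.2.card)
    (fun R s => Lev s.1 s.2.2 3 s.2.1 ∧ Anch s.1 s.2.2 R)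
    (fun c lev V _ hL hR => ⟨(c, lev, V), ⟨hL, anch_of_rk hR⟩, le_rfl⟩)
    (fun _ h => card_le_one_of_anch_zero h.2)
    (fun R s h h2 => by
      obtain ⟨c', lev', W, hW, hc⟩ := h3 s.1 s.2.1 s.2.2 R h.1 h2 h.2
      exact ⟨fun i => (c' i, lev' i, W i), hW, hc⟩)

end FlashRainbow.K2
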