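import Pool.Agent.Work.MP_54723a_co.K2.Ch3

/-!
# (TB), one-sided bounds (A) and (B) => S08791  (paper: helper96, helper48, helper9; Lean: helper12)

`k` is the colour of the first two vertices.  A bi-full vertex ends and starts full `k`-free paths.

* `TB` : a set with a bi-full vertex has at most `3 ^ (R + 1)` vertices.
* `SideA` : at most `4 * 3 ^ (R - 1) - 1` vertices after a `k`-isolated end.
* `SideB` : at most `5 * 3 ^ (R - 1) - 1` vertices before a start.
-/

set_option autoImplicit false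

namespace FlashRainbow.K2

open Classical FlashRainbow FlashRainbow.K

variable {c : ℕ → ℕ → ℕ} {V U T : Finset ℕ} {r R k x y : ℕ} {lev : ℕ → ℕ → ℕ}

/-- the first two vertices -/
def First2 (V : Finset ℕ) (x y : ℕ) : Prop :=
  x ∈ V ∧ y ∈ V ∧ x < y ∧ ∀ v ∈ V, v = x ∨ v = y ∨ y < v

theorem exists_first2 (hV : 2 ≤ V.card) : ∃ x y, First2 V x y := by
  have hne : V.Nonempty := Finset.card_pos.mp (by omega)
  have hx := Finset.min'_mem V hne
  have hne' : (V.erase (V.min' hne)).Nonempty := by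
    rw [← Finset.card_pos, Finset.card_erase_of_mem hx]
    omega
  have hy := Finset.min'_mem _ hne'
  refine ⟨V.min' hne, (V.erase (V.min' hne)).min' hne', hx, Finset.mem_of_mem_erase hy, ?_, ?_⟩
  · exact lt_of_le_of_ne (Finset.min'_le V _ (Finset.mem_of_mem_erase hy))
      (Ne.symm (Finset.ne_of_mem_erase hy))
  · intro v hv
    by_cases h1 : v = V.min' hne
    · exact Or.inl h1
    · have h2 := Finset.min'_le (V.erase (V.min' hne)) v (Finset.mem_erase.mpr ⟨h1, hv⟩)
      rcases eq_or_lt_of_le h2 with h3 | h3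
      · exact Or.inr (Or.inl h3.symm)
      · exact Or.inr (Or.inr h3)

/-- **(TB)** of helper96 -/
def TB : Prop :=
  ∀ (c : ℕ → ℕ → ℕ) (lev : ℕ → ℕ → ℕ) (V : Finset ℕ) (R x y z : ℕ), Lev c V 3 lev →
    Rk c V (R + 1) → BoundTo R → First2 V x y → z ∈ V → BiFull c V R (c x y) z →
    V.card ≤ 3 ^ (R + 1)

theorem zz_of_TB (hH : TB) : ZZ := by
  intro c lev V R hL hR hB hV
  have h3 : 1 ≤ 3 ^ (R + 1) := Nat.one_le_pow _ _ (by omega)
  obtain ⟨x, y, hxy⟩ := exists_first2 (V := V) (by omega)
  refine ⟨c x y, fun u hu _ _ hbu _ _ _ _ => ?_⟩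
  have := hH c lev V R x y u hL hR hB hxy hu hbu
  omega

theorem card_le_of_TB (hH : TB) : ∀ R : ℕ, BoundTo R := card_le_of_ZZ (zz_of_TB hH)

/-- **(A)** of helper9: after a `k`-isolated end of a full `k`-free path -/
def SideA : Prop :=
  ∀ (c : ℕ → ℕ → ℕ) (lev : ℕ → ℕ → ℕ) (V : Finset ℕ) (R x y z : ℕ), Lev c V 3 lev → 1 ≤ R →
    Rk c V (R + 1) → BoundTo R → First2 V x y → z ∈ V → ¬ InCol c V z (c x y) →
    ¬ OutCol c V z (c x y) → (∃ a, Full1 c V R (c x y) a z) →
    (V.filter (fun w => z < w)).card + 1 ≤ 4 * 3 ^ (R - 1)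

/-- **(B)** of helper9: before a start of a full `k`-free path -/
def SideB : Prop :=
  ∀ (c : ℕ → ℕ → ℕ) (lev : ℕ → ℕ → ℕ) (V : Finset ℕ) (R x y z : ℕ), Lev c V 3 lev → 1 ≤ R →
    Rk c V (R + 1) → BoundTo R → First2 V x y → z ∈ V → (∃ b, Full1 c V R (c x y) z b) →
    (V.filter (fun u => u < z)).card + 1 ≤ 5 * 3 ^ (R - 1)

/-- no bi-full vertex for the colour of the first two vertices in rank one -/
theorem not_biFull_of_rk_one (hR : Rk c V 1) (hxy : First2 V x y) {z : ℕ} (hz : z ∈ V) :
    ¬ BiFull c V 0 (c x y) z := by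
  rintro ⟨⟨a, ha⟩, b, hb⟩
  have hin := not_in_of_full1 (R := 0) hR hb
  obtain ⟨hx, hy, hlt, hall⟩ := hxy
  have h1 : y < z → False := by
    intro hyz
    have h2 := hR z _ (RP.step (RP.step (RP.single hx) hy hlt (Finset.notMem_empty _)) hz hyz
      (by
        intro h3
        simp only [insert_empty_eq, Finset.mem_singleton] at h3
        exact hin ⟨y, hy, hyz, h3⟩))
    rw [Finset.card_insert_of_notMem] at h2
    · simp at h2
    · intro h3
      simp only [insert_empty_eq, Finset.mem_singleton] at h3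
      exact hin ⟨y, hy, hyz, h3⟩
  obtain ⟨P, hP, hk, hc⟩ := ha
  have h2 : a ∈ V := hP.toRS.mem
  cases hP with
  | single _ => simp at hc
  | @step d _ D h _ hdz _ =>
    have hdV : d ∈ V := by
      cases h with
      | single h => exact h
      | step _ h _ _ => exact h
    rcases hall z hz with h5 | h5 | h5
    · rcases hall d hdV with h6 | h6 | h6 <;> omega
    · rcases hall d hdV with h6 | h6 | h6
      · subst h5
        subst h6
        exact hk (Finset.mem_insert_self _ _)
      · omega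
      · omega
    · exact h1 h5

theorem tb_of_sides (hA : SideA) (hB : SideB) : TB := by
  intro c lev V R x y z hL hR hBd hxy hz hb
  rcases Nat.eq_zero_or_pos R with h0 | h0
  · subst h0
    exact absurd hb (not_biFull_of_rk_one hR hxy hz)
  have hA' := hA c lev V R x y z hL h0 hR hBd hxy hz (by
      obtain ⟨b, hb⟩ := hb.2
      exact not_in_of_full1 hR hb) (by
      obtain ⟨a, ha⟩ := hb.1
      exact not_out_of_full1 hR ha) hb.1
  have hB' := hB c lev V R x y z hL h0 hR hBd hxy hz hb.2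
  have hcov : V ⊆ V.filter (fun w => z < w) ∪ (V.filter (fun u => u < z) ∪ {z}) := by
    intro v hv
    simp only [Finset.mem_union, Finset.mem_filter, Finset.mem_singleton]
    rcases Nat.lt_trichotomy v z with h | h | h
    · exact Or.inr (Or.inl ⟨hv, h⟩)
    · exact Or.inr (Or.inr h)
    · exact Or.inl ⟨hv, h⟩
  have h1 := Finset.card_le_card hcov
  have h2 := Finset.card_union_le (V.filter (fun w => z < w)) (V.filter (fun u => u < z) ∪ {z})
  have h3 := Finset.card_union_le (V.filter (fun u => u < z)) {z}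
  rw [Finset.card_singleton] at h3
  obtain ⟨S, rfl⟩ : ∃ S, R = S + 1 := ⟨R - 1, by omega⟩
  rw [Nat.add_sub_cancel] at hA' hB'
  have h4 : 3 ^ (S + 1 + 1) = 9 * 3 ^ S := by ring
  omega

/-- **(A) and (B) imply the bound** -/
theorem card_le_of_sides (hA : SideA) (hB : SideB) : ∀ R : ℕ, BoundTo R :=
  card_le_of_TB (tb_of_sides hA hB)

end FlashRainbow.K2
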