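import Pool.Agent.Work.MP_54723a_co.K2.Ch3

/-!
# (TS) => S08791  (paper: helper6; Lean: helper12)

`k` a colour, `L2, L1, L0` its out-levels, `SZ` the vertices which touch no `k`-arc and start a full
`k`-free path.  `|V| ≤ |L1 ∪ SZ| + 2 * 3 ^ R` and `|V| ≤ |L2 ∪ SZ| + 2 * 3 ^ R`.
-/

set_option autoImplicit false

namespace FlashRainbow.K2

open Classical FlashRainbow FlashRainbow.K

variable {c : ℕ → ℕ → ℕ} {V U T : Finset ℕ} {r R k x y : ℕ} {lev : ℕ → ℕ → ℕ}

/-- the `k`-isolated vertices which start a full `k`-free path -/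
noncomputable def SZ (c : ℕ → ℕ → ℕ) (V : Finset ℕ) (R k : ℕ) : Finset ℕ :=
  V.filter (fun v => ¬ OutCol c V v k ∧ ∃ b, Full1 c V R k v b)

theorem card_L0_sdiff_le (hL : Lev c V 3 lev) (hR : Rk c V (R + 1)) (hB : BoundTo R) :
    (L0 c V k \ SZ c V R k).card ≤ 3 ^ R := by
  have s : L0 c V k \ SZ c V R k ⊆ V := Finset.sdiff_subset.trans (Finset.filter_subset _ _)
  refine hB c lev _ R (le_refl R) (hL.mono s) (rk_of_noarc (k := k) hR s ?_ ?_)
  · intro u hu v hv huv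
    exact free_L0 u (Finset.sdiff_subset hu) v (Finset.sdiff_subset hv) huv
  · intro u hu v hv P hP hkP hc
    obtain ⟨h1, h2⟩ := Finset.mem_sdiff.mp hu
    exact h2 (Finset.mem_filter.mpr ⟨s hu, (Finset.mem_filter.mp h1).2, v, P, hP.mono s, hkP, hc⟩)

theorem card_L2_le (hL : Lev c V 3 lev) (hR : Rk c V (R + 1)) (hB : BoundTo R) :
    (L2 c V k).card ≤ 3 ^ R := by
  have s2 : L2 c V k ⊆ V := Finset.filter_subset _ _
  refine hB c lev _ R (le_refl R) (hL.mono s2) (rk_of_tails hR s2 ?_ (free_L2 (nf_of_lev hL)))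
  intro t ht
  obtain ⟨_, w, hw, h1, h2, _⟩ := Finset.mem_filter.mp ht
  exact ⟨w, hw, h1, h2⟩

theorem card_L1_le (hL : Lev c V 3 lev) (hR : Rk c V (R + 1)) (hB : BoundTo R) :
    (L1 c V k).card ≤ 3 ^ R := by
  have s1 : L1 c V k ⊆ V := Finset.filter_subset _ _
  refine hB c lev _ R (le_refl R) (hL.mono s1) (rk_of_tails hR s1 ?_ free_L1)
  intro t ht
  exact (Finset.mem_filter.mp ht).2.1

theorem subset_levels : V ⊆ L2 c V k ∪ (L1 c V k ∪ L0 c V k) := by
  intro v hv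
  by_cases h1 : OutCol c V v k
  · by_cases h2 : ∃ w ∈ V, v < w ∧ c v w = k ∧ OutCol c V w k
    · exact Finset.mem_union_left _ (Finset.mem_filter.mpr ⟨hv, h2⟩)
    · exact Finset.mem_union_right _ (Finset.mem_union_left _ (Finset.mem_filter.mpr ⟨hv, h1, h2⟩))
  · exact Finset.mem_union_right _ (Finset.mem_union_right _ (Finset.mem_filter.mpr ⟨hv, h1⟩))

/-- the two inequalities, for every colour -/
theorem card_le_TS1 (hL : Lev c V 3 lev) (hR : Rk c V (R + 1)) (hB : BoundTo R) :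
    V.card ≤ (L1 c V k ∪ SZ c V R k).card + 2 * 3 ^ R := by
  have h0 := card_L0_sdiff_le (k := k) hL hR hB
  have h2 := card_L2_le (k := k) hL hR hB
  have hs : V ⊆ (L1 c V k ∪ SZ c V R k) ∪ (L2 c V k ∪ (L0 c V k \ SZ c V R k)) := by
    intro v hv
    have h := subset_levels (c := c) (k := k) hv
    simp only [Finset.mem_union, Finset.mem_sdiff] at h ⊢
    tauto
  have h3 := Finset.card_le_card hs
  have h4 := Finset.card_union_le (L1 c V k ∪ SZ c V R k) (L2 c V k ∪ (L0 c V k \ SZ c V R k))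
  have h5 := Finset.card_union_le (L2 c V k) (L0 c V k \ SZ c V R k)
  omega

theorem card_le_TS2 (hL : Lev c V 3 lev) (hR : Rk c V (R + 1)) (hB : BoundTo R) :
    V.card ≤ (L2 c V k ∪ SZ c V R k).card + 2 * 3 ^ R := by
  have h0 := card_L0_sdiff_le (k := k) hL hR hB
  have h2 := card_L1_le (k := k) hL hR hB
  have hs : V ⊆ (L2 c V k ∪ SZ c V R k) ∪ (L1 c V k ∪ (L0 c V k \ SZ c V R k)) := by
    intro v hv
    have h := subset_levels (c := c) (k := k) hv
    simp only [Finset.mem_union, Finset.mem_sdiff] at h ⊢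
    tauto
  have h3 := Finset.card_le_card hs
  have h4 := Finset.card_union_le (L2 c V k ∪ SZ c V R k) (L1 c V k ∪ (L0 c V k \ SZ c V R k))
  have h5 := Finset.card_union_le (L1 c V k) (L0 c V k \ SZ c V R k)
  omega

/-- **(TS)** of helper6, for SOME colour (his is `k = c x y`), in a minimal counterexample -/
def TS : Prop :=
  ∀ (c : ℕ → ℕ → ℕ) (lev : ℕ → ℕ → ℕ) (V : Finset ℕ) (R x y : ℕ), Lev c V 3 lev → Rk c V (R + 1) →
    x ∈ V → y ∈ V → x < y → (∀ v ∈ V, v ≠ x → v ≠ y → y < v) →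
    (∀ c'' : ℕ → ℕ → ℕ, NF c'' V → Rk c'' V (R + 1) → c'' x y = c x y →
      cnt c'' V (c x y) ≤ cnt c V (c x y)) →
    (∀ v ∈ V, x < v → ¬ InCol c V v (c x y) → ¬ OutCol c V v (c x y) →
      ∃ D, RS c V v D ∧ c x y ∉ D ∧ D.card = R + 1) →
    BoundTo R → V.card = 3 ^ (R + 1) + 1 →
    ∃ k, (L1 c V k ∪ SZ c V R k).card ≤ 3 ^ R ∨ (L2 c V k ∪ SZ c V R k).card ≤ 3 ^ R

theorem liMax_of_TS (hH : TS) : LIMax := by
  intro c lev V R x y hL hR hx hy hxy hrest hsat hfull hB hV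
  exfalso
  obtain ⟨k, h | h⟩ := hH c lev V R x y hL hR hx hy hxy hrest hsat hfull hB hV
  · have h1 := card_le_TS1 (k := k) hL hR hB
    rw [pow_succ] at hV
    omega
  · have h1 := card_le_TS2 (k := k) hL hR hB
    rw [pow_succ] at hV
    omega

theorem card_le_of_TS (hH : TS) : ∀ R : ℕ, BoundTo R := card_le_of_LIMax (liMax_of_TS hH)

end FlashRainbow.K2
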