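import Pool.Agent.Work.MP_54723a_co.K2.LISat
import Pool.Agent.Work.MP_54723a_co.SB.Chain

/-!
# (TRI) in largest sets => S08791  (paper: helper7, helper32, helper73; Lean: helper12)

A local certificate at every vertex (four nested palettes) bounds the number of vertices by `3 ^ R`
(skew Bollobas theorem for two nested pairs).  So it is enough to find the certificate at every vertex
of a set of rank `R` with the largest possible number of points.
-/

set_option autoImplicit false

namespace FlashRainbow.K2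

open Classical FlashRainbow FlashRainbow.K

variable {c : ℕ → ℕ → ℕ} {V U T : Finset ℕ} {r R k x y : ℕ} {lev : ℕ → ℕ → ℕ}

/-- the local certificate at `v`: in-palettes `X`, `B`, out-palettes `P`, `Y`, and `Z` covering `Y - P` -/
structure TriAt (c : ℕ → ℕ → ℕ) (V : Finset ℕ) (R v : ℕ) (X B P Y Z : Finset ℕ) : Prop where
  hX : RP c V v X
  hB : RP c V v B
  hP : RS c V v P
  hY : RS c V v Y
  cXP : X.card + P.card = R
  dXP : Disjoint X P
  cBY : B.card + Y.card = R
  cBX : B.card ≤ X.card
  cZ : Z.card = X.card - B.card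
  dBZ : Disjoint B Z
  sBX : P = ∅ ∨ B ⊆ X
  sYZ : B = ∅ ∨ Y ⊆ P ∪ Z
  inP : ∀ g ∈ P, ¬ InCol c V v g
  outB : ∀ g ∈ B, ¬ OutCol c V v g
  midX : ∀ g ∈ X, OutCol c V v g → InCol c V v g
  midY : ∀ g ∈ Y, InCol c V v g → OutCol c V v g

theorem rs_rp_len (hR : Rk c V R) {u v : ℕ} {D E : Finset ℕ} (hD : RP c V u D) (hE : RS c V v E)
    (hv : v ∈ V) (huv : u < v) (hDE : Disjoint D E) (h1 : c u v ∉ D) (h2 : c u v ∉ E) :
    D.card + E.card + 1 ≤ R := by
  have h0 : Disjoint (insert (c u v) D) E := by
    rw [Finset.disjoint_insert_left]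
    exact ⟨h2, hDE⟩
  obtain ⟨z, hz⟩ := hE.join (Finset.Subset.refl V) (insert (c u v) D) (RP.step hD hv huv h1) h0.symm
  have h3 := hR z _ hz
  rw [Finset.card_union_of_disjoint h0, Finset.card_insert_of_notMem h1] at h3
  omega

/-- lemma 1 of helper7 / helper32 -/
theorem tri_skew (hN : NF c V) (hR : Rk c V R) {u v : ℕ} {X B P Y Z X' B' P' Y' Z' : Finset ℕ}
    (hu : TriAt c V R u X B P Y Z) (hv : TriAt c V R v X' B' P' Y' Z') (huv : u < v)
    (h1 : X.card = X'.card) (h2 : B.card = B'.card) (d1 : Disjoint X P') (d2 : Disjoint B Z') :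
    False := by
  have huV := hu.hX.mem
  have hvV := hv.hX.mem
  have hinv : InCol c V v (c u v) := ⟨u, huV, huv, rfl⟩
  have houtu : OutCol c V u (c u v) := ⟨v, hvV, huv, rfl⟩
  -- `c u v ∈ X`
  have e1 : c u v ∈ X := by
    by_contra h
    have h3 := rs_rp_len hR hu.hX hv.hP hvV huv d1 h (fun h => hv.inP _ h hinv)
    have h4 := hv.cXP
    omega
  have e2 := hu.midX _ e1 houtu
  have d3 : Disjoint B Y' := by
    rcases hu.sBX with h | h
    · -- `P = ∅`, so `P' = ∅`
      have h3 : P'.card = 0 := by
        have h4 := hu.cXP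
        have h5 := hv.cXP
        rw [h, Finset.card_empty] at h4
        omega
      rcases hv.sYZ with h4 | h4
      · have h5 : B.card = 0 := by rw [h2, h4, Finset.card_empty]
        rw [Finset.card_eq_zero.mp h5]
        exact Finset.disjoint_empty_left _
      · rw [Finset.card_eq_zero.mp h3, Finset.empty_union] at h4
        exact d2.mono_right h4
    · rcases hv.sYZ with h4 | h4
      · have h5 : B.card = 0 := by rw [h2, h4, Finset.card_empty]
        rw [Finset.card_eq_zero.mp h5]
        exact Finset.disjoint_empty_left _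
      · refine Disjoint.mono_right h4 ?_
        rw [Finset.disjoint_union_right]
        exact ⟨d1.mono_left h, d2⟩
  have e3 : c u v ∈ Y' := by
    by_contra h
    have h3 := rs_rp_len hR hu.hB hv.hY hvV huv d3 (fun h => hu.outB _ h houtu) h
    have h4 := hv.cBY
    omega
  obtain ⟨t, ht, hvt, hct⟩ := hv.midY _ e3 hinv
  obtain ⟨s, hs, hsu, hcs⟩ := e2
  exact hN s hs u huV v hvV t ht hsu huv hvt hcs hct.symm

/-- **certificates everywhere bound the set** -/
theorem card_le_of_tri (hN : NF c V) (hR : Rk c V R)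
    (h : ∀ v ∈ V, ∃ X B P Y Z, TriAt c V R v X B P Y Z) : V.card ≤ 3 ^ R := by
  choose! X B P Y Z hT using h
  have h1 := SB.card_le_pow_of_pairs V 2 R
    (fun v t => if t = 0 then R else if t = 1 then (X v).card else (B v).card) (fun v _ => rfl)
    (by
      intro v hv t ht
      have h2 := (hT v hv).cXP
      have h3 := (hT v hv).cBX
      rcases t with _ | _ | t
      · simp; omega
      · simpa using h3
      · omega)
    (fun v t => if t = 0 then X v else B v) (fun v t => if t = 0 then P v else Z v)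
    (by
      intro v hv t ht
      rcases t with _ | _ | t
      · simp
      · simp
      · omega)
    (by
      intro v hv t ht
      have h2 := (hT v hv).cXP
      have h3 := (hT v hv).cZ
      rcases t with _ | _ | t
      · simp; omega
      · simpa using h3
      · omega)
    (by
      intro v hv t ht
      rcases t with _ | _ | t
      · simpa using (hT v hv).dXP
      · simpa using (hT v hv).dBZ
      · omega)
    (by
      intro u hu v hv huv hk
      have h2 := hk 1 (by omega)
      have h3 := hk 2 (le_refl 2)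
      simp only [one_ne_zero, if_false, if_true] at h2
      have h3' : (B u).card = (B v).card := by simpa using h3
      by_contra hcon
      push Not at hcon
      have h4 := hcon 0 (by omega)
      have h5 := hcon 1 (by omega)
      simp only [if_true] at h4
      simp only [one_ne_zero, if_false] at h5
      exact tri_skew hN hR (hT u hu) (hT v hv) huv h2 h3' h4 h5)
  exact h1

/-- a crude bound: largest sets exist -/
theorem card_le_crude (hL : Lev c V 3 lev) (hR : Rk c V (R + 1)) (hB : BoundTo R) :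
    V.card ≤ 3 ^ R + 1 + (R + 1) * (2 * 3 ^ R) := by
  have hN := nf_of_lev hL
  by_cases hE : ∃ b ∈ V, ∃ D, RP c V b D ∧ D.card = R + 1
  · have hne : (V.filter (fun b => ∃ D, RP c V b D ∧ D.card = R + 1)).Nonempty := by
      obtain ⟨b, hb, h⟩ := hE
      exact ⟨b, Finset.mem_filter.mpr ⟨hb, h⟩⟩
    set E := V.filter (fun b => ∃ D, RP c V b D ∧ D.card = R + 1) with hEdef
    set b := E.min' hne with hb
    have hbE : b ∈ E := E.min'_mem hne
    obtain ⟨hbV, D, hD, hDc⟩ := Finset.mem_filter.mp hbE
    set V1 := V.filter (fun v => v < b) with hV1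
    have s1 : V1 ⊆ V := Finset.filter_subset _ _
    have c1 : V1.card ≤ 3 ^ R := by
      refine hB c lev V1 R (le_refl R) (hL.mono s1) ?_
      intro y F hF
      have h1 := hR y F (hF.mono s1)
      have h2 : F.card ≠ R + 1 := by
        intro h
        have h3 : y ∈ E := Finset.mem_filter.mpr ⟨s1 hF.mem, F, hF.mono s1, h⟩
        have h4 := E.min'_le y h3
        have h5 := (Finset.mem_filter.mp hF.mem).2
        omega
      omega
    -- the vertices behind `b`
    have hcol : ∀ v ∈ V, b < v → c b v ∈ D := by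
      intro v hv hbv
      by_contra h
      have h1 := hR v _ (RP.step hD hv hbv h)
      rw [Finset.card_insert_of_notMem h] at h1
      omega
    have hcl : ∀ q ∈ D, (V.filter (fun v => b < v ∧ c b v = q)).card ≤ 2 * 3 ^ R := by
      intro q _
      set Uq := V.filter (fun v => b < v ∧ c b v = q) with hUq
      set A := Uq.filter (fun v => ∃ u ∈ Uq, u < v ∧ c u v = q) with hA
      set A' := Uq.filter (fun v => ¬ ∃ u ∈ Uq, u < v ∧ c u v = q) with hA'
      have sU : Uq ⊆ V := Finset.filter_subset _ _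
      have sA : A ⊆ V := (Finset.filter_subset _ _).trans sU
      have sA' : A' ⊆ V := (Finset.filter_subset _ _).trans sU
      have hinU : ∀ t ∈ Uq, ∃ w ∈ V, w < t ∧ c w t = q := fun t ht =>
        ⟨b, hbV, (Finset.mem_filter.mp ht).2.1, (Finset.mem_filter.mp ht).2.2⟩
      have cA : A.card ≤ 3 ^ R := by
        refine hB c lev A R (le_refl R) (hL.mono sA) (rk_of_heads hR sA
          (fun t ht => hinU t (Finset.filter_subset _ _ ht)) ?_)
        intro u hu v hv huv hc
        obtain ⟨huU, w, hw, hwu, hcw⟩ := Finset.mem_filter.mp hu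
        have hwb := (Finset.mem_filter.mp hw).2
        exact hN b hbV w (sU hw) u (sU huU) v (sA hv) hwb.1 hwu huv (hwb.2.trans hcw.symm)
          (hcw.trans hc.symm)
      have cA' : A'.card ≤ 3 ^ R := by
        refine hB c lev A' R (le_refl R) (hL.mono sA') (rk_of_heads hR sA'
          (fun t ht => hinU t (Finset.filter_subset _ _ ht)) ?_)
        intro u hu v hv huv hc
        exact (Finset.mem_filter.mp hv).2 ⟨u, Finset.filter_subset _ _ hu, huv, hc⟩
      have h1 := Finset.card_filter_add_card_filter_not (s := Uq)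
        (fun v => ∃ u ∈ Uq, u < v ∧ c u v = q)
      have h2 : (Uq.filter (fun v => ∃ u ∈ Uq, u < v ∧ c u v = q)).card = A.card := rfl
      have h3 : (Uq.filter (fun v => ¬ ∃ u ∈ Uq, u < v ∧ c u v = q)).card = A'.card := rfl
      omega
    have hsub : V ⊆ (V1 ∪ {b}) ∪ D.biUnion (fun q => V.filter (fun v => b < v ∧ c b v = q)) := by
      intro v hv
      rcases lt_trichotomy v b with h | h | h
      · exact Finset.mem_union_left _ (Finset.mem_union_left _ (Finset.mem_filter.mpr ⟨hv, h⟩))
      · exact Finset.mem_union_left _ (Finset.mem_union_right _ (Finset.mem_singleton.mpr h))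
      · exact Finset.mem_union_right _ (Finset.mem_biUnion.mpr
          ⟨c b v, hcol v hv h, Finset.mem_filter.mpr ⟨hv, h, rfl⟩⟩)
    have h1 := Finset.card_le_card hsub
    have h2 := Finset.card_union_le (V1 ∪ {b})
      (D.biUnion (fun q => V.filter (fun v => b < v ∧ c b v = q)))
    have h3 := Finset.card_union_le V1 {b}
    rw [Finset.card_singleton] at h3
    have h4 : (D.biUnion (fun q => V.filter (fun v => b < v ∧ c b v = q))).card ≤
        (R + 1) * (2 * 3 ^ R) := by
      rw [← hDc]
      exact Finset.card_biUnion_le_card_mul _ _ _ hcl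
    omega
  · have h1 : V.card ≤ 3 ^ R := hB c lev V R (le_refl R) hL (by
      intro y F hF
      have h1 := hR y F hF
      have h2 : F.card ≠ R + 1 := fun h => hE ⟨y, hF.mem, F, hF, h⟩
      omega)
    omega

/-- a set of rank at most `R` with the largest possible number of points -/
def Largest (c : ℕ → ℕ → ℕ) (V : Finset ℕ) (R : ℕ) : Prop :=
  ∀ (c' : ℕ → ℕ → ℕ) (lev' : ℕ → ℕ → ℕ) (V' : Finset ℕ), Lev c' V' 3 lev' → Rk c' V' R →
    V'.card ≤ V.card

/-- **(EXIST)**: every vertex of a largest set (which is a counterexample) has the certificate -/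
def TriMax : Prop :=
  ∀ (c : ℕ → ℕ → ℕ) (lev : ℕ → ℕ → ℕ) (V : Finset ℕ) (R : ℕ), Lev c V 3 lev → Rk c V (R + 1) →
    Largest c V (R + 1) → BoundTo R → 3 ^ (R + 1) < V.card →
    ∀ v ∈ V, ∃ X B P Y Z, TriAt c V (R + 1) v X B P Y Z

theorem exists_largest (hL : Lev c V 3 lev) (hR : Rk c V (R + 1)) (hB : BoundTo R) :
    ∃ (c' : ℕ → ℕ → ℕ) (lev' : ℕ → ℕ → ℕ) (V' : Finset ℕ), Lev c' V' 3 lev' ∧ Rk c' V' (R + 1) ∧
      Largest c' V' (R + 1) ∧ V.card ≤ V'.card := by
  let P : ℕ → Prop := fun n => ∃ (c' : ℕ → ℕ → ℕ) (lev' : ℕ → ℕ → ℕ) (V' : Finset ℕ),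
    Lev c' V' 3 lev' ∧ Rk c' V' (R + 1) ∧ V'.card = n
  have hb := card_le_crude hL hR hB
  have hP : P V.card := ⟨c, lev, V, hL, hR, rfl⟩
  obtain ⟨c', lev', V', h1, h2, h3⟩ := Nat.findGreatest_spec (P := P) hb hP
  refine ⟨c', lev', V', h1, h2, ?_, ?_⟩
  · intro c'' lev'' V'' h4 h5
    rw [h3]
    exact Nat.le_findGreatest (card_le_crude h4 h5 hB) ⟨c'', lev'', V'', h4, h5, rfl⟩
  · rw [h3]
    exact Nat.le_findGreatest hb hP

theorem card_le_of_TriMax (hH : TriMax) : ∀ R : ℕ, BoundTo R := by
  intro R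
  induction R with
  | zero =>
    intro c lev V r hr _ hR
    obtain rfl : r = 0 := by omega
    simpa using card_le_one_of_anch_zero (anch_of_rk hR)
  | succ R ih =>
    intro c lev V r hr hL hR
    rcases Nat.lt_or_ge r (R + 1) with h | h
    · exact ih c lev V r (by omega) hL hR
    obtain rfl : r = R + 1 := by omega
    by_contra hcon
    obtain ⟨c', lev', V', h1, h2, h3, h4⟩ := exists_largest hL hR ih
    have h5 := card_le_of_tri (nf_of_lev h1) h2 (hH c' lev' V' R h1 h2 h3 ih (by omega))
    omega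

/-- **(TRI) in largest sets implies S08791** -/
theorem s08791_of_TriMax (hH : TriMax) :
    ∀ k : ℕ, 1 ≤ k →
      (∃ c : Fin (3 ^ (k - 1)) → Fin (3 ^ (k - 1)) → ℕ,
          (¬ ∃ x : Fin (3 + 1) → Fin (3 ^ (k - 1)), StrictMono x ∧
              ∃ col : ℕ, ∀ i : Fin 3, c (x i.castSucc) (x i.succ) = col) ∧
          (¬ ∃ y : Fin (k + 1) → Fin (3 ^ (k - 1)), StrictMono y ∧
              Function.Injective (fun i : Fin k => c (y i.castSucc) (y i.succ)))) ∧
      (∀ c : Fin (3 ^ (k - 1) + 1) → Fin (3 ^ (k - 1) + 1) → ℕ,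
          (∃ x : Fin (3 + 1) → Fin (3 ^ (k - 1) + 1), StrictMono x ∧
              ∃ col : ℕ, ∀ i : Fin 3, c (x i.castSucc) (x i.succ) = col) ∨
          (∃ y : Fin (k + 1) → Fin (3 ^ (k - 1) + 1), StrictMono y ∧
              Function.Injective (fun i : Fin k => c (y i.castSucc) (y i.succ)))) :=
  K.s08791_of_card fun c lev V R hL hR => card_le_of_TriMax hH R c lev V R (le_refl R) hL hR

end FlashRainbow.K2
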