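import Pool.Agent.Work.MP_54723a_co.K2.TB

/-!
# (U) => S08791  (paper: helper52; Lean: helper12)

`U2` : if `y` is the least vertex of `W`, the rank of `W` is at most `R + 1` and the `k`-free paths from `y`
have at most `R` arcs, then at most `2 * 3 ^ R` vertices of `W` start no chain of two `k`-arcs.
-/

set_option autoImplicit false

namespace FlashRainbow.K2

open Classical FlashRainbow FlashRainbow.K

variable {c : ℕ → ℕ → ℕ} {V U T : Finset ℕ} {r R k x y : ℕ} {lev : ℕ → ℕ → ℕ}

/-- `v` starts a chain of two `k`-arcs -/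
def OutTwo (c : ℕ → ℕ → ℕ) (V : Finset ℕ) (k v : ℕ) : Prop :=
  ∃ u ∈ V, v < u ∧ c v u = k ∧ ∃ w ∈ V, u < w ∧ c u w = k

/-- **(U)** of helper52 -/
def U2 : Prop :=
  ∀ (c : ℕ → ℕ → ℕ) (lev : ℕ → ℕ → ℕ) (W : Finset ℕ) (R y k : ℕ), Lev c W 3 lev →
    Rk c W (R + 1) → BoundTo R → y ∈ W → (∀ w ∈ W, y ≤ w) →
    (∀ u P, RQ c W y u P → k ∉ P → P.card ≤ R) →
    (W.filter (fun v => ¬ OutTwo c W k v)).card ≤ 2 * 3 ^ R

theorem card_le_of_U2 (hH : U2) : ∀ R : ℕ, BoundTo R := by
  intro R
  induction R with
  | zero =>
    intro c lev V r hr _ hR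
    obtain rfl : r = 0 := by omega
    simpa using card_le_one_of_anch_zero (anch_of_rk hR)
  | succ R ih =>
    intro c lev V r hr hL hR
    rcases Nat.lt_or_ge r (R + 1) with h | h
    · exact ih c lev V r (by omega) hL hR
    obtain rfl : r = R + 1 := by omega
    by_contra hcon
    have hone : 1 ≤ 3 ^ (R + 1) := Nat.one_le_pow _ _ (by omega)
    obtain ⟨x, y, hx, hy, hxy, hall⟩ := exists_first2 (V := V) (by omega)
    have hN := nf_of_lev hL
    set k := c x y with hk
    set W := V.erase x with hWd
    have hWV : W ⊆ V := Finset.erase_subset _ _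
    have hyW : y ∈ W := Finset.mem_erase.mpr ⟨by omega, hy⟩
    have hmin : ∀ w ∈ W, y ≤ w := by
      intro w hw
      have h1 := Finset.ne_of_mem_erase hw
      rcases hall w (hWV hw) with h2 | h2 | h2
      · exact absurd h2 h1
      · omega
      · omega
    have hfree : ∀ u P, RQ c W y u P → k ∉ P → P.card ≤ R := by
      intro u P hP hkP
      have h1 := K.RS.card_le hR (RS.step (hP.mono hWV).toRS hx hxy (by rw [← hk]; exact hkP))
      rw [← hk, Finset.card_insert_of_notMem hkP] at h1
      omega
    have hU := hH c lev W R y k (hL.mono hWV) (fun z D hD => hR z D (hD.mono hWV)) ih hyW hmin hfree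
    set T := V.filter (fun v => OutTwo c V k v) with hTd
    have hTV : T ⊆ V := Finset.filter_subset _ _
    have harc : ∀ u ∈ T, ∀ v ∈ T, u < v → c u v ≠ k := by
      intro u hu v hv huv hc
      obtain ⟨_, w, hw, hvw, hcw, w', hw', hww', hcw'⟩ := Finset.mem_filter.mp hv
      exact hN u (hTV hu) v (hTV hv) w hw w' hw' huv hvw hww' (hc.trans hcw.symm)
        (hcw.trans hcw'.symm)
    have hsuf : ∀ S : Finset ℕ, S ⊆ V → ∀ z ∈ T, ∀ D, RP c S z D → k ∉ D → D.card ≤ R := by
      intro S hS z hz D hD hkD
      obtain ⟨_, w, hw, hzw, hcw, _⟩ := Finset.mem_filter.mp hz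
      have h1 := hR w _ (RP.step (hD.mono hS) hw hzw (by rw [hcw]; exact hkD))
      rw [hcw, Finset.card_insert_of_notMem hkD] at h1
      omega
    by_cases hxT : x ∈ T
    · have hT : Rk c T R := fun z D hD => hsuf T hTV z hD.mem D hD (hD.notMem_of_free harc)
      have c1 := ih c lev T R (le_refl R) (hL.mono hTV) hT
      have hcov : V ⊆ T ∪ W.filter (fun v => ¬ OutTwo c W k v) := by
        intro v hv
        by_cases h1 : v ∈ T
        · exact Finset.mem_union_left _ h1
        · refine Finset.mem_union_right _ (Finset.mem_filter.mpr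
            ⟨Finset.mem_erase.mpr ⟨fun h2 => h1 (h2 ▸ hxT), hv⟩, fun h2 => h1 ?_⟩)
          obtain ⟨u, hu, h3, h4, w, hw, h5, h6⟩ := h2
          exact Finset.mem_filter.mpr ⟨hv, u, hWV hu, h3, h4, w, hWV hw, h5, h6⟩
      have h2 := Finset.card_le_card hcov
      have h3 := Finset.card_union_le T (W.filter (fun v => ¬ OutTwo c W k v))
      rw [pow_succ] at hcon
      omega
    · have hyo : ∀ w ∈ V, y < w → c y w ≠ k := by
        intro w hw hyw hc
        exact hxT (Finset.mem_filter.mpr ⟨hx, y, hy, hxy, hk.symm, w, hw, hyw, hc⟩)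
      have hTy : ∀ v ∈ T, y < v := by
        intro v hv
        rcases hall v (hTV hv) with h2 | h2 | h2
        · exact absurd (h2 ▸ hv) hxT
        · subst h2
          obtain ⟨_, w, hw, hzw, hcw, _⟩ := Finset.mem_filter.mp hv
          exact absurd hcw (hyo w hw hzw)
        · exact h2
      have hyT : y ∉ T := fun h => lt_irrefl _ (hTy y h)
      have sT : insert y T ⊆ V := Finset.insert_subset_iff.mpr ⟨hy, hTV⟩
      have harc' : ∀ u ∈ insert y T, ∀ v ∈ insert y T, u < v → c u v ≠ k := by
        intro u hu v hv huv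
        rcases Finset.mem_insert.mp hu with h1 | h1
        · subst h1
          exact hyo v (sT hv) huv
        · rcases Finset.mem_insert.mp hv with h2 | h2
          · subst h2
            have := hTy u h1
            omega
          · exact harc u h1 v h2 huv
      have hT : Rk c (insert y T) R := by
        intro z D hD
        rcases Finset.mem_insert.mp hD.mem with h1 | h1
        · subst h1
          cases hD with
          | single _ => simp
          | @step b _ D' h2 _ h3 _ =>
            have h4 : b ∈ insert z T := by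
              cases h2 with
              | single h => exact h
              | step _ h _ _ => exact h
            rcases Finset.mem_insert.mp h4 with h5 | h5
            · omega
            · have := hTy b h5
              omega
        · exact hsuf _ sT z h1 D hD (hD.notMem_of_free harc')
      have c1 := ih c lev _ R (le_refl R) (hL.mono sT) hT
      have hyF : y ∈ W.filter (fun v => ¬ OutTwo c W k v) := by
        refine Finset.mem_filter.mpr ⟨hyW, ?_⟩
        rintro ⟨u, hu, h3, h4, _⟩
        exact hyo u (hWV hu) h3 h4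
      have hcov : V ⊆ {x} ∪ (insert y T ∪ (W.filter (fun v => ¬ OutTwo c W k v)).erase y) := by
        intro v hv
        by_cases h0 : v = x
        · exact Finset.mem_union_left _ (Finset.mem_singleton.mpr h0)
        refine Finset.mem_union_right _ ?_
        by_cases h1 : v ∈ insert y T
        · exact Finset.mem_union_left _ h1
        · refine Finset.mem_union_right _ (Finset.mem_erase.mpr
            ⟨fun h2 => h1 (h2 ▸ Finset.mem_insert_self _ _), Finset.mem_filter.mpr
            ⟨Finset.mem_erase.mpr ⟨h0, hv⟩, fun h2 => h1 (Finset.mem_insert_of_mem ?_)⟩⟩)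
          obtain ⟨u, hu, h3, h4, w, hw, h5, h6⟩ := h2
          exact Finset.mem_filter.mpr ⟨hv, u, hWV hu, h3, h4, w, hWV hw, h5, h6⟩
      have h2 := Finset.card_le_card hcov
      have h3 := Finset.card_union_le {x}
        (insert y T ∪ (W.filter (fun v => ¬ OutTwo c W k v)).erase y)
      have h4 := Finset.card_union_le (insert y T)
        ((W.filter (fun v => ¬ OutTwo c W k v)).erase y)
      rw [Finset.card_erase_of_mem hyF] at h4
      rw [Finset.card_singleton] at h3
      have h5 : 1 ≤ (W.filter (fun v => ¬ OutTwo c W k v)).card := Finset.card_pos.mpr ⟨y, hyF⟩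
      rw [pow_succ] at hcon
      omega

end FlashRainbow.K2
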